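import Pool.Agent.W_ca8607_h98.AreaDef

/-!
# Integrals over a patch
-/

set_option autoImplicit false

namespace Ca98

open Set Metric Filter Topology MeasureTheory

variable {S : Set E3} {μ : Measure E3}

/-- `Fm A u` is a measurable embedding. -/
theorem measurableEmbedding_Fm (A : E3 ≃ᵃⁱ[ℝ] E3) {u : E2 → ℝ} (hu : Continuous u) :
    MeasurableEmbedding (Fm A u) :=
  (continuous_Fm A hu).measurableEmbedding (Fm_injective A u)

lemma intPatch_measurable {u : E2 → ℝ} (hu : ContDiff ℝ 2 u) :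
    Measurable (fun z => ENNReal.ofReal (jac u z)) :=
  (continuous_jac (hu.of_le (by norm_num))).measurable.ennreal_ofReal

lemma intPatch_ae (hμ : IsArea S μ) {A : E3 ≃ᵃⁱ[ℝ] E3} {r : ℝ} {f : E3 → ℝ}
    (h0 : ∀ x ∈ S, x ∉ cyl A r → f x = 0) : ∀ᵐ x ∂μ, x ∉ cyl A r → f x = 0 := by
  have h1 : ∀ᵐ x ∂μ, x ∈ S := by
    rw [ae_iff]
    exact hμ.null
  filter_upwards [h1] with x hx
  exact h0 x hx

/-- Integration in a patch (for every function `f`). -/
theorem integral_patch (hμ : IsArea S μ) {A : E3 ≃ᵃⁱ[ℝ] E3} {u : E2 → ℝ} {r : ℝ}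
    (h : IsPatch S A u r) {f : E3 → ℝ} (h0 : ∀ x ∈ S, x ∉ cyl A r → f x = 0) :
    ∫ x, f x ∂μ = ∫ z in ball (0 : E2) r, f (Fm A u z) * jac u z := by
  rw [← setIntegral_eq_integral_of_ae_compl_eq_zero (intPatch_ae hμ h0), hμ.patch A u r h,
    patchMeasure, (measurableEmbedding_Fm A h.smooth.continuous).integral_map,
    integral_withDensity_eq_integral_toReal_smul (intPatch_measurable h.smooth)
      (Eventually.of_forall fun z => ENNReal.ofReal_lt_top)]
  refine integral_congr_ae (Eventually.of_forall fun z => ?_)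
  simp only [smul_eq_mul]
  rw [ENNReal.toReal_ofReal (jac_pos u z).le, mul_comm]

/-- Integrability in a patch. -/
theorem integrable_patch (hμ : IsArea S μ) {A : E3 ≃ᵃⁱ[ℝ] E3} {u : E2 → ℝ} {r : ℝ}
    (h : IsPatch S A u r) {f : E3 → ℝ} (h0 : ∀ x ∈ S, x ∉ cyl A r → f x = 0)
    (hf : IntegrableOn (fun z => f (Fm A u z) * jac u z) (ball (0 : E2) r)) :
    Integrable f μ := by
  have h1 : IntegrableOn f (cyl A r) μ := by
    rw [IntegrableOn, hμ.patch A u r h, patchMeasure,
      (measurableEmbedding_Fm A h.smooth.continuous).integrable_map_iff,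
      integrable_withDensity_iff (intPatch_measurable h.smooth)
        (Eventually.of_forall fun z => ENNReal.ofReal_lt_top)]
    refine hf.congr (Eventually.of_forall fun z => ?_)
    simp only [Function.comp]
    rw [ENNReal.toReal_ofReal (jac_pos u z).le]
  refine h1.integrable_of_ae_notMem_eq_zero (intPatch_ae hμ h0)

/-- The measure of a measurable set in a patch. -/
theorem measure_patch (hμ : IsArea S μ) {A : E3 ≃ᵃⁱ[ℝ] E3} {u : E2 → ℝ} {r : ℝ}
    (h : IsPatch S A u r) {E : Set E3} (hE : MeasurableSet E) :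
    μ (E ∩ cyl A r) = ∫⁻ z in ball (0 : E2) r ∩ Fm A u ⁻¹' E, ENNReal.ofReal (jac u z) := by
  have hF := measurableEmbedding_Fm A h.smooth.continuous
  rw [← Measure.restrict_apply hE, hμ.patch A u r h, patchMeasure, hF.map_apply,
    withDensity_apply _ (hF.measurable hE), Measure.restrict_restrict (hF.measurable hE), inter_comm]

end Ca98
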