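import Pool.Agent.W_ca8607_h98.AreaC
import Pool.Agent.W_ca8607_h98.IntPatch

/-!
# Existence of the area measure
-/

set_option autoImplicit false

namespace Ca98

open Set Metric Filter Topology MeasureTheory

variable {S : Set E3}

/-- A minimal surface is a Borel set. -/
theorem MinimalSurface.measurableSet (hS : MinimalSurface S) : MeasurableSet S := by
  have key : ∀ p ∈ S, ∃ δ > 0, ∀ x, dist x p ≤ δ → x ∈ closure S → x ∈ S := fun p hp =>
    hS.isClosed_near hp
  choose! δ hδ hδ' using key
  have h : S = closure S ∩ ⋃ p ∈ S, ball p (δ p) := by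
    refine Subset.antisymm (fun p hp => ⟨subset_closure hp, ?_⟩) ?_
    · exact mem_iUnion₂.2 ⟨p, hp, mem_ball_self (hδ p hp)⟩
    · rintro x ⟨hx, hx'⟩
      obtain ⟨p, hp, hxp⟩ := mem_iUnion₂.1 hx'
      exact hδ' p hp x (mem_ball.1 hxp).le hx
  rw [h]
  exact isClosed_closure.measurableSet.inter
    (isOpen_biUnion fun p _ => isOpen_ball).measurableSet

lemma area_patch_apply {A : E3 ≃ᵃⁱ[ℝ] E3} {u : E2 → ℝ} {r : ℝ} (h : IsPatch S A u r) {E : Set E3}
    (hE : MeasurableSet E) : patchMeasure A u r E =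
      ∫⁻ z in ball (0 : E2) r ∩ Fm A u ⁻¹' E, ENNReal.ofReal (jac u z) := by
  have hF := measurableEmbedding_Fm A h.smooth.continuous
  rw [patchMeasure, hF.map_apply, withDensity_apply _ (hF.measurable hE),
    Measure.restrict_restrict (hF.measurable hE), inter_comm]

lemma area_patch_null (hS : MinimalSurface S) {A : E3 ≃ᵃⁱ[ℝ] E3} {u : E2 → ℝ} {r : ℝ}
    (h : IsPatch S A u r) : patchMeasure A u r Sᶜ = 0 := by
  rw [area_patch_apply h hS.measurableSet.compl]
  have : ball (0 : E2) r ∩ Fm A u ⁻¹' Sᶜ = ∅ := by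
    refine eq_empty_of_forall_notMem fun z hz => hz.2 (h.Fm_mem ?_)
    simpa using hz.1
  rw [this]
  simp

/-- Existence of the area measure. -/
theorem exists_area (hS : MinimalSurface S) : ∃ μ : Measure E3, IsArea S μ := by
  rcases S.eq_empty_or_nonempty with hne | hne
  · refine ⟨0, by simp, fun A u r h => ?_⟩
    have := h.Fm_mem (z := 0) (by simpa using h.pos)
    rw [hne] at this
    exact absurd this (notMem_empty _)
  have key : ∀ p ∈ S, ∃ (A : E3 ≃ᵃⁱ[ℝ] E3) (u : E2 → ℝ) (r : ℝ), IsPatch S A u r ∧ p ∈ cyl A r := by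
    intro p hp
    obtain ⟨A, u, r, h, -, hc, -⟩ := hS.exists_patch hp
    exact ⟨A, u, r, h, hc⟩
  choose! A u r hpatch hmem using key
  obtain ⟨t, htS, htc, htU⟩ := TopologicalSpace.countable_cover_nhdsWithin
    (f := fun p => cyl (A p) (r p)) (s := S)
    (fun p hp => nhdsWithin_le_nhds ((isOpen_cyl _ _).mem_nhds (hmem p hp)))
  have htne : t.Nonempty := by
    obtain ⟨p, hp⟩ := hne
    obtain ⟨q, hq, -⟩ := mem_iUnion₂.1 (htU hp)
    exact ⟨q, hq⟩
  obtain ⟨e, he⟩ := htc.exists_eq_range htne
  have heS : ∀ n, e n ∈ S := fun n => htS (by rw [he]; exact mem_range_self n)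
  set c : ℕ → Set E3 := fun n => cyl (A (e n)) (r (e n)) with hc
  have hcm : ∀ n, MeasurableSet (c n) := fun n => (isOpen_cyl _ _).measurableSet
  have hSc : S ⊆ ⋃ n, c n := fun p hp => by
    obtain ⟨q, hq, hpq⟩ := mem_iUnion₂.1 (htU hp)
    rw [he] at hq
    obtain ⟨n, rfl⟩ := hq
    exact mem_iUnion.2 ⟨n, hpq⟩
  set P : ℕ → Measure E3 := fun n => patchMeasure (A (e n)) (u (e n)) (r (e n)) with hP
  have hC : ∀ n, MeasurableSet (disjointed c n) := fun n => MeasurableSet.disjointed hcm n
  refine ⟨Measure.sum fun n => (P n).restrict (disjointed c n), ?_, fun B v s h => ?_⟩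
  · rw [Measure.sum_apply _ hS.measurableSet.compl]
    refine ENNReal.tsum_eq_zero.2 fun n => ?_
    have h1 : P n Sᶜ = 0 := area_patch_null hS (hpatch _ (heS n))
    exact le_antisymm ((Measure.restrict_apply_le _ _).trans h1.le) zero_le
  · have hcyl : MeasurableSet (cyl B s) := (isOpen_cyl _ _).measurableSet
    ext E hE
    rw [Measure.restrict_apply hE, Measure.sum_apply _ (hE.inter hcyl)]
    have h1 : ∀ n, (P n).restrict (disjointed c n) (E ∩ cyl B s) =
        patchMeasure B v s (E ∩ disjointed c n) := fun n => by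
      have h2 := congrArg (fun ν => ν (E ∩ disjointed c n))
        (patchMeasure_compat (hpatch _ (heS n)) h)
      change ((P n).restrict (cyl B s)) (E ∩ disjointed c n) =
        ((patchMeasure B v s).restrict (cyl (A (e n)) (r (e n)))) (E ∩ disjointed c n) at h2
      rw [Measure.restrict_apply (hE.inter (hC n)), Measure.restrict_apply (hE.inter (hC n))] at h2
      rw [Measure.restrict_apply (hE.inter hcyl)]
      have e1 : E ∩ cyl B s ∩ disjointed c n = E ∩ disjointed c n ∩ cyl B s := by
        rw [inter_assoc, inter_assoc, inter_comm (cyl B s)]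
      have e2 : E ∩ disjointed c n ∩ cyl (A (e n)) (r (e n)) = E ∩ disjointed c n :=
        inter_eq_left.2 (inter_subset_right.trans (disjointed_subset c n))
      rw [e1, h2, e2]
    simp_rw [h1]
    have hdis : Pairwise (Function.onFun Disjoint fun n => E ∩ disjointed c n) := fun m n hmn =>
      (disjoint_disjointed c hmn).mono inter_subset_right inter_subset_right
    rw [← measure_iUnion hdis (fun n => hE.inter (hC n)), ← inter_iUnion, iUnion_disjointed]
    refine measure_congr ?_
    have h3 : ∀ᵐ x ∂(patchMeasure B v s), x ∈ S := by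
      rw [ae_iff]
      exact area_patch_null hS h
    filter_upwards [h3] with x hx
    have hx' : x ∈ ⋃ n, c n := hSc hx
    exact propext ⟨fun h => h.1, fun h => ⟨h, hx'⟩⟩

/-- Compact subsets of the surface have finite area. -/
theorem IsArea.lt_top {μ : Measure E3} (hS : MinimalSurface S) (hμ : IsArea S μ) {C : Set E3}
    (hC : IsCompact C) (hCS : C ⊆ S) : μ C < ⊤ := by
  refine hC.measure_lt_top_of_nhdsWithin fun p hp => ?_
  obtain ⟨A, u, r, h, h0, hc, -⟩ := hS.exists_patch (hCS hp)
  set O : Set E3 := cyl A r ∩ {q | ‖ch A q‖ < r / 2} with hO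
  have hOo : IsOpen O := (isOpen_cyl A r).inter (isOpen_lt (continuous_ch A).norm continuous_const)
  have hpO : p ∈ O := by
    refine ⟨hc, ?_⟩
    rw [mem_ofPred_eq, ← h0, ch_Fm, norm_zero]
    exact half_pos h.pos
  refine ⟨O, nhdsWithin_le_nhds (hOo.mem_nhds hpO), ?_⟩
  have h1 := measure_patch hμ h hOo.measurableSet
  have h2 : O ∩ cyl A r = O := inter_eq_left.2 inter_subset_left
  rw [h2] at h1
  rw [h1]
  have hj : IntegrableOn (jac u) (closedBall (0 : E2) (r / 2)) :=
    ((continuous_jac (h.smooth.of_le (by norm_num))).continuousOn).integrableOn_compact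
      (isCompact_closedBall _ _)
  refine lt_of_le_of_lt (lintegral_mono_set (t := closedBall (0 : E2) (r / 2)) ?_) ?_
  · rintro z ⟨-, hz⟩
    have h3 : ‖ch A (Fm A u z)‖ < r / 2 := hz.2
    rw [ch_Fm] at h3
    rw [mem_closedBall, dist_zero_right]
    exact h3.le
  · have h3 := hj.2
    rw [hasFiniteIntegral_iff_ofReal (Eventually.of_forall fun z => (jac_pos u z).le)] at h3
    exact h3

end Ca98
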