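import Pool.Agent.W_ca8607_h98.NormalA
import Pool.Agent.W_ca8607_h98.IntPatch

/-!
# Two patches give the same area
-/

set_option autoImplicit false

namespace Ca98

open Set Metric Filter Topology MeasureTheory
open scoped RealInnerProductSpace

variable {S : Set E3}

lemma areaC_apply {A : E3 ≃ᵃⁱ[ℝ] E3} {u : E2 → ℝ} {r : ℝ} (h : IsPatch S A u r) {E : Set E3}
    (hE : MeasurableSet E) : patchMeasure A u r E =
      ∫⁻ z in ball (0 : E2) r ∩ Fm A u ⁻¹' E, ENNReal.ofReal (jac u z) := by
  have hF := measurableEmbedding_Fm A h.smooth.continuous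
  rw [patchMeasure, hF.map_apply, withDensity_apply _ (hF.measurable hE),
    Measure.restrict_restrict (hF.measurable hE), inter_comm]

lemma areaC_det (D : E2 →L[ℝ] E2) : D.det =
    D (EuclideanSpace.single 0 1) 0 * D (EuclideanSpace.single 1 1) 1 -
      D (EuclideanSpace.single 1 1) 0 * D (EuclideanSpace.single 0 1) 1 := by
  rw [ContinuousLinearMap.det, ← LinearMap.det_toMatrix (EuclideanSpace.basisFun (Fin 2) ℝ).toBasis,
    Matrix.det_fin_two]
  simp [LinearMap.toMatrix_apply]

lemma areaC_inner (w w' : E2) (s s' : ℝ) : ⟪up w s, up w' s'⟫ = w 0 * w' 0 + w 1 * w' 1 + s * s' := by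
  simp [PiLp.inner_apply, Fin.sum_univ_three, up]
  ring

/-- The Jacobian of the change of patches. -/
lemma areaC_jac {A B : E3 ≃ᵃⁱ[ℝ] E3} {u v : E2 → ℝ} {r s : ℝ} (h : IsPatch S A u r)
    (h' : IsPatch S B v s) {z : E2} (hz : ‖z‖ < r) (hzB : Fm A u z ∈ cyl B s) {D : E2 →L[ℝ] E2}
    (hD : HasFDerivAt (fun w => ch B (Fm A u w)) D z) :
    jac u z = |D.det| * jac v (ch B (Fm A u z)) := by
  set T : E2 → E2 := fun w => ch B (Fm A u w) with hT
  have hu : DifferentiableAt ℝ u z := h.smooth.differentiable (by norm_num) z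
  have hv : DifferentiableAt ℝ v (T z) := h'.smooth.differentiable (by norm_num) _
  have hFc : Continuous (Fm A u) := continuous_Fm A h.smooth.continuous
  -- the two parametrisations agree
  have heq : (fun w => Fm B v (T w)) =ᶠ[𝓝 z] Fm A u := by
    have h1 : ∀ᶠ w in 𝓝 z, ‖w‖ < r := (continuous_norm.tendsto z).eventually (gt_mem_nhds hz)
    have h2 : ∀ᶠ w in 𝓝 z, Fm A u w ∈ cyl B s :=
      (hFc.tendsto z).eventually ((isOpen_cyl B s).mem_nhds hzB)
    filter_upwards [h1, h2] with w hw1 hw2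
    exact h'.Fm_ch hw2 (h.Fm_mem hw1)
  have hd1 := (normalA_hasFDerivAt_Fm B hv).comp z hD
  have hd2 := (normalA_hasFDerivAt_Fm A hu).congr_of_eventuallyEq heq
  have huniq := hd1.unique hd2
  have hval : ∀ w : E2, B.symm.linearIsometryEquiv (up (D w) (fderiv ℝ v (T z) (D w))) =
      A.symm.linearIsometryEquiv (up w (fderiv ℝ u z w)) := fun w => by
    have := congrArg (fun (L : E2 →L[ℝ] E3) => L w) huniq
    simpa using this
  have hinner : ∀ w w' : E2, ⟪up (D w) (fderiv ℝ v (T z) (D w)), up (D w') (fderiv ℝ v (T z) (D w'))⟫ =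
      ⟪up w (fderiv ℝ u z w), up w' (fderiv ℝ u z w')⟫ := fun w w' => by
    rw [← LinearIsometryEquiv.inner_map_map B.symm.linearIsometryEquiv, hval, hval,
      LinearIsometryEquiv.inner_map_map]
  have h00 := hinner (EuclideanSpace.single 0 1) (EuclideanSpace.single 0 1)
  have h01 := hinner (EuclideanSpace.single 0 1) (EuclideanSpace.single 1 1)
  have h11 := hinner (EuclideanSpace.single 1 1) (EuclideanSpace.single 1 1)
  simp only [areaC_inner, normalA_fderiv] at h00 h01 h11
  have hdet := areaC_det D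
  generalize D (EuclideanSpace.single 0 1) = d0 at h00 h01 h11 hdet
  generalize D (EuclideanSpace.single 1 1) = d1 at h00 h01 h11 hdet
  simp at h00 h01 h11
  have hsq : jac u z ^ 2 = (|D.det| * jac v (T z)) ^ 2 := by
    rw [mul_pow, sq_abs, jac_sq, jac_sq, hdet]
    generalize pd v 0 (T z) = p' at h00 h01 h11 ⊢
    generalize pd v 1 (T z) = q' at h00 h01 h11 ⊢
    generalize pd u 0 z = p at h00 h01 h11 ⊢
    generalize pd u 1 z = q at h00 h01 h11 ⊢
    have e1 : 1 + p ^ 2 + q ^ 2 = (1 + p * p) * (1 + q * q) - (p * q) * (p * q) := by ring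
    rw [e1, ← h00, ← h11, ← h01]
    ring
  have h1 := jac_pos u z
  have h2 : 0 ≤ |D.det| * jac v (T z) := mul_nonneg (abs_nonneg _) (jac_pos _ _).le
  exact (pow_left_inj₀ h1.le h2 (by norm_num)).1 hsq

/-- Two patches give the same measure on the common part. -/
theorem patchMeasure_compat {A B : E3 ≃ᵃⁱ[ℝ] E3} {u v : E2 → ℝ} {r s : ℝ} (h : IsPatch S A u r)
    (h' : IsPatch S B v s) :
    (patchMeasure A u r).restrict (cyl B s) = (patchMeasure B v s).restrict (cyl A r) := by
  have hFc : Continuous (Fm A u) := continuous_Fm A h.smooth.continuous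
  have hcA : MeasurableSet (cyl A r) := (isOpen_cyl _ _).measurableSet
  have hcB : MeasurableSet (cyl B s) := (isOpen_cyl _ _).measurableSet
  set T : E2 → E2 := fun w => ch B (Fm A u w) with hT
  have hTd : ∀ z, HasFDerivAt T ((dnL.comp (B.linearIsometryEquiv.toContinuousLinearEquiv : E3 →L[ℝ] E3)).comp
      ((A.symm.linearIsometryEquiv.toContinuousLinearEquiv : E3 →L[ℝ] E3).comp
      (upL.comp ((ContinuousLinearMap.id ℝ E2).prod (fderiv ℝ u z))))) z := fun z => by
    have h1 : HasFDerivAt (fun q : E3 => ch B q)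
        (dnL.comp (B.linearIsometryEquiv.toContinuousLinearEquiv : E3 →L[ℝ] E3)) (Fm A u z) :=
      dnL.hasFDerivAt.comp (Fm A u z) (normalA_hasFDerivAt B (Fm A u z))
    exact h1.comp z (normalA_hasFDerivAt_Fm A (h.smooth.differentiable (by norm_num) z))
  ext E hE
  rw [Measure.restrict_apply hE, Measure.restrict_apply hE, areaC_apply h (hE.inter hcB),
    areaC_apply h' (hE.inter hcA)]
  set Z : Set E2 := ball (0 : E2) r ∩ Fm A u ⁻¹' (E ∩ cyl B s) with hZ
  have hZm : MeasurableSet Z := measurableSet_ball.inter (hFc.measurable (hE.inter hcB))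
  have hback : ∀ z ∈ Z, Fm B v (T z) = Fm A u z := fun z hz =>
    h'.Fm_ch hz.2.2 (h.Fm_mem (by simpa using hz.1))
  have hinj : InjOn T Z := fun z hz w hw hzw => by
    refine Fm_injective A u ?_
    rw [← hback z hz, ← hback w hw, hzw]
  have himg : T '' Z = ball (0 : E2) s ∩ Fm B v ⁻¹' (E ∩ cyl A r) := by
    ext w
    constructor
    · rintro ⟨z, hz, rfl⟩
      refine ⟨by simpa using hz.2.2.1, ?_⟩
      rw [mem_preimage, hback z hz]
      exact ⟨hz.2.1, h.Fm_mem_cyl (by simpa using hz.1)⟩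
    · rintro ⟨hw, hwE, hwA⟩
      have hwS : Fm B v w ∈ S := h'.Fm_mem (by simpa using hw)
      have hF : Fm A u (ch A (Fm B v w)) = Fm B v w := h.Fm_ch hwA hwS
      refine ⟨ch A (Fm B v w), ⟨by simpa using hwA.1, ?_⟩, ?_⟩
      · rw [mem_preimage, hF]
        exact ⟨hwE, h'.Fm_mem_cyl (by simpa using hw)⟩
      · rw [hT]
        simp only
        rw [hF, ch_Fm]
  rw [← himg, lintegral_image_eq_lintegral_abs_det_fderiv_mul volume hZm
    (fun z _ => (hTd z).hasFDerivWithinAt) hinj]
  refine setLIntegral_congr_fun hZm fun z hz => ?_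
  rw [areaC_jac h h' (by simpa using hz.1) hz.2.2 (hTd z), ENNReal.ofReal_mul (abs_nonneg _)]

end Ca98
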