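import Pool.Agent.W_ca8607_h98.Base

/-!
# The area measure of a minimal surface: definitions
-/

set_option autoImplicit false

namespace Ca98

open Set Metric Filter Topology MeasureTheory
open scoped RealInnerProductSpace

/-- The area density `√(1 + |∇u|²)` of the graph of `u`. -/
noncomputable def jac (u : E2 → ℝ) (z : E2) : ℝ := Real.sqrt (1 + pd u 0 z ^ 2 + pd u 1 z ^ 2)

/-- The area measure of a patch. -/
noncomputable def patchMeasure (A : E3 ≃ᵃⁱ[ℝ] E3) (u : E2 → ℝ) (r : ℝ) : Measure E3 :=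
  Measure.map (Fm A u)
    ((volume.restrict (ball (0 : E2) r)).withDensity (fun z => ENNReal.ofReal (jac u z)))

/-- `μ` is the area measure of `S`. -/
structure IsArea (S : Set E3) (μ : Measure E3) : Prop where
  null : μ Sᶜ = 0
  patch : ∀ (A : E3 ≃ᵃⁱ[ℝ] E3) (u : E2 → ℝ) (r : ℝ), IsPatch S A u r →
    μ.restrict (cyl A r) = patchMeasure A u r

lemma jac_sq (u : E2 → ℝ) (z : E2) : jac u z ^ 2 = 1 + pd u 0 z ^ 2 + pd u 1 z ^ 2 :=
  Real.sq_sqrt (by positivity)

lemma one_le_jac (u : E2 → ℝ) (z : E2) : 1 ≤ jac u z := by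
  rw [jac, Real.one_le_sqrt]
  nlinarith [sq_nonneg (pd u 0 z), sq_nonneg (pd u 1 z)]

lemma jac_pos (u : E2 → ℝ) (z : E2) : 0 < jac u z := one_pos.trans_le (one_le_jac u z)

lemma continuous_pd {u : E2 → ℝ} (hu : ContDiff ℝ 1 u) (i : Fin 2) : Continuous (pd u i) :=
  (hu.continuous_fderiv (by norm_num)).clm_apply continuous_const

lemma continuous_jac {u : E2 → ℝ} (hu : ContDiff ℝ 1 u) : Continuous (jac u) := by
  have h0 := continuous_pd hu 0
  have h1 := continuous_pd hu 1
  unfold jac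
  fun_prop

lemma contDiff_pd {u : E2 → ℝ} (hu : ContDiff ℝ 2 u) (i : Fin 2) : ContDiff ℝ 1 (pd u i) :=
  (hu.fderiv_right (m := 1) (by norm_num)).clm_apply contDiff_const

lemma contDiff_jac {u : E2 → ℝ} (hu : ContDiff ℝ 2 u) : ContDiff ℝ 1 (jac u) := by
  have h0 := contDiff_pd hu 0
  have h1 := contDiff_pd hu 1
  refine ContDiff.sqrt (by fun_prop) fun z => ?_
  positivity

/-- The upward unit normal of the graph of `u`. -/
noncomputable def Nu (u : E2 → ℝ) (z : E2) : E3 :=
  (1 / jac u z) • !₂[-pd u 0 z, -pd u 1 z, 1]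

/-- The trace of `D²Ψ` on the tangent plane of the graph of `u` over `z`. -/
noncomputable def lapG (u : E2 → ℝ) (Ψ : E3 → ℝ) (z : E2) : ℝ :=
  (∑ k : Fin 3, D2 Ψ (up z (u z)) (EuclideanSpace.single k 1) (EuclideanSpace.single k 1))
    - D2 Ψ (up z (u z)) (Nu u z) (Nu u z)

/-- The coefficient `√g g^{ij}` of the graph of `u`. -/
noncomputable def co (u : E2 → ℝ) (i j : Fin 2) (z : E2) : ℝ :=
  ((if i = j then jac u z ^ 2 else 0) - pd u i z * pd u j z) / jac u z

/-- A unit normal at each point of the surface (a choice). -/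
noncomputable def nrm (S : Set E3) (x : E3) : E3 :=
  open Classical in if h : ∃ ν, IsNormal S x ν then h.choose else 0

/-- The trace of `D²Ψ` on the tangent plane of the surface at `x`. -/
noncomputable def TL (S : Set E3) (Ψ : E3 → ℝ) (x : E3) : ℝ :=
  (∑ k : Fin 3, D2 Ψ x (EuclideanSpace.single k 1) (EuclideanSpace.single k 1))
    - D2 Ψ x (nrm S x) (nrm S x)

/-- The inner product of the tangential gradients of two ambient functions. -/
noncomputable def gS (S : Set E3) (f g : E3 → ℝ) (x : E3) : ℝ :=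
  (∑ k : Fin 3, fderiv ℝ f x (EuclideanSpace.single k 1) * fderiv ℝ g x (EuclideanSpace.single k 1))
    - fderiv ℝ f x (nrm S x) * fderiv ℝ g x (nrm S x)

end Ca98
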