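import Pool.Agent.W_ca8607_h98.SObs

/-!
# Constants for the barrier of an obstacle
-/

set_option autoImplicit false

namespace Ca98

open Set Metric Filter Topology
open scoped RealInnerProductSpace

lemma barrier_continuousOn_fderiv {N : Set E3} {φ : E3 → ℝ} (hN : IsOpen N)
    (hφ : ContDiffOn ℝ 2 φ N) : ContinuousOn (fderiv ℝ (fderiv ℝ φ)) N := by
  have h1 := hφ.fderiv_of_isOpen hN (m := 1) (by norm_num)
  exact h1.continuousOn_fderiv_of_isOpen hN (by norm_num)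

/-- Constants for the barrier. -/
theorem barrier_constants {N K : Set E3} {φ : E3 → ℝ} (hN : IsOpen N) (hK : IsCompact K)
    (hKN : K ⊆ N) (hφ : ContDiffOn ℝ 2 φ N) (hKφ : ∀ x ∈ N, x ∈ K ↔ φ x ≤ 0)
    (htr : ∀ x ∈ N, φ x = 0 → ∀ v w : E3, ‖v‖ = 1 → ‖w‖ = 1 → ⟪v, w⟫ = 0 →
      0 < D2 φ x v v + D2 φ x w w) :
    ∃ (N' : Set E3) (s c : ℝ), IsCompact N' ∧ N' ⊆ N ∧ K ⊆ interior N' ∧ 0 < s ∧ 0 < c ∧
      (∀ x ∈ N', φ x ≤ s → x ∈ interior N') ∧
      ∀ x ∈ N', 0 ≤ φ x → φ x ≤ s → ∀ v w : E3, ‖v‖ = 1 → ‖w‖ = 1 → ⟪v, w⟫ = 0 →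
        c ≤ D2 φ x v v + D2 φ x w w := by
  obtain ⟨δ, hδ, hδN⟩ := hK.exists_cthickening_subset_open hN hKN
  set N' := cthickening δ K with hN'
  have hN'c : IsCompact N' := hK.cthickening
  have hKint : K ⊆ interior N' := by
    refine (self_subset_thickening hδ K).trans ?_
    exact interior_maximal (thickening_subset_cthickening δ K) isOpen_thickening
  -- a positive lower bound for `φ` on the boundary
  have hs : ∃ s > 0, ∀ x ∈ N', φ x ≤ s → x ∈ interior N' := by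
    have hcomp : IsCompact (N' \ interior N') := hN'c.diff isOpen_interior
    rcases (N' \ interior N').eq_empty_or_nonempty with he | hne
    · refine ⟨1, one_pos, fun x hx _ => ?_⟩
      by_contra hxi
      have : x ∈ N' \ interior N' := ⟨hx, hxi⟩
      rw [he] at this
      exact this
    · have hcont : ContinuousOn φ (N' \ interior N') :=
        hφ.continuousOn.mono (sdiff_subset.trans hδN)
      obtain ⟨x0, hx0, hmin⟩ := hcomp.exists_isMinOn hne hcont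
      have hpos : 0 < φ x0 := by
        by_contra hle
        exact hx0.2 (hKint ((hKφ x0 (hδN hx0.1)).2 (not_lt.1 hle)))
      refine ⟨φ x0 / 2, half_pos hpos, fun x hx hxs => ?_⟩
      by_contra hxi
      have := hmin ⟨hx, hxi⟩
      simp only [mem_setOf_eq] at this
      linarith
  obtain ⟨s₀, hs₀, hs₀'⟩ := hs
  -- the compact set of data
  set T : Set (E3 × E3 × E3) := {p | p.1 ∈ N' ∧ ‖p.2.1‖ = 1 ∧ ‖p.2.2‖ = 1 ∧ ⟪p.2.1, p.2.2⟫ = 0} with hT
  have hTc : IsCompact T := by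
    refine ((hN'c.prod ((isCompact_sphere (0 : E3) 1).prod (isCompact_sphere (0 : E3) 1))).of_isClosed_subset
      ?_ ?_)
    · have h1 : IsClosed {p : E3 × E3 × E3 | p.1 ∈ N'} := hN'c.isClosed.preimage continuous_fst
      have h2 : IsClosed {p : E3 × E3 × E3 | ‖p.2.1‖ = 1} :=
        isClosed_eq (by fun_prop) continuous_const
      have h3 : IsClosed {p : E3 × E3 × E3 | ‖p.2.2‖ = 1} :=
        isClosed_eq (by fun_prop) continuous_const
      have h4 : IsClosed {p : E3 × E3 × E3 | ⟪p.2.1, p.2.2⟫ = 0} :=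
        isClosed_eq (by fun_prop) continuous_const
      exact h1.inter (h2.inter (h3.inter h4))
    · rintro ⟨x, v, w⟩ ⟨h1, h2, h3, -⟩
      exact ⟨h1, by simpa using h2, by simpa using h3⟩
  have hcont2 : ContinuousOn (fun p : E3 × E3 × E3 => D2 φ p.1 p.2.1 p.2.1 + D2 φ p.1 p.2.2 p.2.2) T := by
    have h1 : ContinuousOn (fun p : E3 × E3 × E3 => fderiv ℝ (fderiv ℝ φ) p.1) T :=
      (barrier_continuousOn_fderiv hN hφ).comp continuous_fst.continuousOn fun p hp => hδN hp.1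
    have h2 : ContinuousOn (fun p : E3 × E3 × E3 => p.2.1) T := by fun_prop
    have h3 : ContinuousOn (fun p : E3 × E3 × E3 => p.2.2) T := by fun_prop
    exact ((h1.clm_apply h2).clm_apply h2).add ((h1.clm_apply h3).clm_apply h3)
  have hφT : ContinuousOn (fun p : E3 × E3 × E3 => φ p.1) T :=
    hφ.continuousOn.comp continuous_fst.continuousOn fun p hp => hδN hp.1
  -- the bound
  have hc : ∃ c > 0, ∃ s > 0, ∀ p ∈ T, 0 ≤ φ p.1 → φ p.1 ≤ s →
      c ≤ D2 φ p.1 p.2.1 p.2.1 + D2 φ p.1 p.2.2 p.2.2 := by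
    by_contra hcon
    push Not at hcon
    have hn : ∀ n : ℕ, (0 : ℝ) < 1 / ((n : ℝ) + 1) := fun n => by positivity
    choose p hpT hp0 hps hpc using fun n : ℕ => hcon _ (hn n) _ (hn n)
    obtain ⟨q, hq, ψ, hψ, hlim⟩ := hTc.tendsto_subseq hpT
    have hlim0 : Tendsto (fun n => 1 / (((ψ n : ℕ) : ℝ) + 1)) atTop (𝓝 0) :=
      (tendsto_one_div_add_atTop_nhds_zero_nat (𝕜 := ℝ)).comp hψ.tendsto_atTop
    have hwithin : Tendsto (fun n => p (ψ n)) atTop (𝓝[T] q) :=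
      tendsto_nhdsWithin_iff.2 ⟨hlim, Eventually.of_forall fun n => hpT _⟩
    have h1 : Tendsto (fun n => φ (p (ψ n)).1) atTop (𝓝 (φ q.1)) := (hφT q hq).tendsto.comp hwithin
    have h2 := (hcont2 q hq).tendsto.comp hwithin
    have h3 : φ q.1 ≤ 0 := le_of_tendsto_of_tendsto' h1 hlim0 fun n => hps _
    have h4 : 0 ≤ φ q.1 := ge_of_tendsto' h1 fun n => hp0 _
    have h5 : D2 φ q.1 q.2.1 q.2.1 + D2 φ q.1 q.2.2 q.2.2 ≤ 0 :=
      le_of_tendsto_of_tendsto' h2 hlim0 fun n => (hpc _).le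
    exact absurd (htr q.1 (hδN hq.1) (le_antisymm h3 h4) q.2.1 q.2.2 hq.2.1 hq.2.2.1 hq.2.2.2)
      (not_lt.2 h5)
  obtain ⟨c, hc0, s₁, hs₁, hc1⟩ := hc
  refine ⟨N', min s₀ s₁, c, hN'c, hδN, hKint, lt_min hs₀ hs₁, hc0,
    fun x hx hxs => hs₀' x hx (hxs.trans (min_le_left _ _)), fun x hx h0 hxs v w hv hw hvw => ?_⟩
  exact hc1 (x, v, w) ⟨hx, hv, hw, hvw⟩ h0 (hxs.trans (min_le_right _ _))

end Ca98
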