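import Pool.Agent.W_ca8607_h98.Defs

/-!
# Basic facts: coordinates, patches, curves
-/

set_option autoImplicit false

namespace Ca98

open Set Metric Filter Topology
open scoped RealInnerProductSpace NNReal

/-- The horizontal part of a point of `ℝ³`. -/
def dn (q : E3) : E2 := !₂[q 0, q 1]

/-- The parametrisation of a patch. -/
noncomputable def Fm (A : E3 ≃ᵃⁱ[ℝ] E3) (u : E2 → ℝ) (z : E2) : E3 := A.symm (up z (u z))

/-- The chart of a patch. -/
noncomputable def ch (A : E3 ≃ᵃⁱ[ℝ] E3) (q : E3) : E2 := dn (A q)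

/-- The open cylinder of a patch. -/
def cyl (A : E3 ≃ᵃⁱ[ℝ] E3) (r : ℝ) : Set E3 := {q | ‖ch A q‖ < r ∧ |A q 2| < r}

@[simp] lemma up_zero (z : E2) (s : ℝ) : up z s 0 = z 0 := by simp [up]
@[simp] lemma up_one (z : E2) (s : ℝ) : up z s 1 = z 1 := by simp [up]
@[simp] lemma up_two (z : E2) (s : ℝ) : up z s 2 = s := by simp [up]
@[simp] lemma dn_zero (q : E3) : dn q 0 = q 0 := by simp [dn]
@[simp] lemma dn_one (q : E3) : dn q 1 = q 1 := by simp [dn]

@[simp] lemma dn_up (z : E2) (s : ℝ) : dn (up z s) = z := by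
  ext i
  fin_cases i <;> simp [dn, up]

@[simp] lemma up_dn (q : E3) : up (dn q) (q 2) = q := by
  ext i
  fin_cases i <;> simp [dn, up]

lemma norm_sq_up (z : E2) (s : ℝ) : ‖up z s‖ ^ 2 = ‖z‖ ^ 2 + s ^ 2 := by
  rw [EuclideanSpace.norm_sq_eq, EuclideanSpace.norm_sq_eq, Fin.sum_univ_three, Fin.sum_univ_two]
  simp

lemma norm_sq_dn (q : E3) : ‖dn q‖ ^ 2 + q 2 ^ 2 = ‖q‖ ^ 2 := by
  conv_rhs => rw [← up_dn q]
  rw [norm_sq_up]

lemma norm_dn_le (q : E3) : ‖dn q‖ ≤ ‖q‖ := by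
  have := norm_sq_dn q
  nlinarith [norm_nonneg q, norm_nonneg (dn q), sq_nonneg (q 2)]

lemma abs_two_le (q : E3) : |q 2| ≤ ‖q‖ := by
  have := norm_sq_dn q
  rw [← Real.sqrt_sq_eq_abs, ← Real.sqrt_sq (norm_nonneg q)]
  exact Real.sqrt_le_sqrt (by nlinarith [sq_nonneg ‖dn q‖])

lemma norm_up_le (z : E2) (s : ℝ) : ‖up z s‖ ≤ ‖z‖ + |s| := by
  have := norm_sq_up z s
  nlinarith [norm_nonneg z, norm_nonneg (up z s), abs_nonneg s, sq_abs s,
    mul_nonneg (norm_nonneg z) (abs_nonneg s)]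

lemma norm_le_norm_up (z : E2) (s : ℝ) : ‖z‖ ≤ ‖up z s‖ := by
  simpa using norm_dn_le (up z s)

lemma up_add (z w : E2) (s t : ℝ) : up (z + w) (s + t) = up z s + up w t := by
  ext i
  fin_cases i <;> simp [up]

lemma up_sub (z w : E2) (s t : ℝ) : up (z - w) (s - t) = up z s - up w t := by
  ext i
  fin_cases i <;> simp [up]

lemma up_smul (c : ℝ) (z : E2) (s : ℝ) : up (c • z) (c * s) = c • up z s := by
  ext i
  fin_cases i <;> simp [up]

/-- `dn` as a continuous linear map. -/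
noncomputable def dnL : E3 →L[ℝ] E2 :=
  LinearMap.toContinuousLinearMap
    { toFun := dn
      map_add' := fun x y => by ext i; fin_cases i <;> simp [dn]
      map_smul' := fun c x => by ext i; fin_cases i <;> simp [dn] }

@[simp] lemma dnL_apply (q : E3) : dnL q = dn q := rfl

/-- `up` as a continuous linear map of a pair. -/
noncomputable def upL : E2 × ℝ →L[ℝ] E3 :=
  LinearMap.toContinuousLinearMap
    { toFun := fun p => up p.1 p.2
      map_add' := fun x y => by simpa using up_add x.1 y.1 x.2 y.2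
      map_smul' := fun c x => by simpa using up_smul c x.1 x.2 }

@[simp] lemma upL_apply (p : E2 × ℝ) : upL p = up p.1 p.2 := rfl

lemma contDiff_up {n : WithTop ℕ∞} {u : E2 → ℝ} (hu : ContDiff ℝ n u) :
    ContDiff ℝ n (fun z => up z (u z)) :=
  upL.contDiff.comp (contDiff_id.prodMk hu)

lemma continuous_dn : Continuous dn := dnL.continuous

lemma continuous_ch (A : E3 ≃ᵃⁱ[ℝ] E3) : Continuous (ch A) := continuous_dn.comp A.continuous

lemma continuous_ht (A : E3 ≃ᵃⁱ[ℝ] E3) : Continuous (fun q => A q 2) := by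
  have h : Continuous fun q : E3 => q 2 := by fun_prop
  exact h.comp A.continuous

lemma isOpen_cyl (A : E3 ≃ᵃⁱ[ℝ] E3) (r : ℝ) : IsOpen (cyl A r) :=
  (isOpen_lt (continuous_ch A).norm continuous_const).inter
    (isOpen_lt (continuous_ht A).abs continuous_const)

@[simp] lemma ch_Fm (A : E3 ≃ᵃⁱ[ℝ] E3) (u : E2 → ℝ) (z : E2) : ch A (Fm A u z) = z := by
  simp [ch, Fm]

lemma A_Fm (A : E3 ≃ᵃⁱ[ℝ] E3) (u : E2 → ℝ) (z : E2) : A (Fm A u z) = up z (u z) := by
  simp [Fm]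

lemma Fm_injective (A : E3 ≃ᵃⁱ[ℝ] E3) (u : E2 → ℝ) : Function.Injective (Fm A u) := fun z w h => by
  simpa using congrArg (ch A) h

lemma continuous_Fm (A : E3 ≃ᵃⁱ[ℝ] E3) {u : E2 → ℝ} (hu : Continuous u) :
    Continuous (Fm A u) := by
  have h : Continuous fun z : E2 => up z (u z) := upL.continuous.comp (continuous_id.prodMk hu)
  exact A.symm.continuous.comp h

lemma dist_sq_Fm (A : E3 ≃ᵃⁱ[ℝ] E3) (u : E2 → ℝ) (z w : E2) :
    dist (Fm A u z) (Fm A u w) ^ 2 = dist z w ^ 2 + (u z - u w) ^ 2 := by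
  rw [Fm, Fm, A.symm.dist_map, dist_eq_norm, ← up_sub, norm_sq_up, dist_eq_norm]

lemma dist_le_dist_Fm (A : E3 ≃ᵃⁱ[ℝ] E3) (u : E2 → ℝ) (z w : E2) :
    dist z w ≤ dist (Fm A u z) (Fm A u w) := by
  have := dist_sq_Fm A u z w
  nlinarith [dist_nonneg (x := z) (y := w), dist_nonneg (x := Fm A u z) (y := Fm A u w),
    sq_nonneg (u z - u w)]

lemma dist_Fm_le (A : E3 ≃ᵃⁱ[ℝ] E3) (u : E2 → ℝ) (z w : E2) :
    dist (Fm A u z) (Fm A u w) ≤ dist z w + |u z - u w| := by
  rw [Fm, Fm, A.symm.dist_map, dist_eq_norm, ← up_sub, dist_eq_norm]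
  exact norm_up_le _ _

namespace IsPatch

variable {S : Set E3} {A : E3 ≃ᵃⁱ[ℝ] E3} {u : E2 → ℝ} {r : ℝ}

lemma mem_iff (h : IsPatch S A u r) {q : E3} (hq : q ∈ cyl A r) :
    q ∈ S ↔ A q 2 = u (ch A q) := by
  have := h.graph (ch A q) (A q 2) hq.1 hq.2
  rwa [ch, up_dn, A.symm_apply_apply] at this

lemma Fm_mem_cyl (h : IsPatch S A u r) {z : E2} (hz : ‖z‖ < r) : Fm A u z ∈ cyl A r := by
  refine ⟨by simpa using hz, ?_⟩
  rw [A_Fm, up_two]
  exact h.small z hz

lemma Fm_mem (h : IsPatch S A u r) {z : E2} (hz : ‖z‖ < r) : Fm A u z ∈ S := by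
  rw [h.mem_iff (h.Fm_mem_cyl hz), A_Fm, up_two, ch_Fm]

lemma Fm_ch (h : IsPatch S A u r) {q : E3} (hq : q ∈ cyl A r) (hS : q ∈ S) :
    Fm A u (ch A q) = q := by
  rw [Fm, ← (h.mem_iff hq).1 hS, ch, up_dn, A.symm_apply_apply]

lemma image (h : IsPatch S A u r) : Fm A u '' ball 0 r = S ∩ cyl A r := by
  ext q
  constructor
  · rintro ⟨z, hz, rfl⟩
    rw [mem_ball_zero_iff] at hz
    exact ⟨h.Fm_mem hz, h.Fm_mem_cyl hz⟩
  · rintro ⟨hS, hq⟩
    exact ⟨ch A q, mem_ball_zero_iff.2 hq.1, h.Fm_ch hq hS⟩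

end IsPatch

/-! ## Curves -/

variable {S : Set E3}

lemma Reach.nonneg {x y : E3} {L : ℝ} (h : Reach S x y L) : 0 ≤ L := h.1

lemma Reach.left_mem {x y : E3} {L : ℝ} (h : Reach S x y L) : x ∈ S := by
  obtain ⟨hL, γ, -, h0, -, hS⟩ := h
  exact h0 ▸ hS 0 ⟨le_rfl, hL⟩

lemma Reach.right_mem {x y : E3} {L : ℝ} (h : Reach S x y L) : y ∈ S := by
  obtain ⟨hL, γ, -, -, h1, hS⟩ := h
  exact h1 ▸ hS L ⟨hL, le_rfl⟩

lemma Reach.dist_le {x y : E3} {L : ℝ} (h : Reach S x y L) : dist x y ≤ L := by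
  obtain ⟨hL, γ, hγ, h0, h1, -⟩ := h
  have := hγ.dist_le_mul 0 ⟨le_rfl, hL⟩ L ⟨hL, le_rfl⟩
  rw [h0, h1, NNReal.coe_one, one_mul, dist_comm 0 L, Real.dist_eq, sub_zero, abs_of_nonneg hL]
    at this
  exact this

lemma Reach.refl {x : E3} (hx : x ∈ S) : Reach S x x 0 :=
  ⟨le_rfl, fun _ => x, (LipschitzWith.const x).lipschitzOnWith.weaken zero_le_one, rfl, rfl,
    fun _ _ => hx⟩

lemma Reach.mono {x y : E3} {L L' : ℝ} (h : Reach S x y L) (hL : L ≤ L') : Reach S x y L' := by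
  obtain ⟨h0, γ, hγ, hx, hy, hS⟩ := h
  refine ⟨h0.trans hL, fun t => γ (min t L), ?_, ?_, ?_, ?_⟩
  · have h1 : LipschitzOnWith 1 (fun t : ℝ => min t L) (Icc 0 L') :=
      ((LipschitzWith.id (α := ℝ)).min_const L).lipschitzOnWith
    have h2 := hγ.comp h1 (fun t ht => ⟨le_min ht.1 h0, min_le_right _ _⟩)
    rw [one_mul] at h2
    exact h2
  · simp [min_eq_left h0, hx]
  · simp [min_eq_right hL, hy]
  · intro t ht
    exact hS _ ⟨le_min ht.1 h0, min_le_right _ _⟩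

lemma Reach.symm {x y : E3} {L : ℝ} (h : Reach S x y L) : Reach S y x L := by
  obtain ⟨h0, γ, hγ, hx, hy, hS⟩ := h
  refine ⟨h0, fun t => γ (L - t), ?_, ?_, ?_, ?_⟩
  · have h1 : LipschitzOnWith 1 (fun t : ℝ => L - t) (Icc 0 L) := by
      refine LipschitzOnWith.of_dist_le_mul fun a _ b _ => ?_
      rw [Real.dist_eq, Real.dist_eq, NNReal.coe_one, one_mul, ← abs_neg]
      exact le_of_eq (congrArg _ (by ring))
    have h2 := hγ.comp h1 (fun t ht => ⟨by linarith [ht.2], by linarith [ht.1]⟩)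
    rw [one_mul] at h2
    exact h2
  · simp [hy]
  · simp [hx]
  · intro t ht
    exact hS _ ⟨by linarith [ht.2], by linarith [ht.1]⟩

lemma Reach.trans {x y z : E3} {L M : ℝ} (h : Reach S x y L) (h' : Reach S y z M) :
    Reach S x z (L + M) := by
  obtain ⟨h0, γ, hγ, hx, hy, hS⟩ := h
  obtain ⟨h0', δ, hδ, hx', hy', hS'⟩ := h'
  refine ⟨add_nonneg h0 h0', fun t => if t ≤ L then γ t else δ (t - L), ?_, ?_, ?_, ?_⟩
  · refine LipschitzOnWith.of_dist_le_mul fun a ha b hb => ?_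
    rw [NNReal.coe_one, one_mul]
    wlog hab : a ≤ b generalizing a b
    · rw [dist_comm, dist_comm a b]
      exact this b hb a ha (le_of_not_ge hab)
    have key1 : ∀ s t : ℝ, s ∈ Icc 0 L → t ∈ Icc 0 L → dist (γ s) (γ t) ≤ dist s t := fun s t hs ht => by
      simpa using hγ.dist_le_mul s hs t ht
    have key2 : ∀ s t : ℝ, s ∈ Icc 0 M → t ∈ Icc 0 M → dist (δ s) (δ t) ≤ dist s t := fun s t hs ht => by
      simpa using hδ.dist_le_mul s hs t ht
    by_cases h1 : b ≤ L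
    · have h2 : a ≤ L := hab.trans h1
      simp only [h1, h2, if_true]
      exact key1 a b ⟨ha.1, h2⟩ ⟨hb.1, h1⟩
    · push Not at h1
      by_cases h2 : a ≤ L
      · simp only [h2, if_true, not_le.2 h1, if_false]
        calc dist (γ a) (δ (b - L)) ≤ dist (γ a) (γ L) + dist (δ 0) (δ (b - L)) := by
              rw [hy, ← hx']; exact dist_triangle _ _ _
          _ ≤ dist a L + dist 0 (b - L) := by
              refine add_le_add (key1 a L ⟨ha.1, h2⟩ ⟨h0, le_rfl⟩)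
                (key2 0 (b - L) ⟨le_rfl, h0'⟩ ⟨by linarith, by linarith [hb.2]⟩)
          _ = dist a b := by
              rw [Real.dist_eq, Real.dist_eq, Real.dist_eq, abs_of_nonpos (by linarith),
                abs_of_nonpos (by linarith), abs_of_nonpos (by linarith)]
              ring
      · push Not at h2
        simp only [not_le.2 h1, not_le.2 h2, if_false]
        refine (key2 (a - L) (b - L) ⟨by linarith, by linarith [ha.2]⟩
          ⟨by linarith, by linarith [hb.2]⟩).trans (le_of_eq ?_)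
        rw [Real.dist_eq, Real.dist_eq]
        congr 1
        ring
  · simp [h0, hx]
  · by_cases hM : M = 0
    · subst hM
      simp only [add_zero, le_refl, if_true]
      rw [hy, ← hx', hy']
    · have : ¬ (L + M ≤ L) := by
        have : 0 < M := lt_of_le_of_ne h0' (Ne.symm hM)
        linarith
      simp only [this, if_false]
      rw [add_sub_cancel_left, hy']
  · intro t ht
    by_cases h1 : t ≤ L
    · simp only [h1, if_true]
      exact hS t ⟨ht.1, h1⟩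
    · simp only [h1, if_false]
      push Not at h1
      exact hS' _ ⟨by linarith, by linarith [ht.2]⟩

/-- Splitting a curve. -/
lemma Reach.split {x y : E3} {L s : ℝ} (h : Reach S x y L) (h0 : 0 ≤ s) (hs : s ≤ L) :
    ∃ m, Reach S x m s ∧ Reach S m y (L - s) := by
  obtain ⟨hL, γ, hγ, hx, hy, hS⟩ := h
  refine ⟨γ s, ⟨h0, γ, hγ.mono (Icc_subset_Icc_right hs), hx, rfl,
    fun t ht => hS t ⟨ht.1, ht.2.trans hs⟩⟩, sub_nonneg.2 hs, fun t => γ (s + t), ?_, by simp,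
    by simp [hy], fun t ht => hS _ ⟨by linarith [ht.1], by linarith [ht.2]⟩⟩
  have h1 : LipschitzOnWith 1 (fun t : ℝ => s + t) (Icc 0 (L - s)) := by
    refine LipschitzOnWith.of_dist_le_mul fun a _ b _ => ?_
    rw [Real.dist_eq, Real.dist_eq, NNReal.coe_one, one_mul]
    exact le_of_eq (congrArg _ (by ring))
  have h2 := hγ.comp h1 (fun t ht => ⟨by linarith [ht.1], by linarith [ht.2]⟩)
  rw [one_mul] at h2
  exact h2

/-! ## Curves in patches -/

namespace IsPatch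

variable {A : E3 ≃ᵃⁱ[ℝ] E3} {u : E2 → ℝ} {r : ℝ}

/-- Curves over segments: if `|Du| ≤ k` along the segment from `z` to `w`, then the point over `w` is
reached from the point over `z` in length `(1 + k) |z - w|`. -/
lemma reach (h : IsPatch S A u r) {z w : E2} (hz : ‖z‖ < r) (hw : ‖w‖ < r) {k : ℝ} (hk : 0 ≤ k)
    (hd : ∀ ζ ∈ segment ℝ z w, ‖fderiv ℝ u ζ‖ ≤ k) :
    Reach S (Fm A u z) (Fm A u w) ((1 + k) * dist z w) := by
  have hseg : ∀ t ∈ Icc (0 : ℝ) 1, z + t • (w - z) ∈ segment ℝ z w := fun t ht => by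
    rw [segment_eq_image']
    exact ⟨t, ht, rfl⟩
  have hball : ∀ ζ ∈ segment ℝ z w, ‖ζ‖ < r := fun ζ hζ => by
    have := (convex_ball (0 : E2) r).segment_subset (mem_ball_zero_iff.2 hz)
      (mem_ball_zero_iff.2 hw) hζ
    exact mem_ball_zero_iff.1 this
  rcases eq_or_ne z w with rfl | hne
  · rw [dist_self, mul_zero]
    exact Reach.refl (h.Fm_mem hz)
  have hd0 : 0 < dist z w := dist_pos.2 hne
  set L : ℝ := (1 + k) * dist z w with hL
  have hL0 : 0 < L := by positivity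
  refine ⟨hL0.le, fun t => Fm A u (z + (t / L) • (w - z)), ?_, by simp, ?_, ?_⟩
  · refine LipschitzOnWith.of_dist_le_mul fun a ha b hb => ?_
    rw [NNReal.coe_one, one_mul]
    have ha' : a / L ∈ Icc (0 : ℝ) 1 := ⟨div_nonneg ha.1 hL0.le, div_le_one_of_le₀ ha.2 hL0.le⟩
    have hb' : b / L ∈ Icc (0 : ℝ) 1 := ⟨div_nonneg hb.1 hL0.le, div_le_one_of_le₀ hb.2 hL0.le⟩
    have h1 : dist (z + (a / L) • (w - z)) (z + (b / L) • (w - z)) = dist a b / L * dist z w := by
      rw [dist_add_left, dist_eq_norm, ← sub_smul, norm_smul, ← sub_div, norm_div, Real.norm_eq_abs,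
        Real.norm_eq_abs, abs_of_pos hL0, Real.dist_eq, dist_comm z w, dist_eq_norm]
    have h2 : |u (z + (a / L) • (w - z)) - u (z + (b / L) • (w - z))| ≤
        k * dist (z + (a / L) • (w - z)) (z + (b / L) • (w - z)) := by
      have := (convex_segment (𝕜 := ℝ) z w).norm_image_sub_le_of_norm_fderiv_le
        (f := u) (C := k) (fun ζ _ => (h.smooth.differentiable (by norm_num)) ζ) hd
        (hseg _ hb') (hseg _ ha')
      rwa [Real.norm_eq_abs, ← dist_eq_norm] at this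
    calc dist (Fm A u (z + (a / L) • (w - z))) (Fm A u (z + (b / L) • (w - z)))
        ≤ (1 + k) * dist (z + (a / L) • (w - z)) (z + (b / L) • (w - z)) := by
          refine (dist_Fm_le A u _ _).trans ?_
          rw [add_mul, one_mul]
          exact add_le_add le_rfl h2
      _ = dist a b := by
          rw [h1]
          field_simp
          rw [hL]
          ring
  · simp [div_self hL0.ne']
  · intro t ht
    exact h.Fm_mem (hball _ (hseg _ ⟨div_nonneg ht.1 hL0.le, div_le_one_of_le₀ ht.2 hL0.le⟩))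

end IsPatch

/-- A patch centred at a given point of a minimal surface. -/
lemma MinimalSurface.exists_patch (hS : MinimalSurface S) {p : E3} (hp : p ∈ S) :
    ∃ (A : E3 ≃ᵃⁱ[ℝ] E3) (u : E2 → ℝ) (r : ℝ), IsPatch S A u r ∧ Fm A u 0 = p ∧ p ∈ cyl A r ∧
      fderiv ℝ u 0 = 0 := by
  obtain ⟨A, u, r, h, hA, hu, hd⟩ := hS p hp
  have h0 : Fm A u 0 = p := by
    have : up (0 : E2) 0 = 0 := by
      ext i
      fin_cases i <;> simp [up]
    rw [Fm, hu, this, ← hA, A.symm_apply_apply]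
  refine ⟨A, u, r, h, h0, ?_, hd⟩
  rw [← h0]
  exact h.Fm_mem_cyl (by simpa using h.pos)

/-- Locally the intrinsic distance to a point is at most `(1 + ε)` times the distance. -/
lemma MinimalSurface.reach_near (hS : MinimalSurface S) {p : E3} (hp : p ∈ S) {ε : ℝ} (hε : 0 < ε) :
    ∃ δ > 0, ∀ y ∈ S, dist y p < δ → Reach S p y ((1 + ε) * dist y p) := by
  obtain ⟨A, u, r, h, h0, hc, hd⟩ := hS.exists_patch hp
  have hcont : Continuous (fderiv ℝ u) := h.smooth.continuous_fderiv (by norm_num)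
  have h1 : ∀ᶠ z in 𝓝 (0 : E2), ‖fderiv ℝ u z‖ < ε :=
    (hcont.norm.tendsto 0).eventually (gt_mem_nhds (by simpa [hd] using hε))
  obtain ⟨ρ, hρ, hρ'⟩ := Metric.eventually_nhds_iff_ball.1 h1
  obtain ⟨δ, hδ, hδ'⟩ := Metric.isOpen_iff.1 (isOpen_cyl A r) p hc
  refine ⟨min δ ρ, lt_min hδ hρ, fun y hy hyp => ?_⟩
  have hyc : y ∈ cyl A r := hδ' (mem_ball.2 (hyp.trans_le (min_le_left _ _)))
  have hF : Fm A u (ch A y) = y := h.Fm_ch hyc hy
  have hdist : dist (0 : E2) (ch A y) ≤ dist y p := by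
    have := dist_le_dist_Fm A u 0 (ch A y)
    rwa [h0, hF, dist_comm p y] at this
  have key := h.reach (z := 0) (w := ch A y) (by simpa using h.pos) hyc.1 hε.le (fun ζ hζ => by
    refine (hρ' ζ ?_).le
    have h2 := (convex_ball (0 : E2) ρ).segment_subset (mem_ball_self hρ)
      (mem_ball.2 (by rw [dist_comm]; exact hdist.trans_lt (hyp.trans_le (min_le_right _ _)))) hζ
    exact h2)
  rw [h0, hF] at key
  exact key.mono (mul_le_mul_of_nonneg_left hdist (by linarith))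

/-- Near each point the intrinsic distance is at most twice the distance. -/
lemma MinimalSurface.reach_two (hS : MinimalSurface S) {p : E3} (hp : p ∈ S) :
    ∃ δ > 0, ∀ x ∈ S, ∀ y ∈ S, dist x p < δ → dist y p < δ → Reach S x y (2 * dist x y) := by
  obtain ⟨A, u, r, h, h0, hc, hd⟩ := hS.exists_patch hp
  have hcont : Continuous (fderiv ℝ u) := h.smooth.continuous_fderiv (by norm_num)
  have h1 : ∀ᶠ z in 𝓝 (0 : E2), ‖fderiv ℝ u z‖ < 1 :=
    (hcont.norm.tendsto 0).eventually (gt_mem_nhds (by simp [hd]))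
  obtain ⟨ρ, hρ, hρ'⟩ := Metric.eventually_nhds_iff_ball.1 h1
  obtain ⟨δ, hδ, hδ'⟩ := Metric.isOpen_iff.1 (isOpen_cyl A r) p hc
  refine ⟨min δ ρ, lt_min hδ hρ, fun x hx y hy hxp hyp => ?_⟩
  have aux : ∀ y ∈ S, dist y p < min δ ρ → y ∈ cyl A r ∧ Fm A u (ch A y) = y ∧ ch A y ∈ ball 0 ρ := by
    intro y hy hyp
    have hyc : y ∈ cyl A r := hδ' (mem_ball.2 (hyp.trans_le (min_le_left _ _)))
    have hF : Fm A u (ch A y) = y := h.Fm_ch hyc hy
    refine ⟨hyc, hF, ?_⟩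
    have := dist_le_dist_Fm A u 0 (ch A y)
    rw [h0, hF, dist_comm p y, dist_comm] at this
    exact mem_ball.2 (this.trans_lt (hyp.trans_le (min_le_right _ _)))
  obtain ⟨hxc, hxF, hxb⟩ := aux x hx hxp
  obtain ⟨hyc, hyF, hyb⟩ := aux y hy hyp
  have key := h.reach hxc.1 hyc.1 zero_le_one (fun ζ hζ =>
    (hρ' ζ ((convex_ball (0 : E2) ρ).segment_subset hxb hyb hζ)).le)
  rw [hxF, hyF] at key
  refine key.mono ?_
  have := dist_le_dist_Fm A u (ch A x) (ch A y)
  rw [hxF, hyF] at this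
  linarith

/-- Near each point the intrinsic distance is bounded by a multiple of the distance. -/
lemma MinimalSurface.reach_loc (hS : MinimalSurface S) {p : E3} (hp : p ∈ S) :
    ∃ δ > 0, ∃ C > 0, ∀ x ∈ S, ∀ y ∈ S, dist x p < δ → dist y p < δ → Reach S x y (C * dist x y) := by
  obtain ⟨δ, hδ, h⟩ := hS.reach_two hp
  exact ⟨δ, hδ, 2, two_pos, h⟩

/-- A minimal surface is locally closed. -/
lemma MinimalSurface.isClosed_near (hS : MinimalSurface S) {p : E3} (hp : p ∈ S) :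
    ∃ δ > 0, ∀ x, dist x p ≤ δ → x ∈ closure S → x ∈ S := by
  obtain ⟨A, u, r, h, h0, hc, hd⟩ := hS.exists_patch hp
  obtain ⟨δ, hδ, hδ'⟩ := Metric.isOpen_iff.1 (isOpen_cyl A r) p hc
  refine ⟨δ / 2, by positivity, fun x hx hxS => ?_⟩
  have hxc : x ∈ cyl A r := hδ' (mem_ball.2 (hx.trans_lt (by linarith)))
  rw [h.mem_iff hxc]
  have hcl : IsClosed {q : E3 | A q 2 = u (ch A q)} :=
    isClosed_eq (continuous_ht A) (h.smooth.continuous.comp (continuous_ch A))
  by_contra hne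
  have hopen : IsOpen (cyl A r ∩ {q : E3 | A q 2 = u (ch A q)}ᶜ) :=
    (isOpen_cyl A r).inter hcl.isOpen_compl
  obtain ⟨y, ⟨hyc, hy⟩, hyS⟩ := mem_closure_iff.1 hxS _ hopen ⟨hxc, hne⟩
  exact hy ((h.mem_iff hyc).1 hyS)

/-! ## Intrinsic balls and the intrinsic distance -/

/-- The open intrinsic ball. -/
def bl (S : Set E3) (p : E3) (t : ℝ) : Set E3 := {y | ∃ L < t, Reach S p y L}

/-- The intrinsic distance from `p` (for points which can be reached). -/
noncomputable def rad (S : Set E3) (p y : E3) : ℝ := sInf {L | Reach S p y L}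

lemma bddBelow_reach (S : Set E3) (p y : E3) : BddBelow {L | Reach S p y L} :=
  ⟨0, fun _ h => h.1⟩

lemma bl_subset (S : Set E3) (p : E3) (t : ℝ) : bl S p t ⊆ S := fun _ ⟨_, _, h⟩ => h.right_mem

lemma bl_mono {p : E3} {s t : ℝ} (h : s ≤ t) : bl S p s ⊆ bl S p t :=
  fun _ ⟨L, hL, hr⟩ => ⟨L, hL.trans_le h, hr⟩

lemma bl_subset_reach (S : Set E3) (p : E3) (t : ℝ) : bl S p t ⊆ {y | Reach S p y t} :=
  fun _ ⟨_, hL, h⟩ => h.mono hL.le

lemma bl_subset_ball (S : Set E3) (p : E3) (t : ℝ) : bl S p t ⊆ ball p t := fun y ⟨L, hL, h⟩ => by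
  rw [mem_ball, dist_comm]
  exact h.dist_le.trans_lt hL

lemma rad_nonneg (S : Set E3) (p y : E3) : 0 ≤ rad S p y := Real.sInf_nonneg fun _ h => h.1

lemma Reach.rad_le {p y : E3} {L : ℝ} (h : Reach S p y L) : rad S p y ≤ L :=
  csInf_le (bddBelow_reach S p y) h

lemma Reach.of_rad_lt {p y : E3} {L M : ℝ} (h : Reach S p y M) (hL : rad S p y < L) :
    Reach S p y L := by
  obtain ⟨K, hK, hKL⟩ := exists_lt_of_csInf_lt (s := {L | Reach S p y L}) ⟨M, h⟩ hL
  exact Reach.mono hK hKL.le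

lemma mem_bl_iff {p y : E3} {t : ℝ} : y ∈ bl S p t ↔ (∃ L, Reach S p y L) ∧ rad S p y < t := by
  constructor
  · rintro ⟨L, hL, h⟩
    exact ⟨⟨L, h⟩, h.rad_le.trans_lt hL⟩
  · rintro ⟨⟨L, h⟩, hr⟩
    obtain ⟨s, hs, hst⟩ := exists_between hr
    exact ⟨s, hst, h.of_rad_lt hs⟩

lemma Reach.dist_le_rad {p y : E3} {L : ℝ} (h : Reach S p y L) : dist p y ≤ rad S p y :=
  le_csInf ⟨L, h⟩ fun _ h' => Reach.dist_le h'

lemma Reach.rad_le_add {p y z : E3} {L M : ℝ} (h : Reach S p y L) (h' : Reach S y z M) :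
    rad S p z ≤ rad S p y + M := by
  refine le_of_forall_pos_le_add fun ε hε => ?_
  have h1 := h.of_rad_lt (L := rad S p y + ε) (by linarith)
  have := (h1.trans h').rad_le
  linarith

lemma Reach.abs_rad_sub_le {p y z : E3} {L M : ℝ} (h : Reach S p y L) (h' : Reach S y z M) :
    |rad S p y - rad S p z| ≤ M := by
  have h1 := h.rad_le_add h'
  have h2 := (h.trans h').rad_le_add h'.symm
  exact abs_le.2 ⟨by linarith, by linarith⟩

/-- Intrinsic balls are relatively open in the surface. -/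
lemma MinimalSurface.exists_isOpen_bl (hS : MinimalSurface S) (p : E3) (t : ℝ) :
    ∃ U, IsOpen U ∧ bl S p t = S ∩ U := by
  have key : ∀ y ∈ bl S p t, ∃ δ > 0, ∀ z ∈ S, dist z y < δ → z ∈ bl S p t := by
    rintro y ⟨L, hL, h⟩
    obtain ⟨δ, hδ, hr⟩ := hS.reach_near h.right_mem one_pos
    refine ⟨min δ ((t - L) / 2), lt_min hδ (by linarith), fun z hz hzy => ?_⟩
    refine ⟨_, ?_, h.trans (hr z hz (hzy.trans_le (min_le_left _ _)))⟩
    have := hzy.trans_le (min_le_right _ _)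
    linarith
  choose! δ hδ hδ' using key
  refine ⟨⋃ y ∈ bl S p t, ball y (δ y), isOpen_biUnion fun y _ => isOpen_ball, ?_⟩
  ext z
  simp only [mem_inter_iff, mem_iUnion, exists_prop]
  constructor
  · intro hz
    exact ⟨bl_subset S p t hz, z, hz, mem_ball_self (hδ z hz)⟩
  · rintro ⟨hz, y, hy, hzy⟩
    exact hδ' y hy z hz hzy

end Ca98
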