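import Mathlib

/-!
# Sign cocycles on simply connected spaces are trivial
-/

set_option autoImplicit false

namespace Ca98

open Set Filter Topology

/-- The bundle of signs of a locally constant cocycle. -/
noncomputable def covACore {X ι : Type*} [TopologicalSpace X] (U : ι → Set X)
    (hU : ∀ i, IsOpen (U i)) (hcov : ∀ x, ∃ i, x ∈ U i)
    (c : ι → ι → X → ℤˣ) (hc : ∀ i j, ∀ x ∈ U i ∩ U j, ∀ᶠ y in 𝓝 x, c i j y = c i j x)
    (hii : ∀ i, ∀ x ∈ U i, c i i x = 1)
    (hijk : ∀ i j k, ∀ x ∈ U i ∩ U j ∩ U k, c i j x * c j k x = c i k x) :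
    FiberBundleCore ι X ℤˣ where
  baseSet := U
  isOpen_baseSet := hU
  indexAt x := (hcov x).choose
  mem_baseSet_at x := (hcov x).choose_spec
  coordChange i j x v := c i j x * v
  coordChange_self i x hx v := by rw [hii i x hx, one_mul]
  continuousOn_coordChange i j := by
    rintro ⟨x, v⟩ ⟨hx, -⟩
    refine ContinuousAt.continuousWithinAt ?_
    have h1 : ContinuousAt (fun p : X × ℤˣ => c i j p.1) (x, v) := by
      have h2 : (fun p : X × ℤˣ => c i j p.1) =ᶠ[𝓝 (x, v)] fun _ => c i j x := by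
        have := (continuous_fst (X := X) (Y := ℤˣ)).tendsto (x, v)
        exact this.eventually (hc i j x hx)
      exact continuousAt_const.congr h2.symm
    exact h1.mul continuousAt_snd
  coordChange_comp i j k x hx v := by
    rw [← mul_assoc, mul_comm (c j k x), hijk i j k x hx]

/-- A locally constant sign cocycle on an open cover of a simply connected, locally path connected space is a coboundary. -/
theorem exists_trivialization {X ι : Type*} [TopologicalSpace X] [SimplyConnectedSpace X]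
    [LocallyPathConnectedSpace X] (U : ι → Set X) (hU : ∀ i, IsOpen (U i)) (hcov : ∀ x, ∃ i, x ∈ U i)
    (c : ι → ι → X → ℤˣ) (hc : ∀ i j, ∀ x ∈ U i ∩ U j, ∀ᶠ y in 𝓝 x, c i j y = c i j x)
    (hii : ∀ i, ∀ x ∈ U i, c i i x = 1)
    (hijk : ∀ i j k, ∀ x ∈ U i ∩ U j ∩ U k, c i j x * c j k x = c i k x) :
    ∃ ε : ι → X → ℤˣ, (∀ i, ∀ x ∈ U i, ∀ᶠ y in 𝓝 x, ε i y = ε i x) ∧
      ∀ i j, ∀ x ∈ U i ∩ U j, ε j x = c i j x * ε i x := by
  set Z := covACore U hU hcov c hc hii hijk with hZ
  have hcover : IsCoveringMap (Bundle.TotalSpace.proj : Bundle.TotalSpace ℤˣ Z.Fiber → X) :=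
    FiberBundle.isCoveringMap
  obtain ⟨x₀⟩ : Nonempty X := inferInstance
  obtain ⟨σ, ⟨-, hσ⟩, -⟩ := hcover.existsUnique_continuousMap_lifts (ContinuousMap.id X) x₀
    (⟨x₀, (1 : ℤˣ)⟩ : Bundle.TotalSpace ℤˣ Z.Fiber) rfl
  have hσ' : ∀ x, (σ x).proj = x := fun x => congrFun hσ x
  refine ⟨fun i x => (Z.localTriv i (σ x)).2, fun i x hx => ?_, fun i j x hx => ?_⟩
  · have hsrc : σ x ∈ (Z.localTriv i).source := by
      rw [Bundle.Trivialization.mem_source]
      change (σ x).proj ∈ U i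
      rw [hσ']
      exact hx
    have h1 : ContinuousAt (Z.localTriv i) (σ x) :=
      (Z.localTriv i).continuousOn_toFun.continuousAt ((Z.localTriv i).open_source.mem_nhds hsrc)
    have h2 : ContinuousAt (fun y => (Z.localTriv i (σ y)).2) x :=
      (h1.comp (f := σ) σ.continuous.continuousAt).snd
    exact h2.eventually (mem_nhds_discrete.2 rfl : {(Z.localTriv i (σ x)).2} ∈ 𝓝 _)
  · change Z.coordChange (Z.indexAt (σ x).proj) j (σ x).proj (σ x).2 =
      c i j x * Z.coordChange (Z.indexAt (σ x).proj) i (σ x).proj (σ x).2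
    have h1 : (σ x).proj ∈ Z.baseSet (Z.indexAt (σ x).proj) ∩ Z.baseSet i ∩ Z.baseSet j := by
      refine ⟨⟨Z.mem_baseSet_at _, ?_⟩, ?_⟩
      · rw [hσ']
        exact hx.1
      · rw [hσ']
        exact hx.2
    rw [← Z.coordChange_comp (Z.indexAt (σ x).proj) i j (σ x).proj h1 (σ x).2]
    change c i j (σ x).proj * _ = _
    rw [hσ']

end Ca98
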