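import Pool.Agent.W_ca8607_h98.Normal

/-!
# The sides of a surface near a point
-/

set_option autoImplicit false

namespace Ca98

open Set Metric Filter Topology
open scoped RealInnerProductSpace

variable {S X : Set E3}

lemma sides_hasFDerivAt (B : E3 ≃ᵃⁱ[ℝ] E3) {v : E2 → ℝ} (hv : ContDiff ℝ 2 v) (q : E3) :
    HasFDerivAt (fun q => B q 2 - v (ch B q))
      (jac v (ch B q) • innerSL ℝ (B.symm.linearIsometryEquiv (Nu v (ch B q)))) q := by
  have hdn : HasFDerivAt (fun q : E3 => ch B q)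
      (dnL.comp (B.linearIsometryEquiv.toContinuousLinearEquiv : E3 →L[ℝ] E3)) q :=
    dnL.hasFDerivAt.comp q (normalA_hasFDerivAt B q)
  have hv' : HasFDerivAt v (fderiv ℝ v (ch B q)) (ch B q) :=
    (hv.differentiable (by norm_num) _).hasFDerivAt
  have h2 : HasFDerivAt (fun q : E3 => B q 2)
      ((EuclideanSpace.proj 2 : E3 →L[ℝ] ℝ).comp
        (B.linearIsometryEquiv.toContinuousLinearEquiv : E3 →L[ℝ] E3)) q :=
    (EuclideanSpace.proj 2 : E3 →L[ℝ] ℝ).hasFDerivAt.comp q (normalA_hasFDerivAt B q)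
  refine (h2.fun_sub (hv'.comp q hdn)).congr_fderiv ?_
  ext y
  set n : E3 := B.linearIsometryEquiv y with hn
  have hy : y = B.symm.linearIsometryEquiv n := (normalA_symm' B y).symm
  have h3 : ⟪B.symm.linearIsometryEquiv (Nu v (ch B q)), y⟫ = ⟪Nu v (ch B q), n⟫ := by
    rw [hy, LinearIsometryEquiv.inner_map_map]
  have h4 : ⟪Nu v (ch B q), n⟫ = (1 / jac v (ch B q)) *
      (-pd v 0 (ch B q) * n 0 + -pd v 1 (ch B q) * n 1 + n 2) := by
    simp [PiLp.inner_apply, Fin.sum_univ_three, Nu]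
    ring
  have hW := (jac_pos v (ch B q)).ne'
  change B.linearIsometryEquiv y 2 - fderiv ℝ v (ch B q) (dn (B.linearIsometryEquiv y)) =
    jac v (ch B q) * ⟪B.symm.linearIsometryEquiv (Nu v (ch B q)), y⟫
  rw [h3, h4, ← hn, normalA_fderiv, dn_zero, dn_one]
  field_simp
  ring

/-- The difference of a point and its projection to the surface. -/
lemma sides_sub (A : E3 ≃ᵃⁱ[ℝ] E3) (u : E2 → ℝ) (q : E3) :
    q - Fm A u (ch A q) = (A q 2 - u (ch A q)) • A.symm.linearIsometryEquiv (up 0 1) := by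
  have h1 : q = A.symm (up (ch A q) (A q 2)) := by
    rw [ch, up_dn, A.symm_apply_apply]
  have h2 : ∀ z : E2, ∀ a b : ℝ, A.symm (up z a) - A.symm (up z b) =
      (a - b) • A.symm.linearIsometryEquiv (up 0 1) := fun z a b => by
    rw [normalA_apply A.symm (up z a), normalA_apply A.symm (up z b), add_sub_add_right_eq_sub,
      ← map_sub, ← up_sub, sub_self, ← map_smul, ← up_smul, smul_zero, mul_one]
  have h3 := h2 (ch A q) (A q 2) (u (ch A q))
  rw [← h1] at h3
  exact h3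

/-- Two local side functions have the same or the opposite sign near a common point of the surface. -/
theorem sides_near {A B : E3 ≃ᵃⁱ[ℝ] E3} {u v : E2 → ℝ} {r s : ℝ} (h : IsPatch S A u r)
    (h' : IsPatch S B v s) {q₀ : E3} (hA : q₀ ∈ cyl A r) (hB : q₀ ∈ cyl B s) (hq : q₀ ∈ S) :
    ((∀ᶠ q in 𝓝 q₀, 0 ≤ (A q 2 - u (ch A q)) * (B q 2 - v (ch B q))) ∧
      B.symm.linearIsometryEquiv (Nu v (ch B q₀)) = A.symm.linearIsometryEquiv (Nu u (ch A q₀))) ∨
    ((∀ᶠ q in 𝓝 q₀, (A q 2 - u (ch A q)) * (B q 2 - v (ch B q)) ≤ 0) ∧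
      B.symm.linearIsometryEquiv (Nu v (ch B q₀)) = - A.symm.linearIsometryEquiv (Nu u (ch A q₀))) := by
  set e : E3 := A.symm.linearIsometryEquiv (up 0 1) with he
  set E : E3 → ℝ := fun q => jac v (ch B q) * ⟪B.symm.linearIsometryEquiv (Nu v (ch B q)), e⟫ with hE
  have hEc : Continuous E := by
    have h1 := (continuous_jac (h'.smooth.of_le (by norm_num : (1 : WithTop ℕ∞) ≤ 2))).comp
      (continuous_ch B)
    have h2 := (normal_continuous_Nu h'.smooth).comp (continuous_ch B)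
    exact h1.mul ((B.symm.linearIsometryEquiv.continuous.comp h2).inner continuous_const)
  -- the mean value theorem
  have hmvt : ∀ U : Set E3, Convex ℝ U → IsOpen U → q₀ ∈ U → U ⊆ cyl B s → ∀ᶠ q in 𝓝 q₀,
      ∃ ξ ∈ U, B q 2 - v (ch B q) = (A q 2 - u (ch A q)) * E ξ := by
    intro U hUc hUo hqU hUB
    have hproj : Tendsto (fun q => Fm A u (ch A q)) (𝓝 q₀) (𝓝 q₀) := by
      have hc : Continuous (fun q => Fm A u (ch A q)) :=
        (continuous_Fm A h.smooth.continuous).comp (continuous_ch A)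
      have := hc.tendsto q₀
      rwa [h.Fm_ch hA hq] at this
    filter_upwards [hUo.mem_nhds hqU, hproj.eventually (hUo.mem_nhds hqU),
      (isOpen_cyl A r).mem_nhds hA] with q h1 h2 h3
    obtain ⟨ξ, hξ, hval⟩ := domain_mvt (s := U)
      (fun x _ => (sides_hasFDerivAt B h'.smooth x).hasFDerivWithinAt) hUc h2 h1
    refine ⟨ξ, hUc.segment_subset h2 h1 hξ, ?_⟩
    have h4 : B (Fm A u (ch A q)) 2 - v (ch B (Fm A u (ch A q))) = 0 := by
      rw [sub_eq_zero]
      exact (h'.mem_iff (hUB h2)).1 (h.Fm_mem h3.1)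
    rw [h4, sub_zero, sides_sub] at hval
    rw [hval]
    simp only [_root_.smul_apply, innerSL_apply_apply, smul_eq_mul, inner_smul_right]
    rw [hE]
    ring
  have hnormal : IsNormal S q₀ (B.symm.linearIsometryEquiv (Nu v (ch B q₀))) := by
    have h1 := (isNormal_iff h' (z := ch B q₀) hB.1
      (ν := B.symm.linearIsometryEquiv (Nu v (ch B q₀)))).2 (Or.inl rfl)
    rwa [h'.Fm_ch hB hq] at h1
  have hE0 : ⟪A.symm.linearIsometryEquiv (Nu u (ch A q₀)), e⟫ = 1 / jac u (ch A q₀) := by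
    rw [he, LinearIsometryEquiv.inner_map_map, normalA_inner_up]
    simp [Nu]
  have hpos : 0 < 1 / jac u (ch A q₀) := one_div_pos.2 (jac_pos _ _)
  have hposB := jac_pos v (ch B q₀)
  have hcases : B.symm.linearIsometryEquiv (Nu v (ch B q₀)) = A.symm.linearIsometryEquiv (Nu u (ch A q₀)) ∨
      B.symm.linearIsometryEquiv (Nu v (ch B q₀)) = - A.symm.linearIsometryEquiv (Nu u (ch A q₀)) := by
    have h1 := isNormal_iff h (z := ch A q₀) hA.1
      (ν := B.symm.linearIsometryEquiv (Nu v (ch B q₀)))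
    rw [h.Fm_ch hA hq] at h1
    exact h1.1 hnormal
  rcases hcases with hc | hc
  · left
    refine ⟨?_, hc⟩
    have hEq : 0 < E q₀ := by
      rw [hE]
      simp only
      rw [hc, hE0]
      positivity
    obtain ⟨δ, hδ, hδ'⟩ := Metric.isOpen_iff.1
      ((isOpen_cyl B s).inter (isOpen_lt continuous_const hEc)) q₀ ⟨hB, hEq⟩
    filter_upwards [hmvt (ball q₀ δ) (convex_ball _ _) isOpen_ball (mem_ball_self hδ)
      (fun x hx => (hδ' hx).1)] with q ⟨ξ, hξ, hval⟩
    rw [hval]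
    have h1 : 0 < E ξ := (hδ' hξ).2
    nlinarith [mul_nonneg (sq_nonneg (A q 2 - u (ch A q))) h1.le]
  · right
    refine ⟨?_, hc⟩
    have hEq : E q₀ < 0 := by
      rw [hE]
      simp only
      rw [hc, inner_neg_left, hE0]
      have := mul_pos hposB hpos
      linarith
    obtain ⟨δ, hδ, hδ'⟩ := Metric.isOpen_iff.1
      ((isOpen_cyl B s).inter (isOpen_lt hEc continuous_const)) q₀ ⟨hB, hEq⟩
    filter_upwards [hmvt (ball q₀ δ) (convex_ball _ _) isOpen_ball (mem_ball_self hδ)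
      (fun x hx => (hδ' hx).1)] with q ⟨ξ, hξ, hval⟩
    rw [hval]
    have h1 : E ξ < 0 := (hδ' hξ).2
    nlinarith [mul_nonneg (sq_nonneg (A q 2 - u (ch A q))) (neg_pos.2 h1).le]

end Ca98
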