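import Pool.Agent.W_ca8607_h98.Normal
import Pool.Agent.W_ca8607_h98.Sides

/-!
# The local sides of a closed surface
-/

set_option autoImplicit false

namespace Ca98

open Set Metric Filter Topology
open scoped RealInnerProductSpace

variable {S X : Set E3}

/-- A minimal surface has no interior. -/
lemma covB_frequently (hS : MinimalSurface S) (q : E3) : ∃ᶠ q' in 𝓝 q, q' ∉ S := by
  intro hcon
  simp only [not_not] at hcon
  have hq : q ∈ S := hcon.self_of_nhds
  obtain ⟨A, u, r, h, h0, hc, -⟩ := hS.exists_patch hq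
  have hcurve : Continuous (fun k : ℝ => A.symm (up (0 : E2) (u 0 + k))) := by
    refine A.symm.continuous.comp ?_
    have : (fun k : ℝ => up (0 : E2) (u 0 + k)) = fun k => upL ((0 : E2), u 0 + k) := rfl
    rw [this]
    exact upL.continuous.comp (by fun_prop)
  have h1 : Tendsto (fun k : ℝ => A.symm (up (0 : E2) (u 0 + k))) (𝓝 0) (𝓝 q) := by
    have := hcurve.tendsto 0
    simp only [add_zero] at this
    rwa [show A.symm (up (0 : E2) (u 0)) = q from h0] at this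
  have h2 := (h1.eventually (hcon.and ((isOpen_cyl A r).mem_nhds hc)))
  have h3 : ∀ᶠ k in 𝓝[>] (0 : ℝ), A.symm (up (0 : E2) (u 0 + k)) ∈ S ∧
      A.symm (up (0 : E2) (u 0 + k)) ∈ cyl A r := nhdsWithin_le_nhds h2
  have h5 : ∀ᶠ k in 𝓝[>] (0 : ℝ), k ∈ Ioi (0 : ℝ) := self_mem_nhdsWithin
  obtain ⟨k, ⟨hk1, hk2⟩, hk⟩ := (h3.and h5).exists
  have h4 := (h.mem_iff hk2).1 hk1
  rw [A.apply_symm_apply, up_two, ch, A.apply_symm_apply, dn_up] at h4
  have : (0 : ℝ) < k := hk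
  linarith

lemma covB_sign {a b d : ℝ} {c1 c2 c3 : ℤˣ} (h1 : 0 < ((c1 : ℤ) : ℝ) * (a * b))
    (h2 : 0 < ((c2 : ℤ) : ℝ) * (b * d)) (h3 : 0 < ((c3 : ℤ) : ℝ) * (a * d)) : c1 * c2 = c3 := by
  have h := mul_pos (mul_pos h1 h2) h3
  have h4 : ((c1 : ℤ) : ℝ) * (a * b) * (((c2 : ℤ) : ℝ) * (b * d)) * (((c3 : ℤ) : ℝ) * (a * d)) =
      (((c1 * c2 * c3 : ℤˣ) : ℤ) : ℝ) * (a * b * d) ^ 2 := by
    push_cast
    ring
  rw [h4] at h
  rcases Int.units_eq_one_or (c1 * c2 * c3) with e | e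
  · calc c1 * c2 = c1 * c2 * (c3 * c3) := by rw [Int.units_mul_self, mul_one]
      _ = (c1 * c2 * c3) * c3 := by rw [mul_assoc (c1 * c2)]
      _ = c3 := by rw [e, one_mul]
  · rw [e] at h
    push_cast at h
    nlinarith [sq_nonneg (a * b * d)]

/-- The cover, the local unit normals and the sign cocycle of a surface closed in an open set. -/
theorem exists_sides (hX : IsOpen X) (hS : MinimalSurface S) (hcl : ClosedIn S X) :
    ∃ (U : E3 → Set E3) (N : E3 → E3 → E3) (c : E3 → E3 → E3 → ℤˣ),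
      (∀ x, IsOpen (U x)) ∧ (∀ x, U x ⊆ X) ∧ (∀ x ∈ X, x ∈ U x) ∧
      (∀ x, ContinuousOn (N x) (U x ∩ S)) ∧ (∀ x, ∀ q ∈ U x ∩ S, IsNormal S q (N x q)) ∧
      (∀ x y, ∀ q ∈ U x ∩ U y, ∀ᶠ q' in 𝓝 q, c x y q' = c x y q) ∧
      (∀ x, ∀ q ∈ U x, c x x q = 1) ∧
      (∀ x y z, ∀ q ∈ U x ∩ U y ∩ U z, c x y q * c y z q = c x z q) ∧
      (∀ x y, ∀ q ∈ U x ∩ U y ∩ S, N y q = ((c x y q : ℤ) : ℝ) • N x q) := by
  classical
  have key : ∀ p ∈ S, ∃ (A : E3 ≃ᵃⁱ[ℝ] E3) (u : E2 → ℝ) (r : ℝ), IsPatch S A u r ∧ p ∈ cyl A r := by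
    intro p hp
    obtain ⟨A, u, r, h, -, hc, -⟩ := hS.exists_patch hp
    exact ⟨A, u, r, h, hc⟩
  choose! A u r hpatch hmem using key
  set U : E3 → Set E3 := fun x => if x ∈ S then cyl (A x) (r x) ∩ X else X \ closure S with hUdef
  set f : E3 → E3 → ℝ := fun x q => if x ∈ S then A x q 2 - u x (ch (A x) q) else 1 with hfdef
  set N : E3 → E3 → E3 := fun x q =>
    if x ∈ S then (A x).symm.linearIsometryEquiv (Nu (u x) (ch (A x) q)) else 0 with hNdef
  set c : E3 → E3 → E3 → ℤˣ := fun x y q => if (∀ᶠ q' in 𝓝 q, 0 ≤ f x q' * f y q') then 1 else -1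
    with hcdef
  have hU1 : ∀ x ∈ S, U x = cyl (A x) (r x) ∩ X := fun x hx => if_pos hx
  have hU0 : ∀ x, x ∉ S → U x = X \ closure S := fun x hx => if_neg hx
  have hf1 : ∀ x ∈ S, ∀ q, f x q = A x q 2 - u x (ch (A x) q) := fun x hx q => if_pos hx
  have hf0 : ∀ x, x ∉ S → ∀ q, f x q = 1 := fun x hx q => if_neg hx
  have hN1 : ∀ x ∈ S, ∀ q, N x q = (A x).symm.linearIsometryEquiv (Nu (u x) (ch (A x) q)) :=
    fun x hx q => if_pos hx
  have hUopen : ∀ x, IsOpen (U x) := fun x => by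
    by_cases hx : x ∈ S
    · rw [hU1 x hx]
      exact (isOpen_cyl _ _).inter hX
    · rw [hU0 x hx]
      exact hX.sdiff isClosed_closure
  have hUX : ∀ x, U x ⊆ X := fun x => by
    by_cases hx : x ∈ S
    · rw [hU1 x hx]
      exact inter_subset_right
    · rw [hU0 x hx]
      exact sdiff_subset
  have hUS : ∀ x q, q ∈ U x → q ∈ S → x ∈ S := fun x q hq hqS => by
    by_contra hx
    rw [hU0 x hx] at hq
    exact hq.2 (subset_closure hqS)
  have hcyl : ∀ x ∈ S, ∀ q ∈ U x, q ∈ cyl (A x) (r x) := fun x hx q hq => by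
    rw [hU1 x hx] at hq
    exact hq.1
  have hfS : ∀ x, ∀ q ∈ U x, (f x q = 0 ↔ q ∈ S) := fun x q hq => by
    by_cases hx : x ∈ S
    · rw [hf1 x hx, sub_eq_zero]
      exact ((hpatch x hx).mem_iff (hcyl x hx q hq)).symm
    · rw [hf0 x hx]
      refine ⟨fun h => absurd h one_ne_zero, fun h => absurd (hUS x q hq h) hx⟩
  have hfc : ∀ x, Continuous (f x) := fun x => by
    by_cases hx : x ∈ S
    · have : f x = fun q => A x q 2 - u x (ch (A x) q) := funext (hf1 x hx)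
      rw [this]
      exact (continuous_ht (A x)).sub ((hpatch x hx).smooth.continuous.comp (continuous_ch (A x)))
    · have : f x = fun _ => 1 := funext (hf0 x hx)
      rw [this]
      exact continuous_const
  -- the dichotomy
  have hside : ∀ x y, ∀ q ∈ U x ∩ U y, q ∈ S →
      ((∀ᶠ q' in 𝓝 q, 0 ≤ f x q' * f y q') ∧ N y q = N x q) ∨
      ((∀ᶠ q' in 𝓝 q, f x q' * f y q' ≤ 0) ∧ N y q = - N x q) := fun x y q hq hqS => by
    have hx := hUS x q hq.1 hqS
    have hy := hUS y q hq.2 hqS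
    have := sides_near (hpatch x hx) (hpatch y hy) (hcyl x hx q hq.1) (hcyl y hy q hq.2) hqS
    simp only [hf1 x hx, hf1 y hy, hN1 x hx, hN1 y hy]
    exact this
  have hdich : ∀ x y, ∀ q ∈ U x ∩ U y,
      (∀ᶠ q' in 𝓝 q, 0 ≤ f x q' * f y q') ∨ (∀ᶠ q' in 𝓝 q, f x q' * f y q' ≤ 0) := fun x y q hq => by
    by_cases hqS : q ∈ S
    · rcases hside x y q hq hqS with h | h
      · exact Or.inl h.1
      · exact Or.inr h.1
    · have h1 : f x q ≠ 0 := fun h => hqS ((hfS x q hq.1).1 h)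
      have h2 : f y q ≠ 0 := fun h => hqS ((hfS y q hq.2).1 h)
      have hcont : ContinuousAt (fun q' => f x q' * f y q') q :=
        ((hfc x).mul (hfc y)).continuousAt
      rcases lt_or_gt_of_ne (mul_ne_zero h1 h2) with h | h
      · exact Or.inr ((hcont.eventually (gt_mem_nhds h)).mono fun _ h => le_of_lt h)
      · exact Or.inl ((hcont.eventually (lt_mem_nhds h)).mono fun _ h => le_of_lt h)
  have hnot : ∀ x y, ∀ q ∈ U x ∩ U y, (∀ᶠ q' in 𝓝 q, f x q' * f y q' ≤ 0) →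
      ¬ (∀ᶠ q' in 𝓝 q, 0 ≤ f x q' * f y q') := fun x y q hq h1 h2 => by
    obtain ⟨q', hq', h3, h4, h5⟩ := ((covB_frequently hS q).and_eventually
      (h1.and (h2.and (((hUopen x).inter (hUopen y)).mem_nhds hq)))).exists
    have h6 : f x q' * f y q' = 0 := le_antisymm h3 h4
    rcases mul_eq_zero.1 h6 with h | h
    · exact hq' ((hfS x q' h5.1).1 h)
    · exact hq' ((hfS y q' h5.2).1 h)
  have hc1 : ∀ x y q, (∀ᶠ q' in 𝓝 q, 0 ≤ f x q' * f y q') → c x y q = 1 := fun x y q h => if_pos h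
  have hc2 : ∀ x y, ∀ q ∈ U x ∩ U y, (∀ᶠ q' in 𝓝 q, f x q' * f y q' ≤ 0) → c x y q = -1 :=
    fun x y q hq h => if_neg (hnot x y q hq h)
  -- the value of the cocycle at nearby points off the surface
  have hval : ∀ x y, ∀ q ∈ U x ∩ U y, ∀ᶠ q' in 𝓝 q, q' ∉ S →
      0 < ((c x y q : ℤ) : ℝ) * (f x q' * f y q') := fun x y q hq => by
    rcases hdich x y q hq with h | h
    · filter_upwards [h, ((hUopen x).inter (hUopen y)).mem_nhds hq] with q' h1 h2 h3
      rw [hc1 x y q h]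
      have h4 : f x q' * f y q' ≠ 0 := mul_ne_zero (fun h => h3 ((hfS x q' h2.1).1 h))
        (fun h => h3 ((hfS y q' h2.2).1 h))
      have := lt_of_le_of_ne h1 h4.symm
      simpa using this
    · filter_upwards [h, ((hUopen x).inter (hUopen y)).mem_nhds hq] with q' h1 h2 h3
      rw [hc2 x y q hq h]
      have h4 : f x q' * f y q' ≠ 0 := mul_ne_zero (fun h => h3 ((hfS x q' h2.1).1 h))
        (fun h => h3 ((hfS y q' h2.2).1 h))
      have := lt_of_le_of_ne h1 h4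
      simpa using this
  refine ⟨U, N, c, hUopen, hUX, ?_, ?_, ?_, ?_, ?_, ?_, ?_⟩
  · intro x hx
    by_cases hxS : x ∈ S
    · rw [hU1 x hxS]
      exact ⟨hmem x hxS, hx⟩
    · rw [hU0 x hxS]
      exact ⟨hx, fun h => hxS (hcl.2 ⟨h, hx⟩)⟩
  · intro x
    by_cases hx : x ∈ S
    · have : N x = fun q => (A x).symm.linearIsometryEquiv (Nu (u x) (ch (A x) q)) :=
        funext (hN1 x hx)
      rw [this]
      exact ((A x).symm.linearIsometryEquiv.continuous.comp
        ((normal_continuous_Nu (hpatch x hx).smooth).comp (continuous_ch (A x)))).continuousOn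
    · rintro q ⟨hq, hqS⟩
      exact absurd (hUS x q hq hqS) hx
  · rintro x q ⟨hq, hqS⟩
    have hx := hUS x q hq hqS
    have hqc := hcyl x hx q hq
    have h1 := (isNormal_iff (hpatch x hx) (z := ch (A x) q) hqc.1
      (ν := (A x).symm.linearIsometryEquiv (Nu (u x) (ch (A x) q)))).2 (Or.inl rfl)
    rw [(hpatch x hx).Fm_ch hqc hqS] at h1
    rw [hN1 x hx]
    exact h1
  · intro x y q hq
    rcases hdich x y q hq with h | h
    · filter_upwards [eventually_eventually_nhds.2 h] with q' h'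
      rw [hc1 x y q h, hc1 x y q' h']
    · filter_upwards [eventually_eventually_nhds.2 h,
        ((hUopen x).inter (hUopen y)).mem_nhds hq] with q' h' hq'
      rw [hc2 x y q hq h, hc2 x y q' hq' h']
  · intro x q _
    exact hc1 x x q (Eventually.of_forall fun q' => mul_self_nonneg _)
  · rintro x y z q ⟨⟨hx, hy⟩, hz⟩
    obtain ⟨q', hq', h1, h2, h3⟩ := ((covB_frequently hS q).and_eventually
      ((hval x y q ⟨hx, hy⟩).and ((hval y z q ⟨hy, hz⟩).and (hval x z q ⟨hx, hz⟩)))).exists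
    exact covB_sign (h1 hq') (h2 hq') (h3 hq')
  · rintro x y q ⟨hq, hqS⟩
    rcases hside x y q hq hqS with ⟨h, hn⟩ | ⟨h, hn⟩
    · rw [hc1 x y q h, hn]
      simp
    · rw [hc2 x y q hq h, hn]
      simp

end Ca98
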