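import Pool.Agent.W_ca8607_h98.CovA
import Pool.Agent.W_ca8607_h98.CovB

/-!
# Closed surfaces in simply connected open sets are two-sided
-/

set_option autoImplicit false

namespace Ca98

open Set Metric Filter Topology
open scoped RealInnerProductSpace

variable {S X : Set E3}

lemma cover_sq (c : ℤˣ) : ((c : ℤ) : ℝ) * ((c : ℤ) : ℝ) = 1 := by
  rcases Int.units_eq_one_or c with h | h <;> rw [h] <;> norm_num

lemma cover_isNormal {x ν : E3} (h : IsNormal S x ν) (c : ℤˣ) : IsNormal S x (((c : ℤ) : ℝ) • ν) := by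
  refine ⟨?_, fun v hv => ?_⟩
  · rw [norm_smul, h.1, mul_one]
    rcases Int.units_eq_one_or c with h | h <;> rw [h] <;> norm_num
  · rw [real_inner_smul_left, h.2 v hv, mul_zero]

/-- Closed minimal surfaces in simply connected open sets have a continuous unit normal field. -/
theorem orientable_of_closedIn (hX : IsOpen X) (hsc : SimplyConnectedSpace X)
    (hS : MinimalSurface S) (hcl : ClosedIn S X) : Orientable S := by
  obtain ⟨U, N, c, hU, hUX, hUx, hNc, hNn, hcc, hcself, hccoc, hcN⟩ := exists_sides hX hS hcl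
  have : LocallyPathConnectedSpace X := hX.locallyPathConnectedSpace
  have hnhds : ∀ (x : X) {P : E3 → Prop}, (∀ᶠ y in 𝓝 (x : E3), P y) → ∀ᶠ y : X in 𝓝 x, P y :=
    fun x P h => (continuous_subtype_val.tendsto x).eventually h
  obtain ⟨ε, hε, hεc⟩ := exists_trivialization (X := X) (ι := E3) (fun x => Subtype.val ⁻¹' U x)
    (fun x => (hU x).preimage continuous_subtype_val) (fun x => ⟨x, hUx x x.2⟩)
    (fun x y q => c x y q) (fun x y q hq => hnhds q (hcc x y q hq)) (fun x q hq => hcself x q hq)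
    (fun x y z q hq => hccoc x y z q hq)
  -- signs on the whole space
  classical
  set e : E3 → E3 → ℤˣ := fun x q => if h : q ∈ X then ε x ⟨q, h⟩ else 1 with he
  have heq : ∀ x q (h : q ∈ X), e x q = ε x ⟨q, h⟩ := fun x q h => dif_pos h
  have he1 : ∀ x, ∀ q ∈ U x, ∀ᶠ q' in 𝓝 q, e x q' = e x q := fun x q hq => by
    have hqX : q ∈ X := hUX x hq
    have h1 := hε x ⟨q, hqX⟩ hq
    rw [nhds_subtype_eq_comap, eventually_comap] at h1
    filter_upwards [h1, hX.mem_nhds hqX] with q' h2 hq'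
    rw [heq x q' hq', heq x q hqX]
    exact h2 ⟨q', hq'⟩ rfl
  have he2 : ∀ x y, ∀ q ∈ U x ∩ U y, e y q = c x y q * e x q := fun x y q hq => by
    have hqX : q ∈ X := hUX x hq.1
    rw [heq x q hqX, heq y q hqX]
    exact hεc x y ⟨q, hqX⟩ hq
  refine ⟨fun q => ((e q q : ℤ) : ℝ) • N q q, ?_, fun p hp => ?_⟩
  · intro q₀ hq₀
    have hq₀U : q₀ ∈ U q₀ := hUx q₀ (hcl.1 hq₀)
    have hcont : ContinuousWithinAt (fun q => ((e q₀ q₀ : ℤ) : ℝ) • N q₀ q) (U q₀ ∩ S) q₀ :=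
      Tendsto.const_smul (hNc q₀ q₀ ⟨hq₀U, hq₀⟩) _
    have hev : ∀ᶠ q in 𝓝[S] q₀, ((e q q : ℤ) : ℝ) • N q q = ((e q₀ q₀ : ℤ) : ℝ) • N q₀ q := by
      filter_upwards [nhdsWithin_le_nhds (he1 q₀ q₀ hq₀U),
        nhdsWithin_le_nhds ((hU q₀).mem_nhds hq₀U), self_mem_nhdsWithin] with q h1 h2 h3
      have hqU : q ∈ U q := hUx q (hcl.1 h3)
      rw [hcN q₀ q q ⟨⟨h2, hqU⟩, h3⟩, he2 q₀ q q ⟨h2, hqU⟩, h1, smul_smul]
      congr 1
      push_cast
      have := cover_sq (c q₀ q q)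
      calc ((c q₀ q q : ℤ) : ℝ) * ((e q₀ q₀ : ℤ) : ℝ) * ((c q₀ q q : ℤ) : ℝ)
          = (((c q₀ q q : ℤ) : ℝ) * ((c q₀ q q : ℤ) : ℝ)) * ((e q₀ q₀ : ℤ) : ℝ) := by ring
        _ = _ := by rw [this, one_mul]
    refine (ContinuousWithinAt.congr_of_eventuallyEq ?_ hev ?_)
    · refine hcont.mono_of_mem_nhdsWithin ?_
      rw [inter_comm]
      exact inter_mem_nhdsWithin S ((hU q₀).mem_nhds hq₀U)
    · rfl
  · exact cover_isNormal (hNn p p ⟨hUx p (hcl.1 hp), hp⟩) _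

end Ca98
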