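import Mathlib

/-!
# A family of cut-off functions on the line
-/

set_option autoImplicit false

namespace Ca98

open Set

/-- The ramp: antiderivative of a smooth step. -/
noncomputable def cutoffW (h x : ℝ) : ℝ := ∫ τ in (0 : ℝ)..x, Real.smoothTransition (τ / h - 1)

lemma cutoffV_contDiff (h : ℝ) : ContDiff ℝ 2 (fun x : ℝ => Real.smoothTransition (x / h - 1)) := by
  have h1 : ContDiff ℝ 2 Real.smoothTransition := by exact_mod_cast Real.smoothTransition.contDiff (n := 2)
  exact h1.comp ((contDiff_id.div_const h).sub contDiff_const)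

lemma cutoffW_hasDerivAt (h x : ℝ) :
    HasDerivAt (cutoffW h) (Real.smoothTransition (x / h - 1)) x :=
  (cutoffV_contDiff h).continuous.integral_hasStrictDerivAt 0 x |>.hasDerivAt

lemma cutoffW_deriv (h : ℝ) :
    deriv (cutoffW h) = fun x => Real.smoothTransition (x / h - 1) :=
  funext fun x => (cutoffW_hasDerivAt h x).deriv

lemma cutoffW_contDiff (h : ℝ) : ContDiff ℝ 2 (cutoffW h) := by
  rw [show (2 : WithTop ℕ∞) = 1 + 1 by norm_num, contDiff_succ_iff_deriv]
  refine ⟨fun x => (cutoffW_hasDerivAt h x).differentiableAt, by simp, ?_⟩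
  rw [cutoffW_deriv]
  exact (cutoffV_contDiff h).of_le (by norm_num)

lemma cutoffW_zero {h x : ℝ} (hh : 0 < h) (hx : x ≤ h) : cutoffW h x = 0 := by
  unfold cutoffW
  rw [intervalIntegral.integral_congr (g := fun _ => (0 : ℝ)), intervalIntegral.integral_zero]
  intro τ hτ
  have hτh : τ ≤ h := by
    have := hτ.2
    exact this.trans (max_le hh.le hx)
  refine Real.smoothTransition.zero_of_nonpos ?_
  rw [sub_nonpos, div_le_one hh]
  exact hτh

lemma cutoffW_nonneg {h x : ℝ} (hx : 0 ≤ x) : 0 ≤ cutoffW h x :=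
  intervalIntegral.integral_nonneg hx fun _ _ => Real.smoothTransition.nonneg _

lemma cutoffW_le {h x : ℝ} (hx : 0 ≤ x) : cutoffW h x ≤ x := by
  have h1 : cutoffW h x ≤ ∫ _ in (0 : ℝ)..x, (1 : ℝ) :=
    intervalIntegral.integral_mono_on hx ((cutoffV_contDiff h).continuous.intervalIntegrable _ _)
      intervalIntegrable_const fun _ _ => Real.smoothTransition.le_one _
  simpa using h1

lemma cutoffV_deriv_nonneg {h : ℝ} (hh : 0 < h) (x : ℝ) :
    0 ≤ deriv (fun x : ℝ => Real.smoothTransition (x / h - 1)) x := by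
  have hm : Monotone (fun x : ℝ => Real.smoothTransition (x / h - 1)) := fun a b hab =>
    Real.smoothTransition.monotone (by
      have : a / h ≤ b / h := div_le_div_of_nonneg_right hab hh.le
      linarith)
  exact hm.deriv_nonneg

/-- The family of cut-off functions. -/
theorem cutoff {s : ℝ} (hs : 0 < s) :
    ∃ b C : ℝ, 0 < b ∧ b < s ∧ 0 ≤ C ∧ ∀ a, 0 < a → a < b → ∃ (w : ℝ → ℝ) (a' s' : ℝ),
      ContDiff ℝ 2 w ∧ 0 < a' ∧ b ≤ s' ∧ s' < s ∧ (∀ x ≤ a', w x = 0) ∧ (∀ x, s' ≤ x → w x = 0) ∧
      (∀ x ≤ b, 0 ≤ deriv w x ∧ 0 ≤ deriv (deriv w) x) ∧ (∀ x ∈ Icc a b, deriv w x = 1) ∧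
      ∀ x, b ≤ x → |deriv w x| ≤ C ∧ |deriv (deriv w) x| ≤ C := by
  set χ : ℝ → ℝ := fun x => 1 - Real.smoothTransition (4 * x / s - 2) with hχ
  have hχc : ContDiff ℝ 2 χ := by
    have h1 : ContDiff ℝ 2 Real.smoothTransition := by
      exact_mod_cast Real.smoothTransition.contDiff (n := 2)
    have h2 : ContDiff ℝ 2 (fun x : ℝ => 4 * x / s - 2) :=
      ((contDiff_const.mul contDiff_id).div_const s).sub contDiff_const
    exact contDiff_const.sub (h1.comp h2)
  have hχd : ContDiff ℝ 1 (deriv χ) := by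
    have := (contDiff_succ_iff_deriv (n := 1) (f := χ)).1 (by norm_num; exact hχc)
    exact this.2.2
  have hχdd : Continuous (deriv (deriv χ)) := hχd.continuous_deriv (by norm_num)
  have hχ1 : ∀ x, x ≤ s / 2 → χ x = 1 := fun x hx => by
    rw [hχ]
    have : Real.smoothTransition (4 * x / s - 2) = 0 := by
      refine Real.smoothTransition.zero_of_nonpos ?_
      rw [sub_nonpos, div_le_iff₀ hs]
      linarith
    simp [this]
  have hχ0 : ∀ x, 3 * s / 4 ≤ x → χ x = 0 := fun x hx => by
    rw [hχ]
    have : Real.smoothTransition (4 * x / s - 2) = 1 := by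
      refine Real.smoothTransition.one_of_one_le ?_
      have : 3 ≤ 4 * x / s := by
        rw [le_div_iff₀ hs]
        linarith
      linarith
    simp [this]
  have hχle : ∀ x, |χ x| ≤ 1 := fun x => by
    rw [hχ, abs_le]
    constructor
    · simp only
      linarith [Real.smoothTransition.le_one (4 * x / s - 2)]
    · simp only
      linarith [Real.smoothTransition.nonneg (4 * x / s - 2)]
  obtain ⟨M₁, hM₁⟩ := (isCompact_Icc (a := (0 : ℝ)) (b := s)).exists_bound_of_continuousOn
    hχd.continuous.continuousOn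
  obtain ⟨M₂, hM₂⟩ := (isCompact_Icc (a := (0 : ℝ)) (b := s)).exists_bound_of_continuousOn
    hχdd.continuousOn
  have hM₁0 : 0 ≤ M₁ := (norm_nonneg _).trans (hM₁ 0 ⟨le_rfl, hs.le⟩)
  have hM₂0 : 0 ≤ M₂ := (norm_nonneg _).trans (hM₂ 0 ⟨le_rfl, hs.le⟩)
  refine ⟨s / 4, 1 + M₁ * s + (M₂ * s + 2 * M₁), by positivity, by linarith, by positivity,
    fun a ha hab => ?_⟩
  set h : ℝ := a / 2 with hh
  have hhpos : 0 < h := half_pos ha
  set W := cutoffW h with hW
  set w : ℝ → ℝ := fun x => χ x * W x with hw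
  have hWd : ∀ x, deriv W x = Real.smoothTransition (x / h - 1) := fun x =>
    (cutoffW_hasDerivAt h x).deriv
  have hWc := cutoffW_contDiff h
  have hχdiff : ∀ x, DifferentiableAt ℝ χ x := fun x => hχc.differentiable (by norm_num) x
  have hWdiff : ∀ x, DifferentiableAt ℝ W x := fun x => hWc.differentiable (by norm_num) x
  have hwd : deriv w = fun x => deriv χ x * W x + χ x * deriv W x := by
    funext x
    exact ((hχdiff x).hasDerivAt.mul (hWdiff x).hasDerivAt).deriv
  -- near `(-∞, s/4]` the function is `W`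
  have hnear : ∀ x, x < s / 2 → w =ᶠ[nhds x] W := fun x hx => by
    filter_upwards [Iio_mem_nhds hx] with y hy
    rw [hw]
    simp only
    rw [hχ1 y (le_of_lt hy), one_mul]
  have hnear' : ∀ x, x < s / 2 → deriv w =ᶠ[nhds x] deriv W := fun x hx => (hnear x hx).deriv
  have hW1 : ∀ x, a ≤ x → deriv W x = 1 := fun x hx => by
    rw [hWd]
    refine Real.smoothTransition.one_of_one_le ?_
    have : 2 ≤ x / h := by
      rw [le_div_iff₀ hhpos]
      linarith
    linarith
  refine ⟨w, h, 3 * s / 4, hχc.mul hWc, hhpos, by linarith, by linarith, fun x hx => ?_,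
    fun x hx => ?_, fun x hx => ?_, fun x hx => ?_, fun x hx => ?_⟩
  · rw [hw]
    simp only
    rw [hW, cutoffW_zero hhpos hx, mul_zero]
  · rw [hw]
    simp only
    rw [hχ0 x hx, zero_mul]
  · have hx2 : x < s / 2 := by linarith
    refine ⟨?_, ?_⟩
    · rw [(hnear x hx2).deriv_eq, hWd]
      exact Real.smoothTransition.nonneg _
    · rw [(hnear' x hx2).deriv_eq, hW, cutoffW_deriv]
      exact cutoffV_deriv_nonneg hhpos x
  · have hx2 : x < s / 2 := by linarith [hx.2]
    rw [(hnear x hx2).deriv_eq]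
    exact hW1 x hx.1
  · by_cases hxs : x ≤ s
    · have hxa : a < x := by linarith
      have hx0 : 0 ≤ x := by linarith
      have hxI : x ∈ Icc (0 : ℝ) s := ⟨hx0, hxs⟩
      have hWx : |W x| ≤ s := by
        rw [abs_of_nonneg (cutoffW_nonneg hx0)]
        exact (cutoffW_le hx0).trans hxs
      have h1 : |deriv χ x| ≤ M₁ := hM₁ x hxI
      have h2 : |deriv (deriv χ) x| ≤ M₂ := hM₂ x hxI
      have hd1 : deriv w x = deriv χ x * W x + χ x * 1 := by
        rw [hwd]
        simp only
        rw [hW1 x hxa.le]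
      have hd2 : deriv (deriv w) x = deriv (deriv χ) x * W x + 2 * deriv χ x := by
        have heq : deriv w =ᶠ[nhds x] fun y => deriv χ y * W y + χ y * 1 := by
          filter_upwards [Ioi_mem_nhds hxa] with y hy
          rw [hwd]
          simp only
          rw [hW1 y (le_of_lt hy)]
        rw [heq.deriv_eq]
        have hχd' : HasDerivAt (deriv χ) (deriv (deriv χ) x) x :=
          (hχd.differentiable (by norm_num) x).hasDerivAt
        have := (hχd'.mul (hWdiff x).hasDerivAt).add ((hχdiff x).hasDerivAt.mul_const 1)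
        have h3 := this.deriv
        have h4 : deriv (fun y => deriv χ y * W y + χ y * 1) x =
            deriv (deriv χ) x * W x + deriv χ x * deriv W x + deriv χ x * 1 := h3
        rw [h4, hW1 x hxa.le]
        ring
      constructor
      · rw [hd1]
        have e1 : |deriv χ x * W x| ≤ M₁ * s := by
          rw [abs_mul]
          exact mul_le_mul h1 hWx (abs_nonneg _) hM₁0
        have e2 : |χ x * 1| ≤ 1 := by
          rw [mul_one]
          exact hχle x
        have e3 : 0 ≤ M₂ * s := by positivity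
        calc |deriv χ x * W x + χ x * 1| ≤ |deriv χ x * W x| + |χ x * 1| := abs_add_le _ _
          _ ≤ 1 + M₁ * s + (M₂ * s + 2 * M₁) := by linarith
      · rw [hd2]
        have e1 : |deriv (deriv χ) x * W x| ≤ M₂ * s := by
          rw [abs_mul]
          exact mul_le_mul h2 hWx (abs_nonneg _) hM₂0
        have e2 : |2 * deriv χ x| ≤ 2 * M₁ := by
          rw [abs_mul, abs_two]
          linarith
        have e3 : 0 ≤ M₁ * s := by positivity
        calc |deriv (deriv χ) x * W x + 2 * deriv χ x|
            ≤ |deriv (deriv χ) x * W x| + |2 * deriv χ x| := abs_add_le _ _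
          _ ≤ 1 + M₁ * s + (M₂ * s + 2 * M₁) := by linarith
    · rw [not_le] at hxs
      have h3 : w =ᶠ[nhds x] fun _ => (0 : ℝ) := by
        filter_upwards [Ioi_mem_nhds hxs] with y hy
        rw [hw]
        simp only
        have : s < y := hy
        rw [hχ0 y (by linarith), zero_mul]
      have h4 : deriv w =ᶠ[nhds x] deriv fun _ => (0 : ℝ) := h3.deriv
      rw [h3.deriv_eq, h4.deriv_eq]
      simp only [deriv_const', deriv_const, abs_zero]
      constructor <;> positivity

end Ca98
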