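import Mathlib

/-!
# Complete embedded minimal surfaces and obstacles: definitions

The vocabulary of the hand-in on `MP_ca8607_gt`. A surface in `ℝ³` is a subset `S`.
-/

set_option autoImplicit false

namespace Ca98

open Set Metric Filter Topology
open scoped RealInnerProductSpace

/-- The Euclidean plane. -/
abbrev E2 := EuclideanSpace ℝ (Fin 2)

/-- Euclidean space `ℝ³`. -/
abbrev E3 := EuclideanSpace ℝ (Fin 3)

/-- The point of `ℝ³` at height `s` over the point `z` of the plane. -/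
def up (z : E2) (s : ℝ) : E3 := !₂[z 0, z 1, s]

/-- The partial derivative `∂ᵢ u` of a function of two variables. -/
noncomputable def pd (u : E2 → ℝ) (i : Fin 2) (z : E2) : ℝ :=
  fderiv ℝ u z (EuclideanSpace.single i 1)

/-- The minimal surface equation
`(1 + u_y²) u_xx - 2 u_x u_y u_xy + (1 + u_x²) u_yy = 0` at the point `z`. -/
def MSE (u : E2 → ℝ) (z : E2) : Prop :=
  (1 + pd u 1 z ^ 2) * pd (pd u 0) 0 z - 2 * (pd u 0 z * pd u 1 z * pd (pd u 0) 1 z)
    + (1 + pd u 0 z ^ 2) * pd (pd u 1) 1 z = 0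

/-- After the rigid motion `A` the set `S` is, in the open cylinder `|z| < r`, `|s| < r`, the graph
`s = u z` of a `C²` function `u` (with `|u| < r`) satisfying the minimal surface equation. -/
structure IsPatch (S : Set E3) (A : E3 ≃ᵃⁱ[ℝ] E3) (u : E2 → ℝ) (r : ℝ) : Prop where
  pos : 0 < r
  smooth : ContDiff ℝ 2 u
  small : ∀ z, ‖z‖ < r → |u z| < r
  graph : ∀ z s, ‖z‖ < r → |s| < r → (A.symm (up z s) ∈ S ↔ s = u z)
  minimal : ∀ z, ‖z‖ < r → MSE u z

/-- `S` is an embedded minimal surface in `ℝ³`: each `p ∈ S` can be moved to the origin by a rigid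
motion after which `S` is near the origin the graph, over its tangent plane, of a `C²` function
satisfying the minimal surface equation. -/
def MinimalSurface (S : Set E3) : Prop :=
  ∀ p ∈ S, ∃ (A : E3 ≃ᵃⁱ[ℝ] E3) (u : E2 → ℝ) (r : ℝ),
    IsPatch S A u r ∧ A p = 0 ∧ u 0 = 0 ∧ fderiv ℝ u 0 = 0

/-- There is a curve of length at most `L` in `S` from `x` to `y` (parametrised on `[0, L]` with
speed at most one). -/
def Reach (S : Set E3) (x y : E3) (L : ℝ) : Prop :=
  0 ≤ L ∧ ∃ γ : ℝ → E3, LipschitzOnWith 1 γ (Icc 0 L) ∧ γ 0 = x ∧ γ L = y ∧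
    ∀ t ∈ Icc 0 L, γ t ∈ S

/-- `S` is complete for its intrinsic distance (the infimum of the lengths of curves in `S`):
intrinsic Cauchy sequences converge to points of `S`. -/
def IntrinsicallyComplete (S : Set E3) : Prop :=
  ∀ x : ℕ → E3, (∀ n, x n ∈ S) →
    (∀ ε > 0, ∃ N, ∀ m ≥ N, ∀ n ≥ N, Reach S (x m) (x n) ε) →
    ∃ p ∈ S, Tendsto x atTop (𝓝 p)

/-- The second derivative `D²φ(x)(v, w)`. -/
noncomputable def D2 (φ : E3 → ℝ) (x v w : E3) : ℝ := fderiv ℝ (fderiv ℝ φ) x v w

/-- `L` is a strictly mean-convex body: near `L` it is the set `φ ≤ 0` of a `C²` function `φ`, and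
at each point with `φ = 0` the trace of `D²φ` is positive on every plane contained in the kernel of
the derivative `dφ`. (Where `dφ ≠ 0` this says that the boundary `φ = 0` of `L` has positive mean
curvature, as the sphere bounding a ball.) -/
def MeanConvex (L : Set E3) : Prop :=
  ∃ (N : Set E3) (φ : E3 → ℝ), IsOpen N ∧ L ⊆ N ∧ ContDiffOn ℝ 2 φ N ∧
    (∀ x ∈ N, x ∈ L ↔ φ x ≤ 0) ∧
    ∀ x ∈ N, φ x = 0 → ∀ v w : E3, ‖v‖ = 1 → ‖w‖ = 1 → ⟪v, w⟫ = 0 →
      fderiv ℝ φ x v = 0 → fderiv ℝ φ x w = 0 → 0 < D2 φ x v v + D2 φ x w w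

/-- `L` is contained in a `C²` curve: in the zero set of a `C²` map to the plane which is a
submersion at the points of `L`. -/
def InCurve (L : Set E3) : Prop :=
  ∃ (N : Set E3) (F : E3 → E2), IsOpen N ∧ L ⊆ N ∧ ContDiffOn ℝ 2 F N ∧
    ∀ x ∈ L, F x = 0 ∧ Function.Surjective (fderiv ℝ F x)

/-- `K` is a removable hole of `D`: a compact set disjoint from `D`, with an open neighbourhood `N`
such that `N \ K ⊆ D`, which is the union of a sequence of compact sets `L i`, each of them a union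
of connected components of `K` and each a strictly mean-convex body or contained in a curve. -/
structure Hole (D K : Set E3) : Prop where
  compact : IsCompact K
  disj : Disjoint K D
  nhds : ∃ N : Set E3, IsOpen N ∧ K ⊆ N ∧ N \ K ⊆ D
  pieces : ∃ L : ℕ → Set E3, (⋃ i, L i) = K ∧ ∀ i, IsCompact (L i) ∧
    (∀ x ∈ L i, connectedComponentIn K x ⊆ L i) ∧ (MeanConvex (L i) ∨ InCurve (L i))

/-- `ν` is a unit normal of `S` at `x`. -/
def IsNormal (S : Set E3) (x ν : E3) : Prop :=
  ‖ν‖ = 1 ∧ ∀ v ∈ tangentConeAt ℝ S x, ⟪ν, v⟫ = 0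

/-- `S` is orientable: it has a continuous unit normal field. -/
def Orientable (S : Set E3) : Prop :=
  ∃ n : E3 → E3, ContinuousOn n S ∧ ∀ p ∈ S, IsNormal S p (n p)

/-- `S` is closed in `D` (properly embedded in `D`). -/
def ClosedIn (S D : Set E3) : Prop := S ⊆ D ∧ closure S ∩ D ⊆ S

end Ca98
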