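import Pool.Agent.W_ca8607_h98.AreaDef

/-!
# The Laplacian on a minimal graph in divergence form
-/

set_option autoImplicit false

namespace Ca98

open Set Metric Filter Topology

/-- The standard basis vectors of space. -/
noncomputable def div_e (k : Fin 3) : E3 := EuclideanSpace.single k 1

lemma div_up0 (c : ℝ) : up (EuclideanSpace.single 0 1) c = div_e 0 + c • div_e 2 := by
  ext i
  fin_cases i <;> simp [up, div_e]

lemma div_up1 (c : ℝ) : up (EuclideanSpace.single 1 1) c = div_e 1 + c • div_e 2 := by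
  ext i
  fin_cases i <;> simp [up, div_e]

lemma div_line {f : E2 → ℝ} {z : E2} (hf : DifferentiableAt ℝ f z) (i : Fin 2) :
    HasDerivAt (fun t : ℝ => f (z + t • EuclideanSpace.single i (1 : ℝ))) (pd f i z) 0 :=
  hf.hasFDerivAt.hasLineDerivAt _

lemma div_pd_eq {f : E2 → ℝ} {z : E2} (hf : DifferentiableAt ℝ f z) {i : Fin 2} {d : ℝ}
    (h : HasDerivAt (fun t : ℝ => f (z + t • EuclideanSpace.single i (1 : ℝ))) d 0) :
    pd f i z = d :=
  (div_line hf i).unique h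

lemma div_hasFDerivAt_F {u : E2 → ℝ} (hu : ContDiff ℝ 2 u) (z : E2) :
    HasFDerivAt (fun w => up w (u w))
      (upL.comp ((ContinuousLinearMap.id ℝ E2).prod (fderiv ℝ u z))) z := by
  have h1 : HasFDerivAt (fun w : E2 => (w, u w))
      ((ContinuousLinearMap.id ℝ E2).prod (fderiv ℝ u z)) z :=
    (hasFDerivAt_id z).prodMk (hu.differentiable (by norm_num) z).hasFDerivAt
  exact upL.hasFDerivAt.comp z h1

lemma div_F_apply {u : E2 → ℝ} (z w : E2) :
    (upL.comp ((ContinuousLinearMap.id ℝ E2).prod (fderiv ℝ u z))) w = up w (fderiv ℝ u z w) := by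
  simp

/-- The first derivatives of `Ψ ∘ F`. -/
lemma div_pd_comp {u : E2 → ℝ} (hu : ContDiff ℝ 2 u) {Ψ : E3 → ℝ} (hΨ : ContDiff ℝ 2 Ψ) (z : E2)
    (i : Fin 2) :
    pd (fun w => Ψ (up w (u w))) i z =
      fderiv ℝ Ψ (up z (u z)) (up (EuclideanSpace.single i 1) (pd u i z)) := by
  have h := (hΨ.differentiable (by norm_num) (up z (u z))).hasFDerivAt.comp z (div_hasFDerivAt_F hu z)
  have h2 : fderiv ℝ (fun w => Ψ (up w (u w))) z = _ := h.fderiv
  rw [pd, h2, ContinuousLinearMap.comp_apply, div_F_apply, pd]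

/-- The functions `a k`. -/
noncomputable def div_a (u : E2 → ℝ) (Ψ : E3 → ℝ) (k : Fin 3) (z : E2) : ℝ :=
  fderiv ℝ Ψ (up z (u z)) (div_e k)

lemma div_a_contDiff {u : E2 → ℝ} (hu : ContDiff ℝ 2 u) {Ψ : E3 → ℝ} (hΨ : ContDiff ℝ 2 Ψ)
    (k : Fin 3) : ContDiff ℝ 1 (div_a u Ψ k) := by
  have h1 : ContDiff ℝ 1 (fderiv ℝ Ψ) := hΨ.fderiv_right (by norm_num)
  exact (h1.comp ((contDiff_up hu).of_le (by norm_num))).clm_apply contDiff_const

lemma div_a_pd {u : E2 → ℝ} (hu : ContDiff ℝ 2 u) {Ψ : E3 → ℝ} (hΨ : ContDiff ℝ 2 Ψ)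
    (k : Fin 3) (i : Fin 2) (z : E2) :
    pd (div_a u Ψ k) i z =
      D2 Ψ (up z (u z)) (up (EuclideanSpace.single i 1) (pd u i z)) (div_e k) := by
  have h1 : ContDiff ℝ 1 (fderiv ℝ Ψ) := hΨ.fderiv_right (by norm_num)
  have h2 := (h1.differentiable (by norm_num) (up z (u z))).hasFDerivAt.comp z (div_hasFDerivAt_F hu z)
  have h3 := h2.clm_apply (hasFDerivAt_const (div_e k) z)
  have h4 : fderiv ℝ (div_a u Ψ k) z = _ := h3.fderiv
  rw [pd, h4]
  simp [D2, pd]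

lemma div_pd_symm {u : E2 → ℝ} (hu : ContDiff ℝ 2 u) (z : E2) :
    pd (pd u 1) 0 z = pd (pd u 0) 1 z := by
  have h1 : ContDiff ℝ 1 (fderiv ℝ u) := hu.fderiv_right (by norm_num)
  have key : ∀ i j : Fin 2, pd (pd u i) j z =
      fderiv ℝ (fderiv ℝ u) z (EuclideanSpace.single j 1) (EuclideanSpace.single i 1) := by
    intro i j
    have h2 := (h1.differentiable (by norm_num) z).hasFDerivAt.clm_apply
      (hasFDerivAt_const (EuclideanSpace.single i (1 : ℝ)) z)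
    have h3 : fderiv ℝ (pd u i) z = _ := h2.fderiv
    rw [pd, h3]
    simp
  rw [key, key]
  exact (hu.contDiffAt.isSymmSndFDerivAt (by simp)) _ _

lemma div_D2_symm {Ψ : E3 → ℝ} (hΨ : ContDiff ℝ 2 Ψ) (x v w : E3) : D2 Ψ x v w = D2 Ψ x w v :=
  (hΨ.contDiffAt.isSymmSndFDerivAt (by simp)) _ _

lemma div_Nu (u : E2 → ℝ) (z : E2) : Nu u z =
    (1 / jac u z) • ((-pd u 0 z) • div_e 0 + (-pd u 1 z) • div_e 1 + div_e 2) := by
  ext i
  fin_cases i <;> simp [Nu, div_e]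

lemma div_quot0 {P Q A0 A1 A2 W : ℝ → ℝ} {p' q' a0' a1' a2' w' : ℝ} (hP : HasDerivAt P p' 0)
    (hQ : HasDerivAt Q q' 0) (h0 : HasDerivAt A0 a0' 0) (h1 : HasDerivAt A1 a1' 0)
    (h2 : HasDerivAt A2 a2' 0) (hW : HasDerivAt W w' 0) (hW0 : W 0 ≠ 0) :
    HasDerivAt (fun t => ((1 + Q t ^ 2) * A0 t - P t * Q t * A1 t + P t * A2 t) / W t)
      (((2 * Q 0 * q' * A0 0 + (1 + Q 0 ^ 2) * a0' - ((p' * Q 0 + P 0 * q') * A1 0 + P 0 * Q 0 * a1')
        + (p' * A2 0 + P 0 * a2')) * W 0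
        - ((1 + Q 0 ^ 2) * A0 0 - P 0 * Q 0 * A1 0 + P 0 * A2 0) * w') / W 0 ^ 2) 0 := by
  refine (((((((hQ.fun_pow 2).const_add 1).fun_mul h0).fun_sub ((hP.fun_mul hQ).fun_mul h1))).fun_add
    (hP.fun_mul h2)).fun_div hW hW0).congr_deriv ?_
  simp

lemma div_quot1 {P Q A0 A1 A2 W : ℝ → ℝ} {p' q' a0' a1' a2' w' : ℝ} (hP : HasDerivAt P p' 0)
    (hQ : HasDerivAt Q q' 0) (h0 : HasDerivAt A0 a0' 0) (h1 : HasDerivAt A1 a1' 0)
    (h2 : HasDerivAt A2 a2' 0) (hW : HasDerivAt W w' 0) (hW0 : W 0 ≠ 0) :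
    HasDerivAt (fun t => (-(P t * Q t * A0 t) + (1 + P t ^ 2) * A1 t + Q t * A2 t) / W t)
      (((-((p' * Q 0 + P 0 * q') * A0 0 + P 0 * Q 0 * a0') + (2 * P 0 * p' * A1 0 + (1 + P 0 ^ 2) * a1')
        + (q' * A2 0 + Q 0 * a2')) * W 0
        - (-(P 0 * Q 0 * A0 0) + (1 + P 0 ^ 2) * A1 0 + Q 0 * A2 0) * w') / W 0 ^ 2) 0 := by
  refine (((((hP.fun_mul hQ).fun_mul h0).fun_neg.fun_add (((hP.fun_pow 2).const_add 1).fun_mul h1))).fun_add
    (hQ.fun_mul h2)).fun_div hW hW0 |>.congr_deriv ?_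
  simp

lemma div_sqrt {P Q W : ℝ → ℝ} {p' q' w' : ℝ} (hP : HasDerivAt P p' 0)
    (hQ : HasDerivAt Q q' 0) (hW : HasDerivAt W w' 0) (h : ∀ t, W t ^ 2 = 1 + P t ^ 2 + Q t ^ 2) :
    W 0 * w' = P 0 * p' + Q 0 * q' := by
  have h1 := hW.fun_pow 2
  have h2 := ((hP.fun_pow 2).const_add 1).fun_add (hQ.fun_pow 2)
  have h3 : (fun t => W t ^ 2) = fun t => 1 + P t ^ 2 + Q t ^ 2 := funext h
  rw [h3] at h1
  have h4 := h1.unique h2
  simp only [Nat.cast_ofNat, Nat.add_one_sub_one, pow_one] at h4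
  linarith

/-- The algebraic identity. -/
lemma div_algebra {p q W a0 a1 a2 p0 m q1 w0 w1 h00 h01 h02 h11 h12 h22 : ℝ} (hW : W ≠ 0)
    (hW2 : W ^ 2 = 1 + p ^ 2 + q ^ 2)
    (hw0 : W * w0 = p * p0 + q * m) (hw1 : W * w1 = p * m + q * q1)
    (hm : (1 + q ^ 2) * p0 - 2 * (p * q * m) + (1 + p ^ 2) * q1 = 0) :
    ((2 * q * m * a0 + (1 + q ^ 2) * (h00 + p * h02) - ((p0 * q + p * m) * a1 + p * q * (h01 + p * h12))
        + (p0 * a2 + p * (h02 + p * h22))) * W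
        - ((1 + q ^ 2) * a0 - p * q * a1 + p * a2) * w0) / W ^ 2 +
    ((-((m * q + p * q1) * a0 + p * q * (h01 + q * h02)) + (2 * p * m * a1 + (1 + p ^ 2) * (h11 + q * h12))
        + (q1 * a2 + q * (h12 + q * h22))) * W
        - (-(p * q * a0) + (1 + p ^ 2) * a1 + q * a2) * w1) / W ^ 2 =
    ((h00 + h11 + h22) - (p ^ 2 * h00 + q ^ 2 * h11 + h22 + 2 * (p * q) * h01 - 2 * p * h02
      - 2 * q * h12) / W ^ 2) * W := by
  have e0 : w0 = (p * p0 + q * m) / W := by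
    rw [eq_div_iff hW]
    linarith
  have e1 : w1 = (p * m + q * q1) / W := by
    rw [eq_div_iff hW]
    linarith
  subst e0 e1
  obtain ⟨n0, hn0⟩ : ∃ n0, n0 = 2 * q * m * a0 + (1 + q ^ 2) * (h00 + p * h02)
    - ((p0 * q + p * m) * a1 + p * q * (h01 + p * h12)) + (p0 * a2 + p * (h02 + p * h22)) := ⟨_, rfl⟩
  obtain ⟨n1, hn1⟩ : ∃ n1, n1 = -((m * q + p * q1) * a0 + p * q * (h01 + q * h02))
    + (2 * p * m * a1 + (1 + p ^ 2) * (h11 + q * h12)) + (q1 * a2 + q * (h12 + q * h22)) := ⟨_, rfl⟩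
  rw [← hn0, ← hn1]
  have key : n0 * W ^ 2 - ((1 + q ^ 2) * a0 - p * q * a1 + p * a2) * (p * p0 + q * m)
      + (n1 * W ^ 2 - (-(p * q * a0) + (1 + p ^ 2) * a1 + q * a2) * (p * m + q * q1))
      - ((h00 + h11 + h22) * W ^ 2 - (p ^ 2 * h00 + q ^ 2 * h11 + h22 + 2 * (p * q) * h01
        - 2 * p * h02 - 2 * q * h12)) * W ^ 2 = 0 := by
    rw [hW2, hn0, hn1]
    linear_combination (a2 - p * a0 - q * a1) * hm
  rw [← sub_eq_zero]
  have e2 : ∀ x : ℝ, x * W ^ 3 = 0 → x = 0 := fun x hx => by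
    rcases mul_eq_zero.1 hx with h | h
    · exact h
    · exact absurd (pow_eq_zero_iff (by norm_num) |>.1 h) hW
  apply e2
  rw [← key]
  field_simp

/-- The divergence form of the Laplace operator: if `u` satisfies the minimal surface equation at `z` then
`∑ i, ∂ᵢ (∑ j, √g g^{ij} ∂ⱼ (Ψ ∘ F)) = √g tr_T D²Ψ` at `z`, where `F z = up z (u z)`. -/
theorem div_form {u : E2 → ℝ} (hu : ContDiff ℝ 2 u) {z : E2} (hm : MSE u z) {Ψ : E3 → ℝ}
    (hΨ : ContDiff ℝ 2 Ψ) :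
    (∑ i : Fin 2, pd (fun z => ∑ j : Fin 2, co u i j z * pd (fun w => Ψ (up w (u w))) j z) i z)
      = lapG u Ψ z * jac u z := by
  -- the vector field
  have hV0 : (fun z => ∑ j : Fin 2, co u 0 j z * pd (fun w => Ψ (up w (u w))) j z) = fun z =>
      ((1 + pd u 1 z ^ 2) * div_a u Ψ 0 z - pd u 0 z * pd u 1 z * div_a u Ψ 1 z
        + pd u 0 z * div_a u Ψ 2 z) / jac u z := by
    funext z
    rw [Fin.sum_univ_two, div_pd_comp hu hΨ, div_pd_comp hu hΨ, div_up0, div_up1, map_add, map_add,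
      map_smul, map_smul]
    simp only [co, div_a, smul_eq_mul, Fin.isValue, if_true, if_false, jac_sq,
      show ((0 : Fin 2) = 1) = False from by simp]
    field_simp
    ring
  have hV1 : (fun z => ∑ j : Fin 2, co u 1 j z * pd (fun w => Ψ (up w (u w))) j z) = fun z =>
      (-(pd u 0 z * pd u 1 z * div_a u Ψ 0 z) + (1 + pd u 0 z ^ 2) * div_a u Ψ 1 z
        + pd u 1 z * div_a u Ψ 2 z) / jac u z := by
    funext z
    rw [Fin.sum_univ_two, div_pd_comp hu hΨ, div_pd_comp hu hΨ, div_up0, div_up1, map_add, map_add,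
      map_smul, map_smul]
    simp only [co, div_a, smul_eq_mul, Fin.isValue, if_true, if_false, jac_sq,
      show ((1 : Fin 2) = 0) = False from by simp]
    field_simp
    ring
  rw [Fin.sum_univ_two, hV0, hV1]
  -- differentiability
  have dp : ∀ i, DifferentiableAt ℝ (pd u i) z := fun i =>
    (contDiff_pd hu i).differentiable (by norm_num) z
  have da : ∀ k, DifferentiableAt ℝ (div_a u Ψ k) z := fun k =>
    (div_a_contDiff hu hΨ k).differentiable (by norm_num) z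
  have dW : DifferentiableAt ℝ (jac u) z := (contDiff_jac hu).differentiable (by norm_num) z
  have hWne : jac u z ≠ 0 := (jac_pos u z).ne'
  -- the derivative of `jac`
  have hW : ∀ i, jac u z * pd (jac u) i z = pd u 0 z * pd (pd u 0) i z + pd u 1 z * pd (pd u 1) i z := by
    intro i
    have := div_sqrt (div_line (dp 0) i) (div_line (dp 1) i) (div_line dW i) (fun t => jac_sq u _)
    simpa using this
  have hsymm := div_pd_symm hu z
  -- names
  obtain ⟨p, hp⟩ : ∃ p, p = pd u 0 z := ⟨_, rfl⟩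
  obtain ⟨q, hq⟩ : ∃ q, q = pd u 1 z := ⟨_, rfl⟩
  obtain ⟨W, hWd⟩ : ∃ W, W = jac u z := ⟨_, rfl⟩
  have hW2 : W ^ 2 = 1 + p ^ 2 + q ^ 2 := by rw [hWd, hp, hq, jac_sq]
  have hda : ∀ k, pd (div_a u Ψ k) 0 z = D2 Ψ (up z (u z)) (div_e 0) (div_e k)
      + p * D2 Ψ (up z (u z)) (div_e 2) (div_e k) := fun k => by
    rw [div_a_pd hu hΨ, div_up0, hp]
    simp [D2]
  have hda' : ∀ k, pd (div_a u Ψ k) 1 z = D2 Ψ (up z (u z)) (div_e 1) (div_e k)
      + q * D2 Ψ (up z (u z)) (div_e 2) (div_e k) := fun k => by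
    rw [div_a_pd hu hΨ, div_up1, hq]
    simp [D2]
  -- the two derivatives
  have dp0 := dp 0
  have dp1 := dp 1
  have da0 := da 0
  have da1 := da 1
  have da2 := da 2
  have hd0 := div_pd_eq (z := z) (i := 0) (f := fun z => ((1 + pd u 1 z ^ 2) * div_a u Ψ 0 z
      - pd u 0 z * pd u 1 z * div_a u Ψ 1 z + pd u 0 z * div_a u Ψ 2 z) / jac u z)
      (by fun_prop (disch := exact hWne))
      (div_quot0 (div_line dp0 0) (div_line dp1 0) (div_line da0 0) (div_line da1 0) (div_line da2 0)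
        (div_line dW 0) (by simpa using hWne))
  have hd1 := div_pd_eq (z := z) (i := 1) (f := fun z => (-(pd u 0 z * pd u 1 z * div_a u Ψ 0 z)
      + (1 + pd u 0 z ^ 2) * div_a u Ψ 1 z + pd u 1 z * div_a u Ψ 2 z) / jac u z)
      (by fun_prop (disch := exact hWne))
      (div_quot1 (div_line dp0 1) (div_line dp1 1) (div_line da0 1) (div_line da1 1) (div_line da2 1)
        (div_line dW 1) (by simpa using hWne))
  rw [hd0, hd1]
  have hWx := hW 0
  have hWy := hW 1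
  simp only [MSE] at hm
  -- the Laplacian
  have hlap : lapG u Ψ z = (D2 Ψ (up z (u z)) (div_e 0) (div_e 0) + D2 Ψ (up z (u z)) (div_e 1) (div_e 1)
      + D2 Ψ (up z (u z)) (div_e 2) (div_e 2)) - (p ^ 2 * D2 Ψ (up z (u z)) (div_e 0) (div_e 0)
      + q ^ 2 * D2 Ψ (up z (u z)) (div_e 1) (div_e 1) + D2 Ψ (up z (u z)) (div_e 2) (div_e 2)
      + 2 * (p * q) * D2 Ψ (up z (u z)) (div_e 0) (div_e 1) - 2 * p * D2 Ψ (up z (u z)) (div_e 0) (div_e 2)
      - 2 * q * D2 Ψ (up z (u z)) (div_e 1) (div_e 2)) / W ^ 2 := by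
    have e1 := div_D2_symm hΨ (up z (u z)) (div_e 1) (div_e 0)
    have e2 := div_D2_symm hΨ (up z (u z)) (div_e 2) (div_e 0)
    have e3 := div_D2_symm hΨ (up z (u z)) (div_e 2) (div_e 1)
    rw [lapG, Fin.sum_univ_three, div_Nu, ← hp, ← hq, ← hWd]
    simp only [D2, map_add, map_smul, _root_.add_apply, _root_.smul_apply, smul_eq_mul, div_e] at e1 e2 e3 ⊢
    rw [e1, e2, e3]
    field_simp
    ring
  rw [hlap]
  have e1 := div_D2_symm hΨ (up z (u z)) (div_e 1) (div_e 0)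
  have e2 := div_D2_symm hΨ (up z (u z)) (div_e 2) (div_e 0)
  have e3 := div_D2_symm hΨ (up z (u z)) (div_e 2) (div_e 1)
  simp only [zero_smul, add_zero, hda, hda', hsymm, ← hp, ← hq, ← hWd, e1, e2, e3] at hWx hWy hm hWne ⊢
  exact div_algebra hWne hW2 hWx hWy hm

end Ca98
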