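import Pool.Agent.W_ca8607_h98.Defs

/-!
# Test functions near an obstacle
-/

set_option autoImplicit false

namespace Ca98

open Set Metric Filter Topology

/-- The test function. -/
noncomputable def testPsi (N' : Set E3) (φ : E3 → ℝ) (w : ℝ → ℝ) (x : E3) : ℝ :=
  open Classical in if x ∈ N' then w (φ x) else 0

/-- The test function `w ∘ φ` near an obstacle. -/
theorem exists_testFun {N N' : Set E3} {φ : E3 → ℝ} {w : ℝ → ℝ} {s s' a' : ℝ} (hN : IsOpen N)
    (hφ : ContDiffOn ℝ 2 φ N) (hN' : IsCompact N') (hNN : N' ⊆ N)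
    (hint : ∀ x ∈ N', φ x ≤ s → x ∈ interior N') (hw : ContDiff ℝ 2 w) (hs : s' < s)
    (h0 : ∀ x ≤ a', w x = 0) (h1 : ∀ x, s' ≤ x → w x = 0) :
    ∃ Ψ : E3 → ℝ, ContDiff ℝ 2 Ψ ∧ HasCompactSupport Ψ ∧
      (∀ x ∈ tsupport Ψ, x ∈ N' ∧ a' ≤ φ x ∧ φ x ≤ s') ∧
      ∀ x ∈ N', φ x ≤ s → ∀ v : E3, D2 Ψ x v v =
        deriv w (φ x) * D2 φ x v v + deriv (deriv w) (φ x) * (fderiv ℝ φ x v) ^ 2 := by
  set Ψ := testPsi N' φ w with hΨ
  have hin : ∀ x ∈ interior N', Ψ =ᶠ[𝓝 x] fun y => w (φ y) := fun x hx => by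
    filter_upwards [isOpen_interior.mem_nhds hx] with y hy
    exact if_pos (interior_subset hy)
  have hout : ∀ x, x ∉ interior N' → Ψ =ᶠ[𝓝 x] fun _ => 0 := fun x hx => by
    by_cases hxN : x ∈ N'
    · have hφx : s' < φ x := by
        by_contra hle
        exact hx (hint x hxN (by linarith))
      have hcont : ContinuousAt φ x :=
        hφ.continuousOn.continuousAt (hN.mem_nhds (hNN hxN))
      filter_upwards [hcont.eventually (lt_mem_nhds hφx)] with y hy
      rw [hΨ, testPsi]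
      split_ifs
      · exact h1 _ (le_of_lt hy)
      · rfl
    · filter_upwards [hN'.isClosed.isOpen_compl.mem_nhds hxN] with y hy
      exact if_neg hy
  have hCD : ContDiff ℝ 2 Ψ := by
    rw [contDiff_iff_contDiffAt]
    intro x
    by_cases hx : x ∈ interior N'
    · refine ContDiffAt.congr_of_eventuallyEq ?_ (hin x hx)
      exact hw.contDiffAt.comp x (hφ.contDiffAt (hN.mem_nhds (hNN (interior_subset hx))))
    · exact contDiffAt_const.congr_of_eventuallyEq (hout x hx)
  have hT : IsClosed (N' ∩ φ ⁻¹' Icc a' s') :=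
    (hφ.continuousOn.mono hNN).preimage_isClosed_of_isClosed hN'.isClosed isClosed_Icc
  have hsub : tsupport Ψ ⊆ N' ∩ φ ⁻¹' Icc a' s' := by
    refine closure_minimal (fun x hx => ?_) hT
    have hxN : x ∈ N' := by
      by_contra hxN
      exact hx (if_neg hxN)
    have hxw : w (φ x) ≠ 0 := by
      have : Ψ x = w (φ x) := if_pos hxN
      rw [← this]
      exact hx
    refine ⟨hxN, ?_, ?_⟩
    · by_contra hlt
      exact hxw (h0 _ (not_le.1 hlt).le)
    · by_contra hlt
      exact hxw (h1 _ (not_le.1 hlt).le)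
  refine ⟨Ψ, hCD, ?_, fun x hx => ⟨(hsub hx).1, (hsub hx).2.1, (hsub hx).2.2⟩, fun x hx hxs v => ?_⟩
  · exact (hN'.of_isClosed_subset (isClosed_tsupport Ψ) (hsub.trans inter_subset_left))
  · have hxi : x ∈ interior N' := hint x hx hxs
    have hφd : ∀ y ∈ interior N', HasFDerivAt φ (fderiv ℝ φ y) y := fun y hy =>
      ((hφ.differentiableOn (by norm_num)).differentiableAt
        (hN.mem_nhds (hNN (interior_subset hy)))).hasFDerivAt
    have hw1 : ∀ t, HasDerivAt w (deriv w t) t := fun t =>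
      (hw.differentiable (by norm_num) t).hasDerivAt
    have hw' : ContDiff ℝ 1 (deriv w) := by
      have := (contDiff_succ_iff_deriv (n := 1) (f := w)).1 (by norm_num; exact hw)
      exact this.2.2
    have hw2 : ∀ t, HasDerivAt (deriv w) (deriv (deriv w) t) t := fun t =>
      (hw'.differentiable (by norm_num) t).hasDerivAt
    have hf1 : fderiv ℝ Ψ =ᶠ[𝓝 x] fun y => deriv w (φ y) • fderiv ℝ φ y := by
      filter_upwards [isOpen_interior.mem_nhds hxi] with y hy
      have hc : HasFDerivAt (fun y => w (φ y)) (deriv w (φ y) • fderiv ℝ φ y) y :=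
        (hw1 (φ y)).comp_hasFDerivAt y (hφd y hy)
      rw [(hin y hy).fderiv_eq]
      exact hc.fderiv
    have hφ2 : HasFDerivAt (fderiv ℝ φ) (fderiv ℝ (fderiv ℝ φ) x) x := by
      have h2 := hφ.fderiv_of_isOpen hN (m := 1) (by norm_num)
      exact ((h2.differentiableOn (by norm_num)).differentiableAt (hN.mem_nhds (hNN hx))).hasFDerivAt
    have hc2 : HasFDerivAt (fun y => deriv w (φ y)) (deriv (deriv w) (φ x) • fderiv ℝ φ x) x :=
      (hw2 (φ x)).comp_hasFDerivAt x (hφd x hxi)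
    have hf2 := (hc2.fun_smul hφ2).fderiv
    rw [D2, hf1.fderiv_eq, hf2]
    simp only [_root_.add_apply, _root_.smul_apply, ContinuousLinearMap.smulRight_apply, smul_eq_mul, D2]
    ring

end Ca98
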