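import Pool.Agent.W_ca8607_h98.WeakSm
import Pool.Agent.W_ca8607_h98.Area
import Pool.Agent.W_ca8607_h98.Barrier
import Pool.Agent.W_ca8607_h98.Cutoff
import Pool.Agent.W_ca8607_h98.TestPsi

/-!
# Finite area near an obstacle
-/

set_option autoImplicit false

namespace Ca98

open Set Metric Filter Topology MeasureTheory
open scoped RealInnerProductSpace

variable {S D K : Set E3} {μ : Measure E3}

lemma flux_integrable (hS : MinimalSurface S) (hμ : IsArea S μ) {Ψ : E3 → ℝ} (hΨ : ContDiff ℝ 2 Ψ)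
    (hc : HasCompactSupport Ψ) (hs : closure S ∩ tsupport Ψ ⊆ S) : Integrable (TL S Ψ) μ := by
  have hC : IsCompact (closure S ∩ tsupport Ψ) := IsCompact.inter_left hc isClosed_closure
  have hcont : ContinuousOn (TL S Ψ) (closure S ∩ tsupport Ψ) := (continuousOn_TL hS hΨ).mono hs
  obtain ⟨M, hM⟩ := hC.exists_bound_of_continuousOn hcont
  have h1 : IntegrableOn (TL S Ψ) (closure S ∩ tsupport Ψ) μ := by
    refine IntegrableOn.of_bound (hμ.lt_top hS hC hs)
      (hcont.aestronglyMeasurable hC.isClosed.measurableSet) M ?_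
    filter_upwards [ae_restrict_mem hC.isClosed.measurableSet] with x hx
    exact hM x hx
  refine h1.integrable_of_ae_notMem_eq_zero ?_
  have hae : ∀ᵐ x ∂μ, x ∈ S := by
    rw [ae_iff]
    exact hμ.null
  filter_upwards [hae] with x hx hxn
  have h0 : fderiv ℝ (fderiv ℝ Ψ) x = 0 :=
    fderiv_of_notMem_tsupport ℝ fun h => hxn ⟨subset_closure hx, tsupport_fderiv_subset ℝ h⟩
  simp [TL, D2, h0]

/-- A surface closed in `D` has finite area near an obstacle. -/
theorem flux (hS : MinimalSurface S) (hμ : IsArea S μ) (hcl : ClosedIn S D) (hK : SObstacle D K) :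
    ∃ V, IsOpen V ∧ K ⊆ V ∧ μ V < ⊤ := by
  obtain ⟨hKc, hdisj, N, φ, hN, hKN, hND, hφ, hKφ, htr⟩ := hK
  obtain ⟨N', s, c, hN'c, hN'N, hKint, hs, hc, hint, htrc⟩ := barrier_constants hN hKc hKN hφ hKφ htr
  obtain ⟨b, C, hb, hbs, hC0, hcut⟩ := cutoff hs
  have hae : ∀ᵐ x ∂μ, x ∈ S := by
    rw [ae_iff]
    exact hμ.null
  have hφc : ContinuousOn φ N' := hφ.continuousOn.mono hN'N
  have hclosed : ∀ α β : ℝ, IsClosed (N' ∩ φ ⁻¹' Icc α β) := fun α β =>
    hφc.preimage_isClosed_of_isClosed hN'c.isClosed isClosed_Icc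
  -- points of the surface near the obstacle
  have hpos : ∀ x ∈ S, x ∈ N' → 0 < φ x := fun x hx hxN => by
    by_contra hle
    exact Set.disjoint_left.1 hdisj ((hKφ x (hN'N hxN)).2 (not_lt.1 hle)) (hcl.1 hx)
  have hSmem : ∀ x ∈ closure S, x ∈ N' → 0 < φ x → x ∈ S := fun x hx hxN hφx => by
    refine hcl.2 ⟨hx, hND ⟨hN'N hxN, fun hxK => ?_⟩⟩
    exact absurd ((hKφ x (hN'N hxN)).1 hxK) (not_le.2 hφx)
  -- bounds
  have hf1 : ContinuousOn (fderiv ℝ φ) N' :=
    (hφ.continuousOn_fderiv_of_isOpen hN (by norm_num)).mono hN'N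
  have hf2 : ContinuousOn (fderiv ℝ (fderiv ℝ φ)) N' :=
    (barrier_continuousOn_fderiv hN hφ).mono hN'N
  obtain ⟨M₂, hM₂⟩ := hN'c.exists_bound_of_continuousOn hf1
  obtain ⟨M₁, hM₁⟩ : ∃ M, ∀ x ∈ N', ‖fderiv ℝ (fderiv ℝ φ) x‖ ≤ M := by
    have hn0 : Continuous (fun L : E3 →L[ℝ] E3 →L[ℝ] ℝ => ‖L‖) :=
      continuous_norm (E := E3 →L[ℝ] E3 →L[ℝ] ℝ)
    have hn : ContinuousOn (fun x => ‖fderiv ℝ (fderiv ℝ φ) x‖) N' := hn0.comp_continuousOn hf2
    obtain ⟨M, hM⟩ := hN'c.bddAbove_image hn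
    exact ⟨M, fun x hx => hM (mem_image_of_mem _ hx)⟩
  -- the compact part
  set T₀ : Set E3 := closure S ∩ (N' ∩ φ ⁻¹' Icc b s) with hT₀
  have hT₀c : IsCompact T₀ :=
    hN'c.of_isClosed_subset (isClosed_closure.inter (hclosed b s))
      (inter_subset_right.trans inter_subset_left)
  have hT₀S : T₀ ⊆ S := fun x hx => hSmem x hx.1 hx.2.1 (hb.trans_le hx.2.2.1)
  have hT₀fin : μ T₀ < ⊤ := hμ.lt_top hS hT₀c hT₀S
  have hT₀m : MeasurableSet T₀ := hT₀c.isClosed.measurableSet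
  set K' : ℝ := 2 * C * (|M₁| + M₂ ^ 2) with hK'
  have hK'0 : 0 ≤ K' := by positivity
  -- the uniform bound
  have hbound : ∀ a, 0 < a → a < b → μ (N' ∩ φ ⁻¹' Icc a b) ≤
      ENNReal.ofReal (K' * μ.real T₀) / ENNReal.ofReal c := by
    intro a ha hab
    obtain ⟨w, a', s', hwC, ha', hbs', hs's, hw0, hw1, hwb, hwab, hwC'⟩ := hcut a ha hab
    obtain ⟨Ψ, hΨC, hΨc, hΨs, hΨ2⟩ := exists_testFun hN hφ hN'c hN'N hint hwC hs's hw0 hw1
    have hsub : closure S ∩ tsupport Ψ ⊆ S := fun x hx => by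
      obtain ⟨h1, h2, h3⟩ := hΨs x hx.2
      exact hSmem x hx.1 h1 (ha'.trans_le h2)
    have hzero := weak_smooth hS hμ hΨC hΨc hsub
    have hTLi := flux_integrable hS hμ hΨC hΨc hsub
    -- the pointwise inequality
    have hpt : ∀ x ∈ S, (N' ∩ φ ⁻¹' Icc a b).indicator (fun _ => c) x ≤
        TL S Ψ x + T₀.indicator (fun _ => K') x := by
      intro x hx
      have hT0 : 0 ≤ T₀.indicator (fun _ => K') x := indicator_nonneg (fun _ _ => hK'0) x
      by_cases hxN : x ∈ N' ∧ φ x ≤ s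
      · obtain ⟨v, v', hv, hv', hvv, hTL⟩ := TL_eq hS hx
        have hφx := hpos x hx hxN.1
        have htr' := htrc x hxN.1 hφx.le hxN.2 v v' hv hv' hvv
        have hval := hTL Ψ
        rw [hΨ2 x hxN.1 hxN.2 v, hΨ2 x hxN.1 hxN.2 v'] at hval
        rcases le_or_gt (φ x) b with hxb | hxb
        · obtain ⟨hw'0, hw''0⟩ := hwb (φ x) hxb
          have e1 : 0 ≤ deriv (deriv w) (φ x) * (fderiv ℝ φ x v) ^ 2 :=
            mul_nonneg hw''0 (sq_nonneg _)
          have e2 : 0 ≤ deriv (deriv w) (φ x) * (fderiv ℝ φ x v') ^ 2 :=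
            mul_nonneg hw''0 (sq_nonneg _)
          have e3 : deriv w (φ x) * c ≤ deriv w (φ x) * (D2 φ x v v + D2 φ x v' v') :=
            mul_le_mul_of_nonneg_left htr' hw'0
          have e4 : deriv w (φ x) * c ≤ TL S Ψ x := by
            rw [hval]
            nlinarith
          by_cases hxa : a ≤ φ x
          · rw [indicator_of_mem (show x ∈ N' ∩ φ ⁻¹' Icc a b from ⟨hxN.1, hxa, hxb⟩)]
            have h1 := hwab (φ x) ⟨hxa, hxb⟩
            rw [h1, one_mul] at e4
            linarith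
          · rw [indicator_of_notMem (fun h => hxa h.2.1)]
            have : 0 ≤ deriv w (φ x) * c := mul_nonneg hw'0 hc.le
            linarith
        · rw [indicator_of_notMem (fun h => absurd h.2.2 (not_le.2 hxb)),
            indicator_of_mem (show x ∈ T₀ from ⟨subset_closure hx, hxN.1, hxb.le, hxN.2⟩)]
          obtain ⟨hw1', hw2'⟩ := hwC' (φ x) hxb.le
          have bD : ∀ v : E3, ‖v‖ = 1 → |D2 φ x v v| ≤ |M₁| := fun v hv => by
            have h1 := (fderiv ℝ (fderiv ℝ φ) x).le_opNorm₂ v v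
            rw [hv, mul_one, mul_one] at h1
            exact h1.trans ((hM₁ x hxN.1).trans (le_abs_self _))
          have bF : ∀ v : E3, ‖v‖ = 1 → (fderiv ℝ φ x v) ^ 2 ≤ M₂ ^ 2 := fun v hv => by
            have h1 := (fderiv ℝ φ x).le_opNorm v
            rw [hv, mul_one] at h1
            have h2 : |fderiv ℝ φ x v| ≤ M₂ := h1.trans (hM₂ x hxN.1)
            rw [← sq_abs]
            exact pow_le_pow_left₀ (abs_nonneg _) h2 2
          have p1 : ∀ v : E3, ‖v‖ = 1 → -(C * |M₁|) ≤ deriv w (φ x) * D2 φ x v v := fun v hv => by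
            have h1 : |deriv w (φ x) * D2 φ x v v| ≤ C * |M₁| := by
              rw [abs_mul]
              exact mul_le_mul hw1' (bD v hv) (abs_nonneg _) hC0
            exact (abs_le.1 h1).1
          have p2 : ∀ v : E3, ‖v‖ = 1 →
              -(C * M₂ ^ 2) ≤ deriv (deriv w) (φ x) * (fderiv ℝ φ x v) ^ 2 := fun v hv => by
            have h1 : |deriv (deriv w) (φ x) * (fderiv ℝ φ x v) ^ 2| ≤ C * M₂ ^ 2 := by
              rw [abs_mul, abs_of_nonneg (sq_nonneg (fderiv ℝ φ x v))]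
              exact mul_le_mul hw2' (bF v hv) (sq_nonneg _) hC0
            exact (abs_le.1 h1).1
          have q1 := p1 v hv
          have q2 := p1 v' hv'
          have q3 := p2 v hv
          have q4 := p2 v' hv'
          rw [hval, hK']
          nlinarith
      · have hnt : x ∉ tsupport Ψ := fun h => by
          obtain ⟨h1, h2, h3⟩ := hΨs x h
          exact hxN ⟨h1, by linarith⟩
        have h0 : fderiv ℝ (fderiv ℝ Ψ) x = 0 :=
          fderiv_of_notMem_tsupport ℝ fun h => hnt (tsupport_fderiv_subset ℝ h)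
        have hTL0 : TL S Ψ x = 0 := by simp [TL, D2, h0]
        rw [indicator_of_notMem (fun h => hxN ⟨h.1, h.2.2.trans hbs.le⟩), hTL0]
        linarith
    have hint2 : Integrable (fun x => TL S Ψ x + T₀.indicator (fun _ => K') x) μ :=
      hTLi.add ((integrable_indicator_iff hT₀m).2 (integrableOn_const hT₀fin.ne))
    have hnn : 0 ≤ᵐ[μ] fun x => TL S Ψ x + T₀.indicator (fun _ => K') x := by
      filter_upwards [hae] with x hx
      exact (indicator_nonneg (fun _ _ => hc.le) x).trans (hpt x hx)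
    have hQm : MeasurableSet (N' ∩ φ ⁻¹' Icc a b) := (hclosed a b).measurableSet
    rw [ENNReal.le_div_iff_mul_le (Or.inl (by simpa using hc)) (Or.inl ENNReal.ofReal_ne_top)]
    calc μ (N' ∩ φ ⁻¹' Icc a b) * ENNReal.ofReal c
        = ∫⁻ x, (N' ∩ φ ⁻¹' Icc a b).indicator (fun _ => ENNReal.ofReal c) x ∂μ := by
          rw [lintegral_indicator hQm, setLIntegral_const, mul_comm]
      _ ≤ ∫⁻ x, ENNReal.ofReal (TL S Ψ x + T₀.indicator (fun _ => K') x) ∂μ := by
          refine lintegral_mono_ae ?_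
          filter_upwards [hae] with x hx
          refine le_trans (le_of_eq ?_) (ENNReal.ofReal_le_ofReal (hpt x hx))
          by_cases hxQ : x ∈ N' ∩ φ ⁻¹' Icc a b
          · rw [indicator_of_mem hxQ, indicator_of_mem hxQ]
          · rw [indicator_of_notMem hxQ, indicator_of_notMem hxQ, ENNReal.ofReal_zero]
      _ = ENNReal.ofReal (∫ x, (TL S Ψ x + T₀.indicator (fun _ => K') x) ∂μ) :=
          (ofReal_integral_eq_lintegral_ofReal hint2 hnn).symm
      _ = ENNReal.ofReal (K' * μ.real T₀) := by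
          rw [integral_add hTLi ((integrable_indicator_iff hT₀m).2 (integrableOn_const hT₀fin.ne)),
            hzero, zero_add, integral_indicator hT₀m, setIntegral_const, smul_eq_mul, mul_comm]
  -- the neighbourhood
  have hfinB : ENNReal.ofReal (K' * μ.real T₀) / ENNReal.ofReal c < ⊤ :=
    ENNReal.div_lt_top ENNReal.ofReal_ne_top (by simpa using hc)
  set Q : ℕ → Set E3 := fun n => N' ∩ φ ⁻¹' Icc (b / ((n : ℝ) + 2)) b with hQ
  have hQmono : Monotone Q := fun m n hmn x hx => by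
    refine ⟨hx.1, le_trans ?_ hx.2.1, hx.2.2⟩
    have : ((m : ℝ) + 2) ≤ (n : ℝ) + 2 := by
      have : (m : ℝ) ≤ n := by exact_mod_cast hmn
      linarith
    exact div_le_div_of_nonneg_left hb.le (by positivity) this
  have hQfin : μ (⋃ n, Q n) < ⊤ := by
    rw [hQmono.measure_iUnion]
    refine lt_of_le_of_lt (iSup_le fun n => ?_) hfinB
    refine hbound _ (by positivity) ?_
    rw [div_lt_iff₀ (by positivity)]
    have : (0 : ℝ) ≤ n := Nat.cast_nonneg n
    nlinarith
  refine ⟨interior N' ∩ φ ⁻¹' Iio b, ?_, ?_, ?_⟩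
  · exact (hφc.mono interior_subset).isOpen_inter_preimage isOpen_interior isOpen_Iio
  · intro x hx
    exact ⟨hKint hx, lt_of_le_of_lt ((hKφ x (hKN hx)).1 hx) hb⟩
  · have hsub : interior N' ∩ φ ⁻¹' Iio b ⊆ Sᶜ ∪ ⋃ n, Q n := by
      rintro x ⟨hxN, hxb⟩
      by_cases hx : x ∈ S
      · right
        have h0 := hpos x hx (interior_subset hxN)
        obtain ⟨n, hn⟩ := exists_nat_gt (b / φ x)
        refine mem_iUnion.2 ⟨n, interior_subset hxN, ?_, le_of_lt hxb⟩
        rw [div_le_iff₀ (by positivity)]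
        rw [div_lt_iff₀ h0] at hn
        nlinarith
      · exact Or.inl hx
    calc μ (interior N' ∩ φ ⁻¹' Iio b) ≤ μ (Sᶜ ∪ ⋃ n, Q n) := measure_mono hsub
      _ ≤ μ Sᶜ + μ (⋃ n, Q n) := measure_union_le _ _
      _ = μ (⋃ n, Q n) := by rw [hμ.null, zero_add]
      _ < ⊤ := hQfin

end Ca98
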