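import Pool.Agent.W_ca8607_h98.NormalA

/-!
# The surface Laplacian and gradient in terms of patches
-/

set_option autoImplicit false

namespace Ca98

open Set Metric Filter Topology
open scoped RealInnerProductSpace

variable {S : Set E3}

/-- The trace of a bilinear form in an orthonormal basis. -/
lemma normal_trace (B : E3 →L[ℝ] E3 →L[ℝ] ℝ) (b b' : OrthonormalBasis (Fin 3) ℝ E3) :
    ∑ k, B (b k) (b k) = ∑ k, B (b' k) (b' k) := by
  set T : E3 →ₗ[ℝ] E3 :=
    (InnerProductSpace.toDual ℝ E3).symm.toLinearEquiv.toLinearMap.comp B.toLinearMap with hT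
  have h : ∀ v : E3, B v v = ⟪v, T v⟫ := fun v => by
    rw [real_inner_comm]
    exact (InnerProductSpace.toDual_symm_apply (x := v) (y := B v)).symm
  simp only [h]
  rw [← LinearMap.trace_eq_sum_inner T b, ← LinearMap.trace_eq_sum_inner T b']

lemma normal_trace_map (B : E3 →L[ℝ] E3 →L[ℝ] ℝ) (M : E3 ≃ₗᵢ[ℝ] E3) :
    ∑ k : Fin 3, B (EuclideanSpace.single k 1) (EuclideanSpace.single k 1) =
      ∑ k : Fin 3, B (M (EuclideanSpace.single k 1)) (M (EuclideanSpace.single k 1)) := by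
  have := normal_trace B (EuclideanSpace.basisFun (Fin 3) ℝ)
    ((EuclideanSpace.basisFun (Fin 3) ℝ).map M)
  simpa using this

lemma normal_nrm {A : E3 ≃ᵃⁱ[ℝ] E3} {u : E2 → ℝ} {r : ℝ} (h : IsPatch S A u r) {z : E2}
    (hz : ‖z‖ < r) :
    nrm S (Fm A u z) = A.symm.linearIsometryEquiv (Nu u z) ∨
      nrm S (Fm A u z) = - A.symm.linearIsometryEquiv (Nu u z) := by
  have hex : ∃ ν, IsNormal S (Fm A u z) ν := ⟨_, (isNormal_iff h hz).2 (Or.inl rfl)⟩
  refine (isNormal_iff h hz).1 ?_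
  rw [nrm, dif_pos hex]
  exact hex.choose_spec

lemma normal_D2_comp (A : E3 ≃ᵃⁱ[ℝ] E3) {Ψ : E3 → ℝ} (hΨ : ContDiff ℝ 2 Ψ) (y v w : E3) :
    D2 (fun q => Ψ (A.symm q)) y v w =
      D2 Ψ (A.symm y) (A.symm.linearIsometryEquiv v) (A.symm.linearIsometryEquiv w) := by
  set M : E3 →L[ℝ] E3 := (A.symm.linearIsometryEquiv.toContinuousLinearEquiv : E3 →L[ℝ] E3) with hM
  have h1 : fderiv ℝ (fun q => Ψ (A.symm q)) = fun q => (fderiv ℝ Ψ (A.symm q)).comp M := by
    funext q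
    exact ((hΨ.differentiable (by norm_num) _).hasFDerivAt.comp q (normalA_hasFDerivAt A.symm q)).fderiv
  have h2 : ContDiff ℝ 1 (fderiv ℝ Ψ) := hΨ.fderiv_right (by norm_num)
  have h3 := ((h2.differentiable (by norm_num) (A.symm y)).hasFDerivAt.comp y
    (normalA_hasFDerivAt A.symm y))
  have h4 := h3.clm_comp (hasFDerivAt_const M y)
  have h5 : fderiv ℝ (fun q => (fderiv ℝ Ψ (A.symm q)).comp M) y = _ := h4.fderiv
  rw [D2, h1, h5]
  simp [D2, hM]

/-- The surface Laplacian of an ambient function in a patch. -/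
theorem TL_patch {A : E3 ≃ᵃⁱ[ℝ] E3} {u : E2 → ℝ} {r : ℝ} (h : IsPatch S A u r) {z : E2}
    (hz : ‖z‖ < r) {Ψ : E3 → ℝ} (hΨ : ContDiff ℝ 2 Ψ) :
    TL S Ψ (Fm A u z) = lapG u (fun q => Ψ (A.symm q)) z := by
  rw [TL, lapG]
  simp only [normal_D2_comp A hΨ]
  congr 1
  · exact normal_trace_map (fderiv ℝ (fderiv ℝ Ψ) (Fm A u z)) A.symm.linearIsometryEquiv
  · rcases normal_nrm h hz with h1 | h1
    · rw [h1]
      rfl
    · rw [h1]
      simp only [D2, map_neg, _root_.neg_apply, neg_neg]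
      rfl

/-- On a minimal surface every point has a unit normal and the surface Laplacian is the sum of the
values of `D²Ψ` at two orthonormal vectors. -/
theorem TL_eq (hS : MinimalSurface S) {x : E3} (hx : x ∈ S) :
    ∃ v w : E3, ‖v‖ = 1 ∧ ‖w‖ = 1 ∧ ⟪v, w⟫ = 0 ∧ ∀ Ψ : E3 → ℝ, TL S Ψ x = D2 Ψ x v v + D2 Ψ x w w := by
  obtain ⟨A, u, r, h, h0, hc, -⟩ := hS.exists_patch hx
  have hz : ‖(0 : E2)‖ < r := by simpa using h.pos
  have hex : ∃ ν, IsNormal S x ν := ⟨_, by
    rw [← h0]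
    exact (isNormal_iff h hz).2 (Or.inl rfl)⟩
  have hnrm : ‖nrm S x‖ = 1 := by
    rw [nrm, dif_pos hex]
    exact hex.choose_spec.1
  have horth : Orthonormal ℝ (({2} : Set (Fin 3)).domRestrict (fun _ => nrm S x)) := by
    constructor
    · intro i
      exact hnrm
    · intro i j hij
      exact absurd (Subtype.ext (i.2.trans j.2.symm)) hij
  obtain ⟨b, hb⟩ := horth.exists_orthonormalBasis_extension_of_card_eq (by simp)
  have hb2 : b 2 = nrm S x := hb 2 rfl
  refine ⟨b 0, b 1, b.orthonormal.1 0, b.orthonormal.1 1, b.orthonormal.2 (by decide), fun Ψ => ?_⟩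
  have h1 := normal_trace (fderiv ℝ (fderiv ℝ Ψ) x) (EuclideanSpace.basisFun (Fin 3) ℝ) b
  simp only [EuclideanSpace.basisFun_apply] at h1
  rw [TL]
  simp only [D2]
  rw [h1, Fin.sum_univ_three, hb2]
  ring

lemma normal_continuous_Nu {u : E2 → ℝ} (hu : ContDiff ℝ 2 u) : Continuous (Nu u) := by
  have h0 := continuous_pd (hu.of_le (by norm_num : (1 : WithTop ℕ∞) ≤ 2)) 0
  have h1 := continuous_pd (hu.of_le (by norm_num : (1 : WithTop ℕ∞) ≤ 2)) 1
  have h2 := continuous_jac (hu.of_le (by norm_num : (1 : WithTop ℕ∞) ≤ 2))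
  unfold Nu
  refine Continuous.smul (continuous_const.div h2 fun z => (jac_pos u z).ne') ?_
  refine (PiLp.continuous_toLp 2 _).comp (continuous_pi fun i => ?_)
  fin_cases i
  · exact h0.neg
  · exact h1.neg
  · exact continuous_const

lemma continuous_lapG {u : E2 → ℝ} (hu : ContDiff ℝ 2 u) {Ψ : E3 → ℝ} (hΨ : ContDiff ℝ 2 Ψ) :
    Continuous (lapG u Ψ) := by
  have h1 : Continuous (fderiv ℝ (fderiv ℝ Ψ)) :=
    (hΨ.fderiv_right (m := 1) (by norm_num)).continuous_fderiv (by norm_num)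
  have h2 : Continuous (fun z => fderiv ℝ (fderiv ℝ Ψ) (up z (u z))) :=
    h1.comp (contDiff_up hu).continuous
  unfold lapG D2
  refine Continuous.sub (continuous_finsetSum _ fun k _ => ?_) ?_
  · exact (h2.clm_apply continuous_const).clm_apply continuous_const
  · exact (h2.clm_apply (normal_continuous_Nu hu)).clm_apply (normal_continuous_Nu hu)

lemma normal_contDiff_comp (A : E3 ≃ᵃⁱ[ℝ] E3) {Ψ : E3 → ℝ} (hΨ : ContDiff ℝ 2 Ψ) :
    ContDiff ℝ 2 (fun q => Ψ (A.symm q)) :=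
  by
  have h : (fun q : E3 => A.symm q) = fun q =>
      (A.symm.linearIsometryEquiv.toContinuousLinearEquiv : E3 →L[ℝ] E3) q + A.symm 0 :=
    funext fun q => normalA_apply A.symm q
  have h2 : ContDiff ℝ 2 (fun q : E3 => A.symm q) := by
    rw [h]
    exact (ContinuousLinearMap.contDiff _).add contDiff_const
  exact hΨ.comp h2

/-- Continuity of the surface Laplacian. -/
theorem continuousOn_TL (hS : MinimalSurface S) {Ψ : E3 → ℝ} (hΨ : ContDiff ℝ 2 Ψ) :
    ContinuousOn (TL S Ψ) S := by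
  intro x hx
  obtain ⟨A, u, r, h, h0, hc, -⟩ := hS.exists_patch hx
  have h1 : Continuous (fun y => lapG u (fun q => Ψ (A.symm q)) (ch A y)) :=
    (continuous_lapG h.smooth (normal_contDiff_comp A hΨ)).comp (continuous_ch A)
  have heq : ∀ y ∈ S ∩ cyl A r, TL S Ψ y = lapG u (fun q => Ψ (A.symm q)) (ch A y) := by
    rintro y ⟨hy, hyc⟩
    conv_lhs => rw [← h.Fm_ch hyc hy]
    exact TL_patch h hyc.1 hΨ
  refine (h1.continuousWithinAt (s := S)).congr_of_eventuallyEq ?_ (heq x ⟨hx, hc⟩)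
  filter_upwards [inter_mem_nhdsWithin S ((isOpen_cyl A r).mem_nhds hc)] with y hy
  exact heq y hy

lemma normal_pd_comp (A : E3 ≃ᵃⁱ[ℝ] E3) {u : E2 → ℝ} (hu : ContDiff ℝ 2 u) {z : E2} {f : E3 → ℝ}
    (hf : DifferentiableAt ℝ f (Fm A u z)) (i : Fin 2) :
    pd (fun w => f (Fm A u w)) i z = fderiv ℝ f (Fm A u z)
      (A.symm.linearIsometryEquiv (up (EuclideanSpace.single i 1) (pd u i z))) := by
  have h := hf.hasFDerivAt.comp z (normalA_hasFDerivAt_Fm A (hu.differentiable (by norm_num) z))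
  have h2 : fderiv ℝ (fun w => f (Fm A u w)) z = _ := h.fderiv
  rw [pd, h2]
  simp [pd]

/-- The tangential gradient product in a patch. -/
theorem grad_patch {A : E3 ≃ᵃⁱ[ℝ] E3} {u : E2 → ℝ} {r : ℝ} (h : IsPatch S A u r) {z : E2}
    (hz : ‖z‖ < r) {f g : E3 → ℝ} (hf : DifferentiableAt ℝ f (Fm A u z))
    (hg : DifferentiableAt ℝ g (Fm A u z)) :
    (∑ i : Fin 2, pd (fun w => f (Fm A u w)) i z *
      (∑ j : Fin 2, co u i j z * pd (fun w => g (Fm A u w)) j z)) =
      jac u z * gS S f g (Fm A u z) := by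
  set M := A.symm.linearIsometryEquiv with hM
  obtain ⟨a, ha⟩ : ∃ a : Fin 3 → ℝ, ∀ k, a k = fderiv ℝ f (Fm A u z) (M (EuclideanSpace.single k 1)) :=
    ⟨_, fun k => rfl⟩
  obtain ⟨b, hb⟩ : ∃ b : Fin 3 → ℝ, ∀ k, b k = fderiv ℝ g (Fm A u z) (M (EuclideanSpace.single k 1)) :=
    ⟨_, fun k => rfl⟩
  have hup0 : ∀ c : ℝ, up (EuclideanSpace.single 0 1) c =
      (EuclideanSpace.single 0 1 : E3) + c • EuclideanSpace.single 2 1 := fun c => by
    ext i
    fin_cases i <;> simp [up]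
  have hup1 : ∀ c : ℝ, up (EuclideanSpace.single 1 1) c =
      (EuclideanSpace.single 1 1 : E3) + c • EuclideanSpace.single 2 1 := fun c => by
    ext i
    fin_cases i <;> simp [up]
  have hNu : Nu u z = (1 / jac u z) • ((-pd u 0 z) • (EuclideanSpace.single 0 1 : E3)
      + (-pd u 1 z) • (EuclideanSpace.single 1 1 : E3) + EuclideanSpace.single 2 1) := by
    ext i
    fin_cases i <;> simp [Nu]
  have hsum : (∑ k : Fin 3, fderiv ℝ f (Fm A u z) (EuclideanSpace.single k 1) *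
      fderiv ℝ g (Fm A u z) (EuclideanSpace.single k 1)) = ∑ k : Fin 3, a k * b k := by
    have := normal_trace_map ((fderiv ℝ f (Fm A u z)).smulRight (fderiv ℝ g (Fm A u z))) M
    simp only [ContinuousLinearMap.smulRight_apply, _root_.smul_apply, smul_eq_mul] at this
    rw [this]
    simp only [ha, hb]
  have hnn : fderiv ℝ f (Fm A u z) (nrm S (Fm A u z)) * fderiv ℝ g (Fm A u z) (nrm S (Fm A u z)) =
      fderiv ℝ f (Fm A u z) (M (Nu u z)) * fderiv ℝ g (Fm A u z) (M (Nu u z)) := by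
    rcases normal_nrm h hz with h1 | h1
    · rw [h1]
    · rw [h1, map_neg, map_neg]
      ring
  rw [gS, hsum, hnn, hNu]
  simp only [Fin.sum_univ_two, Fin.sum_univ_three, normal_pd_comp A h.smooth hf,
    normal_pd_comp A h.smooth hg, hup0, hup1, map_add, map_smul, ← hM, ← ha, ← hb, smul_eq_mul, co,
    Fin.isValue, if_true, if_false, show ((0 : Fin 2) = 1) = False from by simp,
    show ((1 : Fin 2) = 0) = False from by simp, jac_sq]
  have hW0 := (jac_pos u z).ne'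
  have hW := jac_sq u z
  generalize jac u z = W at hW0 hW ⊢
  generalize pd u 0 z = p at hW ⊢
  generalize pd u 1 z = q at hW ⊢
  field_simp
  rw [hW]
  ring

end Ca98
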