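import Pool.Agent.W_ca8607_h98.LipDef
import Pool.Agent.W_ca8607_h98.Normal

/-!
# The tangential gradient in a patch
-/

set_option autoImplicit false

namespace Ca98

open Set Metric Filter Topology

lemma gradC_algebra {p q W a0 a1 a2 X0 X1 : ℝ} (hW : W ≠ 0) (hW2 : W ^ 2 = 1 + p ^ 2 + q ^ 2)
    (h0 : X0 = ((1 + q ^ 2) * a0 - p * q * a1 + p * a2) / W ^ 2)
    (h1 : X1 = (-(p * q * a0) + (1 + p ^ 2) * a1 + q * a2) / W ^ 2) :
    X0 ^ 2 + X1 ^ 2 + (X0 * p + X1 * q) ^ 2 = X0 * a0 + X1 * a1 + (X0 * p + X1 * q) * a2 := by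
  have e0 : (1 + p ^ 2) * X0 + p * q * X1 = a0 + p * a2 := by
    rw [h0, h1]
    field_simp
    rw [hW2]
    ring
  have e1 : p * q * X0 + (1 + q ^ 2) * X1 = a1 + q * a2 := by
    rw [h0, h1]
    field_simp
    rw [hW2]
    ring
  linear_combination X0 * e0 + X1 * e1

lemma gradC_co (A : E3 ≃ᵃⁱ[ℝ] E3) {u : E2 → ℝ} (hu : ContDiff ℝ 2 u) {z : E2} {Ψ : E3 → ℝ}
    (hΨ : DifferentiableAt ℝ Ψ (Fm A u z)) (a : Fin 3 → ℝ)
    (ha : ∀ k, a k = fderiv ℝ Ψ (Fm A u z) (A.symm.linearIsometryEquiv (EuclideanSpace.single k 1))) :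
    gradC A u Ψ z 0 = ((1 + pd u 1 z ^ 2) * a 0 - pd u 0 z * pd u 1 z * a 1 + pd u 0 z * a 2) / jac u z ^ 2 ∧
    gradC A u Ψ z 1 = (-(pd u 0 z * pd u 1 z * a 0) + (1 + pd u 0 z ^ 2) * a 1 + pd u 1 z * a 2) / jac u z ^ 2 := by
  have hup0 : ∀ c : ℝ, up (EuclideanSpace.single 0 1) c =
      (EuclideanSpace.single 0 1 : E3) + c • EuclideanSpace.single 2 1 := fun c => by
    ext i
    fin_cases i <;> simp [up]
  have hup1 : ∀ c : ℝ, up (EuclideanSpace.single 1 1) c =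
      (EuclideanSpace.single 1 1 : E3) + c • EuclideanSpace.single 2 1 := fun c => by
    ext i
    fin_cases i <;> simp [up]
  have hW0 := (jac_pos u z).ne'
  have hW := jac_sq u z
  have e0 : gradC A u Ψ z 0 =
      (∑ j : Fin 2, co u 0 j z * pd (fun w => Ψ (Fm A u w)) j z) / jac u z := by simp [gradC]
  have e1 : gradC A u Ψ z 1 =
      (∑ j : Fin 2, co u 1 j z * pd (fun w => Ψ (Fm A u w)) j z) / jac u z := by simp [gradC]
  rw [e0, e1]
  simp only [Fin.sum_univ_two, normal_pd_comp A hu hΨ, hup0, hup1, map_add, map_smul, ← ha,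
    smul_eq_mul, co, Fin.isValue, if_true, if_false, show ((0 : Fin 2) = 1) = False from by simp,
    show ((1 : Fin 2) = 0) = False from by simp, hW]
  rw [← hW]
  constructor
  · field_simp
    rw [hW]
    ring
  · field_simp
    rw [hW]
    ring

/-- The tangential gradient is not longer than the gradient. -/
theorem norm_gradC_le {A : E3 ≃ᵃⁱ[ℝ] E3} {u : E2 → ℝ} (hu : ContDiff ℝ 2 u) {z : E2} {Ψ : E3 → ℝ}
    (hΨ : DifferentiableAt ℝ Ψ (Fm A u z)) :
    ‖up (gradC A u Ψ z) (fderiv ℝ u z (gradC A u Ψ z))‖ ≤ ‖fderiv ℝ Ψ (Fm A u z)‖ := by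
  obtain ⟨a, ha⟩ : ∃ a : Fin 3 → ℝ, ∀ k, a k =
      fderiv ℝ Ψ (Fm A u z) (A.symm.linearIsometryEquiv (EuclideanSpace.single k 1)) :=
    ⟨_, fun k => rfl⟩
  obtain ⟨h0, h1⟩ := gradC_co A hu hΨ a ha
  set X := gradC A u Ψ z with hX
  set y : E3 := up X (fderiv ℝ u z X) with hy
  have hfd := normalA_fderiv u z X
  have hsq : ‖y‖ ^ 2 = X 0 ^ 2 + X 1 ^ 2 + (X 0 * pd u 0 z + X 1 * pd u 1 z) ^ 2 := by
    rw [hy, norm_sq_up, EuclideanSpace.norm_sq_eq, Fin.sum_univ_two, hfd]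
    simp only [Real.norm_eq_abs, sq_abs]
  have hL : fderiv ℝ Ψ (Fm A u z) (A.symm.linearIsometryEquiv y) =
      X 0 * a 0 + X 1 * a 1 + (X 0 * pd u 0 z + X 1 * pd u 1 z) * a 2 := by
    have hyd : y = X 0 • (EuclideanSpace.single 0 1 : E3) + X 1 • (EuclideanSpace.single 1 1 : E3)
        + (X 0 * pd u 0 z + X 1 * pd u 1 z) • (EuclideanSpace.single 2 1 : E3) := by
      rw [hy, hfd]
      ext i
      fin_cases i <;> simp [up]
    rw [hyd]
    simp only [map_add, map_smul, smul_eq_mul, ha]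
  have hkey : ‖y‖ ^ 2 = fderiv ℝ Ψ (Fm A u z) (A.symm.linearIsometryEquiv y) := by
    rw [hsq, hL]
    exact gradC_algebra (jac_pos u z).ne' (jac_sq u z) h0 h1
  have hle : ‖y‖ ^ 2 ≤ ‖fderiv ℝ Ψ (Fm A u z)‖ * ‖y‖ := by
    rw [hkey]
    have := (fderiv ℝ Ψ (Fm A u z)).le_opNorm (A.symm.linearIsometryEquiv y)
    rw [LinearIsometryEquiv.norm_map] at this
    exact (le_abs_self _).trans this
  rcases (norm_nonneg y).eq_or_lt with h | h
  · rw [← h]
    exact norm_nonneg _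
  · rw [sq] at hle
    exact le_of_mul_le_mul_right hle h

/-- The derivative of a Lipschitz function on the surface in the direction of the tangential gradient. -/
theorem abs_fderiv_gradC_le {S : Set E3} {A : E3 ≃ᵃⁱ[ℝ] E3} {u : E2 → ℝ} {r : ℝ} (h : IsPatch S A u r)
    {z : E2} (hz : ‖z‖ < r) {Ψ η G : E3 → ℝ} (hΨ : DifferentiableAt ℝ Ψ (Fm A u z))
    (hG : SlopeLe S η G) (hG0 : 0 ≤ G (Fm A u z))
    (hη : DifferentiableAt ℝ (fun w => η (Fm A u w)) z) :
    |fderiv ℝ (fun w => η (Fm A u w)) z (gradC A u Ψ z)| ≤ G (Fm A u z) * ‖fderiv ℝ Ψ (Fm A u z)‖ := by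
  set X := gradC A u Ψ z with hX
  set y : E3 := up X (fderiv ℝ u z X) with hy
  have hnorm := norm_gradC_le h.smooth hΨ
  rw [← hX, ← hy] at hnorm
  have hu : DifferentiableAt ℝ u z := h.smooth.differentiable (by norm_num) z
  have hF := (normalA_hasFDerivAt_Fm A hu).hasLineDerivAt X
  have hFX : ((A.symm.linearIsometryEquiv.toContinuousLinearEquiv : E3 →L[ℝ] E3).comp
      (upL.comp ((ContinuousLinearMap.id ℝ E2).prod (fderiv ℝ u z)))) X =
      A.symm.linearIsometryEquiv y := by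
    simp [hy]
  rw [hFX] at hF
  have hη' := hη.hasFDerivAt.hasLineDerivAt X
  have t1 := hF.tendsto_slope_zero.norm
  have t2 := hη'.tendsto_slope_zero.norm
  rw [LinearIsometryEquiv.norm_map] at t1
  have hline : Tendsto (fun t : ℝ => z + t • X) (𝓝[≠] 0) (𝓝 z) := by
    have : Continuous (fun t : ℝ => z + t • X) := by fun_prop
    have h2 := this.tendsto 0
    simp only [zero_smul, add_zero] at h2
    exact h2.mono_left nhdsWithin_le_nhds
  have hFc : Tendsto (fun t : ℝ => Fm A u (z + t • X)) (𝓝[≠] 0) (𝓝 (Fm A u z)) :=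
    ((continuous_Fm A h.smooth.continuous).tendsto z).comp hline
  have key : ∀ ε > 0, |fderiv ℝ (fun w => η (Fm A u w)) z X| ≤ (G (Fm A u z) + ε) * ‖y‖ := by
    intro ε hε
    obtain ⟨δ, hδ, hδ'⟩ := hG (Fm A u z) (h.Fm_mem hz) ε hε
    refine le_of_tendsto_of_tendsto t2 (t1.const_mul (G (Fm A u z) + ε)) ?_
    filter_upwards [hline.eventually (isOpen_ball.mem_nhds (show z ∈ ball (0 : E2) r by simpa using hz)),
      hFc.eventually (ball_mem_nhds _ hδ)] with t h1 h2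
    have h3 := hδ' (Fm A u (z + t • X)) (h.Fm_mem (by simpa using h1)) h2
    rw [norm_smul, norm_smul, Real.norm_eq_abs (η _ - η _), ← dist_eq_norm]
    calc ‖t⁻¹‖ * |η (Fm A u (z + t • X)) - η (Fm A u z)|
        ≤ ‖t⁻¹‖ * ((G (Fm A u z) + ε) * dist (Fm A u (z + t • X)) (Fm A u z)) :=
          mul_le_mul_of_nonneg_left h3 (norm_nonneg _)
      _ = (G (Fm A u z) + ε) * (‖t⁻¹‖ * dist (Fm A u (z + t • X)) (Fm A u z)) := by ring
  have key2 : |fderiv ℝ (fun w => η (Fm A u w)) z X| ≤ G (Fm A u z) * ‖y‖ := by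
    refine le_of_forall_pos_le_add fun ε hε => ?_
    have h1 := key (ε / (‖y‖ + 1)) (by positivity)
    have h2 : ε / (‖y‖ + 1) * ‖y‖ ≤ ε := by
      rw [div_mul_eq_mul_div, div_le_iff₀ (by positivity)]
      nlinarith [norm_nonneg y]
    linarith
  exact key2.trans (mul_le_mul_of_nonneg_left hnorm hG0)

end Ca98
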