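import Pool.Agent.W_ca8607_h98.Base

/-!
# Hopf–Rinow: intrinsic balls of a complete surface are relatively compact in the surface
-/

set_option autoImplicit false

namespace Ca98

open Set Metric Filter Topology

variable {S : Set E3}

lemma hopf_isCompact (S : Set E3) (p : E3) (t : ℝ) : IsCompact (closure {y | Reach S p y t}) := by
  refine Metric.isCompact_of_isClosed_isBounded isClosed_closure (Bornology.IsBounded.closure ?_)
  refine (isBounded_closedBall (x := p) (r := t)).subset fun y hy => ?_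
  rw [mem_closedBall, dist_comm]
  exact Reach.dist_le hy

/-- A little more length stays in the surface. -/
lemma hopf_open (hS : MinimalSurface S) {p : E3} {t : ℝ} (ht : 0 ≤ t)
    (h : closure {y | Reach S p y t} ⊆ S) : ∃ δ > 0, closure {y | Reach S p y (t + δ)} ⊆ S := by
  set C := closure {y | Reach S p y t} with hC
  have hCc : IsCompact C := hopf_isCompact S p t
  have key : ∀ c ∈ C, ∃ δ > 0, ∀ x, dist x c ≤ δ → x ∈ closure S → x ∈ S := fun c hc =>
    hS.isClosed_near (h hc)
  choose! δ hδ hδ' using key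
  have hW : IsOpen (⋃ c ∈ C, ball c (δ c)) := isOpen_biUnion fun c _ => isOpen_ball
  have hCW : C ⊆ ⋃ c ∈ C, ball c (δ c) := fun c hc =>
    mem_iUnion₂.2 ⟨c, hc, mem_ball_self (hδ c hc)⟩
  obtain ⟨ε, hε, hεW⟩ := hCc.exists_cthickening_subset_open hW hCW
  refine ⟨ε, hε, fun x hx => ?_⟩
  have h1 : {y | Reach S p y (t + ε)} ⊆ cthickening ε C := by
    intro y hy
    obtain ⟨m, hm, hmy⟩ := Reach.split hy ht (by linarith)
    have : t + ε - t = ε := by ring
    rw [this] at hmy
    refine mem_cthickening_of_dist_le y m ε C (subset_closure hm) ?_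
    rw [dist_comm]
    exact hmy.dist_le
  have hxW := hεW (closure_minimal h1 isClosed_cthickening hx)
  obtain ⟨c, hc, hxc⟩ := mem_iUnion₂.1 hxW
  refine hδ' c hc x (mem_ball.1 hxc).le ?_
  refine closure_mono (fun y hy => ?_) hx
  exact Reach.right_mem hy

/-- The supremum of the good lengths is good. -/
lemma hopf_closed (hS : MinimalSurface S) (hc : IntrinsicallyComplete S) {p : E3} {t : ℝ}
    (ht : 0 < t) (h : ∀ s < t, closure {y | Reach S p y s} ⊆ S) :
    closure {y | Reach S p y t} ⊆ S := by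
  intro x hx
  obtain ⟨xs, hxs, hlim⟩ := mem_closure_iff_seq_limit.1 hx
  set ε : ℕ → ℝ := fun k => t / (k + 1) with hε
  have hεpos : ∀ k, 0 < ε k := fun k => by positivity
  have hεle : ∀ k, ε k ≤ t := fun k => by
    rw [hε]
    exact div_le_self ht.le (by simp)
  have hεlim : Tendsto ε atTop (𝓝 0) := by
    have := tendsto_one_div_add_atTop_nhds_zero_nat (𝕜 := ℝ)
    have h2 := this.const_mul t
    simp only [mul_one_div, mul_zero] at h2
    exact h2
  have hsplit : ∀ k n, ∃ y, Reach S p y (t - ε k) ∧ Reach S y (xs n) (ε k) := fun k n => by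
    obtain ⟨m, hm, hm'⟩ := Reach.split (hxs n) (sub_nonneg.2 (hεle k)) (by linarith [hεpos k])
    refine ⟨m, hm, ?_⟩
    have : t - (t - ε k) = ε k := by ring
    rwa [this] at hm'
  choose y hy1 hy2 using hsplit
  set F : Ultrafilter ℕ := hyperfilter ℕ with hF
  have hFle : (F : Filter ℕ) ≤ atTop := by
    rw [← Nat.cofinite_eq_atTop]
    exact hyperfilter_le_cofinite
  have hz : ∀ k, ∃ z ∈ closure {y | Reach S p y (t - ε k)}, Tendsto (y k) F (𝓝 z) := fun k => by
    have hcomp := hopf_isCompact S p (t - ε k)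
    obtain ⟨z, hz, hzz⟩ := hcomp.ultrafilter_le_nhds (F.map (y k)) (by
      rw [le_principal_iff, Ultrafilter.coe_map]
      exact mem_map.2 (Filter.mem_of_superset univ_mem fun n _ => subset_closure (hy1 k n)))
    exact ⟨z, hz, hzz⟩
  choose z hz1 hz2 using hz
  have hzS : ∀ k, z k ∈ S := fun k => h _ (by linarith [hεpos k]) (hz1 k)
  have hzx : ∀ k, ∀ᶠ n in (F : Filter ℕ), Reach S (z k) (xs n) (2 * ε k) := fun k => by
    obtain ⟨δ, hδ, hr⟩ := hS.reach_two (hzS k)
    have h1 : ∀ᶠ n in (F : Filter ℕ), dist (y k n) (z k) < min δ (ε k / 2) :=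
      (hz2 k).eventually (ball_mem_nhds _ (lt_min hδ (half_pos (hεpos k))))
    filter_upwards [h1] with n hn
    have h2 := hr (z k) (hzS k) (y k n) (hy1 k n).right_mem (by simpa using hδ)
      (hn.trans_le (min_le_left _ _))
    have h3 : 2 * dist (z k) (y k n) ≤ ε k := by
      rw [dist_comm]
      linarith [hn.trans_le (min_le_right _ _)]
    exact (h2.trans (hy2 k n)).mono (by linarith)
  have hzz : ∀ k l, Reach S (z k) (z l) (2 * ε k + 2 * ε l) := fun k l => by
    obtain ⟨n, h1, h2⟩ := ((hzx k).and (hzx l)).exists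
    exact h1.trans h2.symm
  obtain ⟨q, hq, hzq⟩ := hc z hzS (fun η hη => by
    obtain ⟨N, hN⟩ := Metric.tendsto_atTop.1 hεlim (η / 4) (by positivity)
    refine ⟨N, fun m hm n hn => (hzz m n).mono ?_⟩
    have h1 := hN m hm
    have h2 := hN n hn
    rw [Real.dist_eq, sub_zero, abs_of_pos (hεpos _)] at h1 h2
    linarith)
  have hdist : ∀ k, dist (z k) x ≤ 2 * ε k := fun k => by
    have h1 : Tendsto (fun n => dist (z k) (xs n)) (F : Filter ℕ) (𝓝 (dist (z k) x)) :=
      (tendsto_const_nhds.dist hlim).mono_left hFle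
    exact le_of_tendsto h1 ((hzx k).mono fun n hn => hn.dist_le)
  have hzlim : Tendsto z atTop (𝓝 x) := by
    rw [tendsto_iff_dist_tendsto_zero]
    refine squeeze_zero (fun _ => dist_nonneg) hdist ?_
    simpa using hεlim.const_mul 2
  rw [tendsto_nhds_unique hzlim hzq]
  exact hq

/-- Hopf-Rinow. The closure in `ℝ³` of the set of points reached from `p` in length `t` stays in `S` (it is compact,
being closed and bounded). -/
theorem hopf_rinow (hS : MinimalSurface S) (hc : IntrinsicallyComplete S) {p : E3} (hp : p ∈ S) (t : ℝ) :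
    closure {y | Reach S p y t} ⊆ S := by
  by_contra hne
  set T : Set ℝ := {s | closure {y | Reach S p y s} ⊆ S} with hT
  have hdown : ∀ s s', s ≤ s' → s' ∈ T → s ∈ T := fun s s' hss hs' =>
    (closure_mono fun y hy => Reach.mono hy hss).trans hs'
  have h0 : (0 : ℝ) ∈ T := by
    have : {y | Reach S p y 0} ⊆ {p} := fun y hy => by
      have := Reach.dist_le hy
      exact (dist_le_zero.1 this).symm
    exact (closure_minimal this isClosed_singleton).trans (singleton_subset_iff.2 hp)
  have hbdd : BddAbove T := ⟨t, fun s hs => by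
    by_contra hlt
    exact hne (hdown t s (not_le.1 hlt).le hs)⟩
  have hτ0 : 0 ≤ sSup T := le_csSup hbdd h0
  have hτ : sSup T ∈ T := by
    rcases hτ0.eq_or_lt with h | h
    · rw [← h]
      exact h0
    · refine hopf_closed hS hc h fun s hs => ?_
      obtain ⟨s', hs', hss'⟩ := exists_lt_of_lt_csSup ⟨0, h0⟩ hs
      exact hdown s s' hss'.le hs'
  obtain ⟨δ, hδ, hδT⟩ := hopf_open hS hτ0 hτ
  have := le_csSup hbdd hδT
  linarith

end Ca98
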