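import Mathlib

/-!
# An iteration lemma
-/

set_option autoImplicit false

namespace Ca98

lemma iter_pow {J : ℝ → ℝ} {s t l : ℝ} (hs : 0 < s) (hl : 1 ≤ l)
    (h1 : ∀ s l : ℝ, 0 < s → 1 ≤ l → l * s ≤ t → (3 * l - 2) * J s ≤ J (l * s)) (k : ℕ)
    (hk : l ^ k * s ≤ t) : (3 * l - 2) ^ k * J s ≤ J (l ^ k * s) := by
  induction k with
  | zero => simp
  | succ k ih =>
    have hlk : l ^ k * s ≤ l ^ (k + 1) * s :=
      mul_le_mul_of_nonneg_right (pow_le_pow_right₀ hl (Nat.le_succ k)) hs.le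
    have h2 := ih (hlk.trans hk)
    have h3 := h1 (l ^ k * s) l (by positivity) hl (by
      have : l * (l ^ k * s) = l ^ (k + 1) * s := by ring
      rw [this]
      exact hk)
    have e : l * (l ^ k * s) = l ^ (k + 1) * s := by ring
    rw [e] at h3
    calc (3 * l - 2) ^ (k + 1) * J s = (3 * l - 2) * ((3 * l - 2) ^ k * J s) := by ring
      _ ≤ (3 * l - 2) * J (l ^ k * s) := mul_le_mul_of_nonneg_left h2 (by linarith)
      _ ≤ _ := h3

/-- If `J (λ s) ≥ (3 λ - 2) J s` for all `λ ≥ 1` and `J s ≥ s³/4` for small `s` then `J t ≥ t³/6`. -/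
theorem iterate_growth {J : ℝ → ℝ} {s₀ t : ℝ} (hs₀ : 0 < s₀) (ht : 0 < t)
    (h1 : ∀ s l : ℝ, 0 < s → 1 ≤ l → l * s ≤ t → (3 * l - 2) * J s ≤ J (l * s))
    (h0 : ∀ s, 0 < s → s < s₀ → s ≤ t → s ^ 3 / 4 ≤ J s) : t ^ 3 / 6 ≤ J t := by
  set s : ℝ := min s₀ t / 2 with hs
  have hmin : 0 < min s₀ t := lt_min hs₀ ht
  have hspos : 0 < s := half_pos hmin
  have hss₀ : s < s₀ := (half_lt_self hmin).trans_le (min_le_left _ _)
  have hst : s < t := (half_lt_self hmin).trans_le (min_le_right _ _)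
  set L : ℝ := Real.log (t / s) with hL
  have hR : 1 < t / s := (one_lt_div hspos).2 hst
  have hLpos : 0 < L := Real.log_pos hR
  obtain ⟨n, hn⟩ := exists_nat_ge (max (2 * L) (36 * L ^ 2))
  have hn1 : 2 * L ≤ n := (le_max_left _ _).trans hn
  have hn2 : 36 * L ^ 2 ≤ n := (le_max_right _ _).trans hn
  have hnpos : (0 : ℝ) < n := by linarith
  set x : ℝ := L / n with hx
  have hxpos : 0 < x := by positivity
  have hxhalf : x ≤ 1 / 2 := by
    rw [hx, div_le_iff₀ hnpos]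
    linarith
  set l : ℝ := Real.exp x with hl
  have hl1 : 1 ≤ l := Real.one_le_exp hxpos.le
  have hlle : l ≤ 1 + 2 * x := by
    have h2 := Real.exp_bound_div_one_sub_of_interval hxpos.le (by linarith : x < 1)
    refine h2.trans ?_
    rw [div_le_iff₀ (by linarith)]
    nlinarith
  have hln : l ^ n = t / s := by
    rw [hl, ← Real.exp_nat_mul, hx, mul_div_cancel₀ _ hnpos.ne', hL, Real.exp_log (by positivity)]
  have hlns : l ^ n * s = t := by
    rw [hln, div_mul_cancel₀ _ hspos.ne']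
  have h2 := iter_pow hspos hl1 h1 n hlns.le
  rw [hlns] at h2
  set e : ℝ := l - 1 with he
  have he0 : 0 ≤ e := by linarith
  have hle : e ≤ 2 * x := by linarith
  have hpoly : l ^ 3 * (1 - 3 * e ^ 2) ≤ 3 * l - 2 := by
    have : l = 1 + e := by linarith
    rw [this]
    have h3 : 0 ≤ e ^ 3 := by positivity
    have h4 : 0 ≤ e ^ 4 := by positivity
    have h5 : 0 ≤ e ^ 5 := by positivity
    nlinarith
  have hne : (n : ℝ) * e ^ 2 ≤ 1 / 9 := by
    have h3 : e ^ 2 ≤ (2 * x) ^ 2 := pow_le_pow_left₀ he0 hle 2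
    calc (n : ℝ) * e ^ 2 ≤ n * (2 * x) ^ 2 := mul_le_mul_of_nonneg_left h3 hnpos.le
      _ = 4 * L ^ 2 / n := by
        rw [hx]
        field_simp
        ring
      _ ≤ 1 / 9 := by
        rw [div_le_iff₀ hnpos]
        linarith
  have he1 : 3 * e ^ 2 ≤ 1 := by
    have hn1' : (1 : ℝ) ≤ n := by
      have : 0 < n := by exact_mod_cast hnpos
      exact_mod_cast this
    nlinarith [sq_nonneg e]
  have hbern : 1 + (n : ℝ) * (-(3 * e ^ 2)) ≤ (1 + -(3 * e ^ 2)) ^ n :=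
    one_add_mul_le_pow (by linarith) n
  have hpow : (2 : ℝ) / 3 ≤ (1 - 3 * e ^ 2) ^ n := by
    have : 1 + -(3 * e ^ 2) = 1 - 3 * e ^ 2 := by ring
    rw [this] at hbern
    refine le_trans ?_ hbern
    linarith
  have h3 : (l ^ 3 * (1 - 3 * e ^ 2)) ^ n ≤ (3 * l - 2) ^ n :=
    pow_le_pow_left₀ (mul_nonneg (by positivity) (by linarith)) hpoly n
  have h4 : (l ^ 3 * (1 - 3 * e ^ 2)) ^ n = (t / s) ^ 3 * (1 - 3 * e ^ 2) ^ n := by
    rw [mul_pow, ← pow_mul, mul_comm 3 n, pow_mul, hln]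
  have hJs := h0 s hspos hss₀ hst.le
  calc t ^ 3 / 6 = ((t / s) ^ 3 * (2 / 3)) * (s ^ 3 / 4) := by
        field_simp
        ring
    _ ≤ ((t / s) ^ 3 * (1 - 3 * e ^ 2) ^ n) * (s ^ 3 / 4) := by
        refine mul_le_mul_of_nonneg_right ?_ (by positivity)
        exact mul_le_mul_of_nonneg_left hpow (by positivity)
    _ ≤ (3 * l - 2) ^ n * (s ^ 3 / 4) := by
        rw [← h4]
        exact mul_le_mul_of_nonneg_right h3 (by positivity)
    _ ≤ (3 * l - 2) ^ n * J s :=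
        mul_le_mul_of_nonneg_left hJs (pow_nonneg (by linarith) n)
    _ ≤ J t := h2

end Ca98
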