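import Pool.Agent.W_ca8607_h98.IntPatch

/-!
# The area of small intrinsic balls
-/

set_option autoImplicit false

namespace Ca98

open Set Metric Filter Topology MeasureTheory

variable {S : Set E3} {μ : Measure E3}

/-- Small intrinsic balls of radius `s` have area at least `2 s²`. -/
theorem small_ball (hS : MinimalSurface S) (hμ : IsArea S μ) {p : E3} (hp : p ∈ S) :
    ∃ s₀ > 0, ∀ s, 0 < s → s < s₀ → ENNReal.ofReal (2 * s ^ 2) ≤ μ (bl S p s) := by
  obtain ⟨A, u, r, h, h0, hc, hd⟩ := hS.exists_patch hp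
  have hcont : Continuous (fderiv ℝ u) := h.smooth.continuous_fderiv (by norm_num)
  have h1 : ∀ᶠ z in 𝓝 (0 : E2), ‖fderiv ℝ u z‖ < 1 / 10 :=
    (hcont.norm.tendsto 0).eventually (gt_mem_nhds (by simp [hd]))
  obtain ⟨ρ, hρ, hρ'⟩ := Metric.eventually_nhds_iff_ball.1 h1
  refine ⟨min ρ r, lt_min hρ h.pos, fun s hs hs0 => ?_⟩
  have hsρ : s < ρ := hs0.trans_le (min_le_left _ _)
  have hsr : s < r := hs0.trans_le (min_le_right _ _)
  have hF := measurableEmbedding_Fm A h.smooth.continuous
  set B : Set E2 := ball 0 (10 / 11 * s) with hB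
  set E : Set E3 := Fm A u '' B with hE
  have hEm : MeasurableSet E := hF.measurableSet_image.2 measurableSet_ball
  have hEbl : E ⊆ bl S p s := by
    rintro _ ⟨z, hz, rfl⟩
    have hz' : ‖z‖ < 10 / 11 * s := by simpa [hB] using hz
    have hzr : ‖z‖ < r := by linarith
    have key := h.reach (z := 0) (w := z) (k := 1 / 10) (by simpa using h.pos) hzr (by norm_num)
      (fun ζ hζ => by
        refine (hρ' ζ ?_).le
        exact (convex_ball (0 : E2) ρ).segment_subset (mem_ball_self hρ)
          (by simp only [mem_ball, dist_zero_right]; linarith) hζ)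
    rw [h0, dist_zero_left] at key
    exact ⟨_, by linarith, key⟩
  have hvol : ENNReal.ofReal (2 * s ^ 2) ≤ volume B := by
    rw [hB, EuclideanSpace.volume_ball_fin_two, ← ENNReal.ofReal_pow (by positivity),
      ← ENNReal.ofReal_mul (by positivity)]
    refine ENNReal.ofReal_le_ofReal ?_
    have hpi : 3 < Real.pi := Real.pi_gt_three
    nlinarith [sq_nonneg s, pow_pos hs 2]
  calc ENNReal.ofReal (2 * s ^ 2) ≤ volume B := hvol
    _ = ∫⁻ _ in B, 1 := by simp
    _ ≤ ∫⁻ z in B, ENNReal.ofReal (jac u z) := by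
        refine lintegral_mono fun z => ?_
        rw [← ENNReal.ofReal_one]
        exact ENNReal.ofReal_le_ofReal (one_le_jac u z)
    _ ≤ ∫⁻ z in ball (0 : E2) r ∩ Fm A u ⁻¹' E, ENNReal.ofReal (jac u z) := by
        refine lintegral_mono_set fun z hz => ⟨?_, mem_image_of_mem _ hz⟩
        have hz' : ‖z‖ < 10 / 11 * s := by simpa [hB] using hz
        simp only [mem_ball, dist_zero_right]
        linarith
    _ = μ (E ∩ cyl A r) := (measure_patch hμ h hEm).symm
    _ ≤ μ (bl S p s) := measure_mono (inter_subset_left.trans hEbl)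

end Ca98
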