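import Pool.Agent.W_ca8607_h98.WeakBall
import Pool.Agent.W_ca8607_h98.Hopf
import Pool.Agent.W_ca8607_h98.Small
import Pool.Agent.W_ca8607_h98.Iter

/-!
# Area growth of intrinsic balls
-/

set_option autoImplicit false

namespace Ca98

open Set Metric Filter Topology MeasureTheory

variable {S : Set E3} {μ : Measure E3}

/-- Intrinsic balls of radius `t` of a complete minimal surface have area at least `t²/2`. -/
theorem growth (hS : MinimalSurface S) (hc : IntrinsicallyComplete S) (hμ : IsArea S μ) {p : E3}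
    (hp : p ∈ S) {t : ℝ} (ht : 0 < t) : ENNReal.ofReal (t ^ 2 / 2) ≤ μ (bl S p t) := by
  have hcl : ∀ s, closure (bl S p s) ⊆ S := fun s =>
    (closure_mono (bl_subset_reach S p s)).trans (hopf_rinow hS hc hp s)
  have hbas := fun s => integrableOn_rad hS hμ p (hcl s)
  obtain ⟨a, ha⟩ : ∃ a : ℝ → ℝ, ∀ s, a s = μ.real (bl S p s) := ⟨_, fun s => rfl⟩
  obtain ⟨J, hJ⟩ : ∃ J : ℝ → ℝ, ∀ s, J s = ∫ x in bl S p s, (s - rad S p x) ∂μ := ⟨_, fun s => rfl⟩
  have hconst : ∀ s (k : ℝ), IntegrableOn (fun _ => k) (bl S p s) μ := fun s k =>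
    integrableOn_const (hbas s).2.1.ne
  have hint : ∀ s (k : ℝ), IntegrableOn (fun x => k - rad S p x) (bl S p s) μ := fun s k =>
    (hconst s k).sub (hbas s).2.2
  have hval : ∀ s (k : ℝ), ∫ x in bl S p s, (k - rad S p x) ∂μ =
      k * a s - ∫ x in bl S p s, rad S p x ∂μ := fun s k => by
    rw [integral_sub (hconst s k) (hbas s).2.2, setIntegral_const, ha, smul_eq_mul, mul_comm]
  have h3 : ∀ s, 3 * J s ≤ s * a s := fun s => by
    have h1 := weak_ball hS hμ hp (hcl s)
    have h2 := hval s s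
    rw [hJ]
    linarith
  have hmono : ∀ s s', s ≤ s' → ∫ x in bl S p s, (s' - rad S p x) ∂μ ≤ J s' := fun s s' hss => by
    rw [hJ]
    refine setIntegral_mono_set (hint s' s') ?_ (bl_mono hss).eventuallyLE
    filter_upwards [ae_restrict_mem (hbas s').1] with x hx
    have := (mem_bl_iff.1 hx).2
    simp only [Pi.zero_apply]
    linarith
  have h1 : ∀ s l : ℝ, 0 < s → 1 ≤ l → l * s ≤ t → (3 * l - 2) * J s ≤ J (l * s) := by
    intro s l hs hl _
    have hss : s ≤ l * s := by nlinarith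
    have e1 := hmono s (l * s) hss
    have e2 := hval s (l * s)
    have e3 := hval s s
    rw [← hJ] at e3
    have e4 := h3 s
    rw [e2] at e1
    nlinarith
  obtain ⟨s₀, hs₀, hs₀'⟩ := small_ball hS hμ hp
  have h0 : ∀ s, 0 < s → s < s₀ → s ≤ t → s ^ 3 / 4 ≤ J s := by
    intro s hs hss _
    have e1 := hmono (s / 2) s (by linarith)
    have e2 : ∫ x in bl S p (s / 2), (s / 2) ∂μ ≤ ∫ x in bl S p (s / 2), (s - rad S p x) ∂μ := by
      refine setIntegral_mono_on (hconst _ _) (hint _ _) (hbas _).1 fun x hx => ?_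
      have := (mem_bl_iff.1 hx).2
      linarith
    rw [setIntegral_const, smul_eq_mul] at e2
    have e3 := hs₀' (s / 2) (by linarith) (by linarith)
    have e4 : 2 * (s / 2) ^ 2 ≤ μ.real (bl S p (s / 2)) := by
      rw [Measure.real]
      exact (ENNReal.ofReal_le_iff_le_toReal (hbas _).2.1.ne).1 e3
    have e5 : 2 * (s / 2) ^ 2 * (s / 2) ≤ μ.real (bl S p (s / 2)) * (s / 2) :=
      mul_le_mul_of_nonneg_right e4 (by linarith)
    have e6 : s ^ 3 / 4 = 2 * (s / 2) ^ 2 * (s / 2) := by ring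
    linarith
  have h4 := iterate_growth hs₀ ht h1 h0
  have h5 := h3 t
  rw [ENNReal.ofReal_le_iff_le_toReal (hbas t).2.1.ne]
  change t ^ 2 / 2 ≤ μ.real (bl S p t)
  rw [← ha]
  have h6 : t * (t ^ 2 / 2) ≤ t * a t := by
    have : t * (t ^ 2 / 2) = 3 * (t ^ 3 / 6) := by ring
    linarith
  exact le_of_mul_le_mul_left h6 ht

end Ca98
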