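import Pool.Agent.W_ca8607_h98.SObs

/-!
# Examples of obstacles: closed balls, points, and compact subsets of curves
-/

set_option autoImplicit false

namespace Ca98

open Set Metric Filter Topology
open scoped RealInnerProductSpace

lemma links_hasFDerivAt_normSq (a x : E3) (r : ℝ) :
    HasFDerivAt (fun x : E3 => ‖x - a‖ ^ 2 - r ^ 2) ((2 : ℝ) • innerSL ℝ (x - a)) x := by
  have h := ((hasFDerivAt_id x).sub_const a).norm_sq
  have h2 := h.sub_const (r ^ 2)
  refine h2.congr_fderiv ?_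
  ext v
  simp

lemma links_D2_normSq (a x v w : E3) (r : ℝ) :
    D2 (fun x : E3 => ‖x - a‖ ^ 2 - r ^ 2) x v w = 2 * ⟪v, w⟫ := by
  have h : fderiv ℝ (fun x : E3 => ‖x - a‖ ^ 2 - r ^ 2) =
      fun x => (2 : ℝ) • innerSL ℝ (x - a) := by
    ext1 x
    exact (links_hasFDerivAt_normSq a x r).fderiv
  have h2 : HasFDerivAt (fun x : E3 => (2 : ℝ) • innerSL ℝ (x - a))
      ((2 : ℝ) • innerSL ℝ) x := by
    have := ((innerSL ℝ (E := E3)).hasFDerivAt (x := x - a)).comp x ((hasFDerivAt_id x).sub_const a)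
    exact (this.const_smul (2 : ℝ))
  rw [D2, h, h2.fderiv]
  change (2 : ℝ) * innerSL ℝ v w = _
  rw [innerSL_apply_apply]

/-- Closed balls (and points, `r = 0`) are obstacles. -/
theorem obstacle_closedBall {D : Set E3} {a : E3} {r R : ℝ} (hr : 0 ≤ r) (hrR : r < R)
    (hdisj : Disjoint (closedBall a r) D) (hD : ball a R \ closedBall a r ⊆ D) :
    SObstacle D (closedBall a r) := by
  refine ⟨isCompact_closedBall a r, hdisj, ball a R, fun x => ‖x - a‖ ^ 2 - r ^ 2, isOpen_ball,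
    closedBall_subset_ball hrR, hD, ?_, ?_, ?_⟩
  · refine ContDiff.contDiffOn ?_
    exact ((contDiff_id.sub contDiff_const).norm_sq ℝ).sub contDiff_const
  · intro x _
    rw [mem_closedBall, dist_eq_norm]
    constructor
    · intro h
      have : ‖x - a‖ ^ 2 ≤ r ^ 2 := pow_le_pow_left₀ (norm_nonneg _) h 2
      linarith
    · intro h
      exact le_of_sq_le_sq (by simpa using h) hr
  · intro x _ _ v w hv hw _
    rw [links_D2_normSq, links_D2_normSq, real_inner_self_eq_norm_sq, real_inner_self_eq_norm_sq,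
      hv, hw]
    norm_num

/-- The second derivative of the square of a function at a zero. -/
lemma links_D2_sq {f : E3 → ℝ} {N : Set E3} (hN : IsOpen N) (hf : ContDiffOn ℝ 2 f N) {x : E3}
    (hx : x ∈ N) (h0 : f x = 0) (v : E3) :
    D2 (fun x => f x ^ 2) x v v = 2 * (fderiv ℝ f x v) ^ 2 := by
  have hfx : ∀ y ∈ N, DifferentiableAt ℝ f y := fun y hy =>
    (hf.differentiableOn (by norm_num)).differentiableAt (hN.mem_nhds hy)
  have h1 : fderiv ℝ (fun x => f x ^ 2) =ᶠ[𝓝 x] fun y => (2 * f y) • fderiv ℝ f y := by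
    filter_upwards [hN.mem_nhds hx] with y hy
    have := (hfx y hy).hasFDerivAt.pow 2
    rw [this.fderiv]
    simp
  have h2 : DifferentiableAt ℝ (fderiv ℝ f) x := by
    have := hf.fderiv_of_isOpen hN (m := 1) (by norm_num)
    exact (this.differentiableOn (by norm_num)).differentiableAt (hN.mem_nhds hx)
  have h3 : HasFDerivAt (fun y => (2 * f y) • fderiv ℝ f y)
      ((2 * f x) • fderiv ℝ (fderiv ℝ f) x + ((2 : ℝ) • fderiv ℝ f x).smulRight (fderiv ℝ f x)) x := by
    have := ((hfx x hx).hasFDerivAt.const_mul 2).smul h2.hasFDerivAt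
    exact this
  rw [D2, h1.fderiv_eq, h3.fderiv]
  simp only [h0, mul_zero, zero_smul, zero_add, ContinuousLinearMap.smulRight_apply,
    _root_.smul_apply, smul_eq_mul]
  ring

lemma links_D2_add {f g : E3 → ℝ} {N : Set E3} (hN : IsOpen N) (hf : ContDiffOn ℝ 2 f N)
    (hg : ContDiffOn ℝ 2 g N) {x : E3} (hx : x ∈ N) (v w : E3) :
    D2 (fun x => f x + g x) x v w = D2 f x v w + D2 g x v w := by
  have hd : ∀ {f : E3 → ℝ}, ContDiffOn ℝ 2 f N → ∀ y ∈ N, DifferentiableAt ℝ f y := fun hf y hy =>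
    (hf.differentiableOn (by norm_num)).differentiableAt (hN.mem_nhds hy)
  have h2 : ∀ {f : E3 → ℝ}, ContDiffOn ℝ 2 f N → DifferentiableAt ℝ (fderiv ℝ f) x := fun hf => by
    have := hf.fderiv_of_isOpen hN (m := 1) (by norm_num)
    exact (this.differentiableOn (by norm_num)).differentiableAt (hN.mem_nhds hx)
  have h1 : fderiv ℝ (fun x => f x + g x) =ᶠ[𝓝 x] fun y => fderiv ℝ f y + fderiv ℝ g y := by
    filter_upwards [hN.mem_nhds hx] with y hy
    exact fderiv_add (hd hf y hy) (hd hg y hy)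
  rw [D2, h1.fderiv_eq, D2, D2]
  have h3 := ((h2 hf).hasFDerivAt.add (h2 hg).hasFDerivAt).fderiv
  have h4 : fderiv ℝ (fun y => fderiv ℝ f y + fderiv ℝ g y) x =
      fderiv ℝ (fderiv ℝ f) x + fderiv ℝ (fderiv ℝ g) x := h3
  rw [h4]
  simp

/-- A linear map from space onto the plane does not vanish on a plane. -/
lemma links_not_surjective {L : E3 →L[ℝ] E2} {v w : E3} (hv : ‖v‖ = 1) (hw : ‖w‖ = 1)
    (hvw : ⟪v, w⟫ = 0) (hLv : L v = 0) (hLw : L w = 0) : ¬ Function.Surjective L := by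
  intro hs
  have hli : LinearIndependent ℝ ![v, w] := by
    refine (Orthonormal.linearIndependent (𝕜 := ℝ) (v := ![v, w]) ?_)
    rw [orthonormal_iff_ite]
    intro i j
    fin_cases i <;> fin_cases j <;>
      simp [hv, hw, hvw, real_inner_comm v w]
  have h1 : Module.finrank ℝ (LinearMap.ker L.toLinearMap) + 2 = 3 := by
    have := LinearMap.finrank_range_add_finrank_ker L.toLinearMap
    have hr : LinearMap.range L.toLinearMap = ⊤ := LinearMap.range_eq_top.2 hs
    rw [hr, finrank_top] at this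
    simp only [finrank_euclideanSpace, Fintype.card_fin] at this
    omega
  have h2 : Submodule.span ℝ (Set.range ![v, w]) ≤ LinearMap.ker L.toLinearMap := by
    rw [Submodule.span_le]
    rintro _ ⟨i, rfl⟩
    fin_cases i
    · simpa using hLv
    · simpa using hLw
  have h3 := Submodule.finrank_mono h2
  rw [finrank_span_eq_card hli] at h3
  simp only [Fintype.card_fin] at h3
  omega

/-- Compact subsets `K` of `C²` curves (knots, links, arcs, Cantor sets in a curve) are obstacles: `F : N → ℝ²` is `C²`, vanishes on `K` and is a submersion at the points of `K`. -/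
theorem obstacle_curve {D N K : Set E3} {F : E3 → E2} (hN : IsOpen N) (hF : ContDiffOn ℝ 2 F N)
    (hK : IsCompact K) (hKN : K ⊆ N) (hKF : ∀ x ∈ K, F x = 0)
    (hsub : ∀ x ∈ K, Function.Surjective (fderiv ℝ F x)) (hdisj : Disjoint K D) (hD : N \ K ⊆ D) :
    SObstacle D K := by
  obtain ⟨h, hsupp, hh, -⟩ := hK.isClosed.isOpen_compl.exists_contDiff_support_eq (n := 2)
  have hh2 : ContDiffOn ℝ 2 h N := ContDiff.contDiffOn (by exact_mod_cast hh)
  have hhx : ∀ x, h x = 0 ↔ x ∈ K := fun x => by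
    have : x ∈ Function.support h ↔ x ∈ Kᶜ := by rw [hsupp]
    rw [Function.mem_support, mem_compl_iff] at this
    tauto
  have hF0 : ContDiffOn ℝ 2 (fun x => F x 0) N := (contDiffOn_euclidean.1 hF) 0
  have hF1 : ContDiffOn ℝ 2 (fun x => F x 1) N := (contDiffOn_euclidean.1 hF) 1
  refine ⟨hK, hdisj, N, fun x => (F x 0 ^ 2 + F x 1 ^ 2) + h x ^ 2, hN, hKN, hD, ?_, ?_, ?_⟩
  · exact ((hF0.pow 2).add (hF1.pow 2)).add (hh2.pow 2)
  · intro x _
    constructor
    · intro hx
      have h0 := hKF x hx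
      simp [h0, (hhx x).2 hx]
    · intro hx
      have : h x ^ 2 = 0 := by nlinarith [sq_nonneg (F x 0), sq_nonneg (F x 1), sq_nonneg (h x)]
      exact (hhx x).1 (by simpa using this)
  · intro x hx h0 v w hv hw hvw
    have e1 : h x ^ 2 = 0 := by nlinarith [sq_nonneg (F x 0), sq_nonneg (F x 1), sq_nonneg (h x)]
    have e2 : F x 0 ^ 2 = 0 := by nlinarith [sq_nonneg (F x 0), sq_nonneg (F x 1), sq_nonneg (h x)]
    have e3 : F x 1 ^ 2 = 0 := by nlinarith [sq_nonneg (F x 0), sq_nonneg (F x 1), sq_nonneg (h x)]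
    rw [sq_eq_zero_iff] at e1 e2 e3
    have hxK : x ∈ K := (hhx x).1 e1
    have hD2 : ∀ v : E3, D2 (fun x => (F x 0 ^ 2 + F x 1 ^ 2) + h x ^ 2) x v v =
        2 * (fderiv ℝ F x v 0) ^ 2 + 2 * (fderiv ℝ F x v 1) ^ 2 + 2 * (fderiv ℝ h x v) ^ 2 := by
      intro v
      rw [links_D2_add hN ((hF0.pow 2).add (hF1.pow 2)) (hh2.pow 2) hx,
        links_D2_add hN (hF0.pow 2) (hF1.pow 2) hx, links_D2_sq hN hF0 hx e2,
        links_D2_sq hN hF1 hx e3, links_D2_sq hN hh2 hx e1]
      have hFd : DifferentiableAt ℝ F x :=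
        (hF.differentiableOn (by norm_num)).differentiableAt (hN.mem_nhds hx)
      have hcomp : ∀ i : Fin 2, fderiv ℝ (fun x => F x i) x v = fderiv ℝ F x v i := fun i => by
        have h3 : HasFDerivAt (fun y : E2 => y i) (EuclideanSpace.proj i : E2 →L[ℝ] ℝ) (F x) :=
          (EuclideanSpace.proj i : E2 →L[ℝ] ℝ).hasFDerivAt
        have h2 : fderiv ℝ (fun x => F x i) x =
            (EuclideanSpace.proj i : E2 →L[ℝ] ℝ).comp (fderiv ℝ F x) :=
          (h3.comp x hFd.hasFDerivAt).fderiv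
        rw [h2]
        simp
      rw [hcomp 0, hcomp 1]
    rw [hD2, hD2]
    by_contra hneg
    rw [not_lt] at hneg
    have sqn : ∀ a : ℝ, 0 ≤ a ^ 2 := sq_nonneg
    have a1 : (fderiv ℝ F x v 0) ^ 2 = 0 := by
      nlinarith [sqn (fderiv ℝ F x v 0), sqn (fderiv ℝ F x v 1), sqn (fderiv ℝ F x w 0),
        sqn (fderiv ℝ F x w 1), sqn (fderiv ℝ h x v), sqn (fderiv ℝ h x w)]
    have a2 : (fderiv ℝ F x v 1) ^ 2 = 0 := by
      nlinarith [sqn (fderiv ℝ F x v 0), sqn (fderiv ℝ F x v 1), sqn (fderiv ℝ F x w 0),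
        sqn (fderiv ℝ F x w 1), sqn (fderiv ℝ h x v), sqn (fderiv ℝ h x w)]
    have a3 : (fderiv ℝ F x w 0) ^ 2 = 0 := by
      nlinarith [sqn (fderiv ℝ F x v 0), sqn (fderiv ℝ F x v 1), sqn (fderiv ℝ F x w 0),
        sqn (fderiv ℝ F x w 1), sqn (fderiv ℝ h x v), sqn (fderiv ℝ h x w)]
    have a4 : (fderiv ℝ F x w 1) ^ 2 = 0 := by
      nlinarith [sqn (fderiv ℝ F x v 0), sqn (fderiv ℝ F x v 1), sqn (fderiv ℝ F x w 0),
        sqn (fderiv ℝ F x w 1), sqn (fderiv ℝ h x v), sqn (fderiv ℝ h x w)]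
    rw [sq_eq_zero_iff] at a1 a2 a3 a4
    refine links_not_surjective hv hw hvw ?_ ?_ (hsub x hxK)
    · ext i
      fin_cases i
      · simpa using a1
      · simpa using a2
    · ext i
      fin_cases i
      · simpa using a3
      · simpa using a4

end Ca98
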