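import Pool.Agent.W_ca8607_h98.SObs
import Pool.Agent.W_ca8607_h98.Barrier

/-!
# Strictly mean-convex bodies are strong obstacles
-/

set_option autoImplicit false

namespace Ca98

open Set Metric Filter Topology
open scoped RealInnerProductSpace

/-- The second derivative of `exp (kφ) - 1` where `φ = 0`. -/
lemma meanC_D2_exp {f : E3 → ℝ} {N : Set E3} (hN : IsOpen N) (hf : ContDiffOn ℝ 2 f N) {x : E3}
    (hx : x ∈ N) (h0 : f x = 0) (k : ℝ) (v : E3) :
    D2 (fun x => Real.exp (k * f x) - 1) x v v = k * (D2 f x v v + k * (fderiv ℝ f x v) ^ 2) := by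
  have hfx : ∀ y ∈ N, HasFDerivAt f (fderiv ℝ f y) y := fun y hy =>
    ((hf.differentiableOn (by norm_num)).differentiableAt (hN.mem_nhds hy)).hasFDerivAt
  have hexp : ∀ y ∈ N, HasFDerivAt (fun y => Real.exp (k * f y))
      ((Real.exp (k * f y) * k) • fderiv ℝ f y) y := fun y hy => by
    have h1 := ((hfx y hy).const_mul k).exp
    refine h1.congr_fderiv ?_
    rw [smul_smul]
  have h1 : fderiv ℝ (fun x => Real.exp (k * f x) - 1) =ᶠ[𝓝 x]
      fun y => (Real.exp (k * f y) * k) • fderiv ℝ f y := by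
    filter_upwards [hN.mem_nhds hx] with y hy
    exact ((hexp y hy).sub_const 1).fderiv
  have h2 : HasFDerivAt (fderiv ℝ f) (fderiv ℝ (fderiv ℝ f) x) x := by
    have := hf.fderiv_of_isOpen hN (m := 1) (by norm_num)
    exact ((this.differentiableOn (by norm_num)).differentiableAt (hN.mem_nhds hx)).hasFDerivAt
  have h3 := (((hexp x hx).mul_const k).fun_smul h2).fderiv
  rw [D2, h1.fderiv_eq, h3]
  simp only [h0, mul_zero, Real.exp_zero, one_mul, _root_.add_apply, _root_.smul_apply,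
    ContinuousLinearMap.smulRight_apply, smul_eq_mul, D2]
  ring

/-- Strictly mean-convex bodies are strong obstacles. -/
theorem sobstacle_of_meanConvex {D L N' : Set E3} (hL : IsCompact L) (hdisj : Disjoint L D)
    (hN' : IsOpen N') (hLN : L ⊆ N') (hD : N' \ L ⊆ D) (h : MeanConvex L) : SObstacle D L := by
  obtain ⟨N, φ, hN, hLN2, hφ, hmem, htr⟩ := h
  -- the compact set of data
  set T : Set (E3 × E3 × E3) :=
    {p | (p.1 ∈ L ∧ φ p.1 = 0) ∧ ‖p.2.1‖ = 1 ∧ ‖p.2.2‖ = 1 ∧ ⟪p.2.1, p.2.2⟫ = 0} with hT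
  have hZ : IsCompact {x | x ∈ L ∧ φ x = 0} := by
    have h1 : IsClosed (L ∩ φ ⁻¹' {0}) :=
      (hφ.continuousOn.mono hLN2).preimage_isClosed_of_isClosed hL.isClosed isClosed_singleton
    exact hL.of_isClosed_subset h1 inter_subset_left
  have hTc : IsCompact T := by
    refine ((hZ.prod ((isCompact_sphere (0 : E3) 1).prod (isCompact_sphere (0 : E3) 1))).of_isClosed_subset
      ?_ ?_)
    · have h1 : IsClosed {p : E3 × E3 × E3 | p.1 ∈ L ∧ φ p.1 = 0} :=
        hZ.isClosed.preimage continuous_fst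
      have h2 : IsClosed {p : E3 × E3 × E3 | ‖p.2.1‖ = 1} :=
        isClosed_eq (by fun_prop) continuous_const
      have h3 : IsClosed {p : E3 × E3 × E3 | ‖p.2.2‖ = 1} :=
        isClosed_eq (by fun_prop) continuous_const
      have h4 : IsClosed {p : E3 × E3 × E3 | ⟪p.2.1, p.2.2⟫ = 0} :=
        isClosed_eq (by fun_prop) continuous_const
      exact h1.inter (h2.inter (h3.inter h4))
    · rintro ⟨x, v, w⟩ ⟨h1, h2, h3, -⟩
      exact ⟨h1, by simpa using h2, by simpa using h3⟩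
  have hv : ContinuousOn (fun p : E3 × E3 × E3 => p.2.1) T := by fun_prop
  have hw : ContinuousOn (fun p : E3 × E3 × E3 => p.2.2) T := by fun_prop
  have hA : ContinuousOn (fun p : E3 × E3 × E3 => D2 φ p.1 p.2.1 p.2.1 + D2 φ p.1 p.2.2 p.2.2) T := by
    have h1 : ContinuousOn (fun p : E3 × E3 × E3 => fderiv ℝ (fderiv ℝ φ) p.1) T :=
      (barrier_continuousOn_fderiv hN hφ).comp continuous_fst.continuousOn fun p hp => hLN2 hp.1.1
    exact ((h1.clm_apply hv).clm_apply hv).add ((h1.clm_apply hw).clm_apply hw)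
  have hB : ContinuousOn (fun p : E3 × E3 × E3 =>
      (fderiv ℝ φ p.1 p.2.1) ^ 2 + (fderiv ℝ φ p.1 p.2.2) ^ 2) T := by
    have h1 : ContinuousOn (fun p : E3 × E3 × E3 => fderiv ℝ φ p.1) T := by
      have h0 := (hφ.fderiv_of_isOpen hN (m := 1) (by norm_num)).continuousOn
      exact h0.comp continuous_fst.continuousOn fun p hp => hLN2 hp.1.1
    exact ((h1.clm_apply hv).pow 2).add ((h1.clm_apply hw).pow 2)
  -- the constant `k`
  have hk : ∃ k > 0, ∀ p ∈ T, 0 < (D2 φ p.1 p.2.1 p.2.1 + D2 φ p.1 p.2.2 p.2.2) +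
      k * ((fderiv ℝ φ p.1 p.2.1) ^ 2 + (fderiv ℝ φ p.1 p.2.2) ^ 2) := by
    by_contra hcon
    push Not at hcon
    have hn : ∀ n : ℕ, (0 : ℝ) < (n : ℝ) + 1 := fun n => by positivity
    choose p hpT hp using fun n : ℕ => hcon _ (hn n)
    obtain ⟨q, hq, ψ, hψ, hlim⟩ := hTc.tendsto_subseq hpT
    have hwithin : Tendsto (fun n => p (ψ n)) atTop (𝓝[T] q) :=
      tendsto_nhdsWithin_iff.2 ⟨hlim, Eventually.of_forall fun n => hpT _⟩
    have h1 := (hA q hq).tendsto.comp hwithin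
    have h2 := (hB q hq).tendsto.comp hwithin
    have hinv : Tendsto (fun n => 1 / (((ψ n : ℕ) : ℝ) + 1)) atTop (𝓝 0) :=
      (tendsto_one_div_add_atTop_nhds_zero_nat (𝕜 := ℝ)).comp hψ.tendsto_atTop
    have h3 : (fderiv ℝ φ q.1 q.2.1) ^ 2 + (fderiv ℝ φ q.1 q.2.2) ^ 2 ≤ 0 := by
      have h4 := (h1.neg).mul hinv
      rw [mul_zero] at h4
      refine le_of_tendsto_of_tendsto' h2 h4 fun n => ?_
      have h5 := hp (ψ n)
      have h6 : (0 : ℝ) < ((ψ n : ℕ) : ℝ) + 1 := hn _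
      simp only [Function.comp_apply]
      rw [mul_one_div, le_div_iff₀ h6]
      linarith
    have h4 : D2 φ q.1 q.2.1 q.2.1 + D2 φ q.1 q.2.2 q.2.2 ≤ 0 := by
      refine le_of_tendsto' h1 fun n => ?_
      have h5 := hp (ψ n)
      have h6 : (0 : ℝ) < ((ψ n : ℕ) : ℝ) + 1 := hn _
      simp only [Function.comp_apply]
      nlinarith [sq_nonneg (fderiv ℝ φ (p (ψ n)).1 (p (ψ n)).2.1),
        sq_nonneg (fderiv ℝ φ (p (ψ n)).1 (p (ψ n)).2.2)]
    have s1 := sq_nonneg (fderiv ℝ φ q.1 q.2.1)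
    have s2 := sq_nonneg (fderiv ℝ φ q.1 q.2.2)
    have e1 : fderiv ℝ φ q.1 q.2.1 = 0 := by
      rw [← sq_eq_zero_iff]
      linarith
    have e2 : fderiv ℝ φ q.1 q.2.2 = 0 := by
      rw [← sq_eq_zero_iff]
      linarith
    exact absurd (htr q.1 (hLN2 hq.1.1) hq.1.2 q.2.1 q.2.2 hq.2.1 hq.2.2.1 hq.2.2.2 e1 e2)
      (not_lt.2 h4)
  obtain ⟨k, hk0, hk⟩ := hk
  refine ⟨hL, hdisj, N ∩ N', fun x => Real.exp (k * φ x) - 1, hN.inter hN', subset_inter hLN2 hLN,
    (diff_subset_diff_left inter_subset_right).trans hD, ?_, ?_, ?_⟩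
  · have h1 : ContDiffOn ℝ 2 φ (N ∩ N') := hφ.mono inter_subset_left
    exact ((contDiffOn_const.mul h1).exp).sub contDiffOn_const
  · intro x hx
    rw [hmem x hx.1, sub_nonpos, Real.exp_le_one_iff]
    constructor
    · intro h
      exact mul_nonpos_of_nonneg_of_nonpos hk0.le h
    · intro h
      by_contra hlt
      exact absurd h (not_le.2 (mul_pos hk0 (not_le.1 hlt)))
  · intro x hx h0 v w hv hw hvw
    have h1 : φ x = 0 := by
      have : Real.exp (k * φ x) = 1 := by linarith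
      rw [Real.exp_eq_one_iff] at this
      rcases mul_eq_zero.1 this with h | h
      · exact absurd h hk0.ne'
      · exact h
    have hxL : x ∈ L := (hmem x hx.1).2 h1.le
    rw [meanC_D2_exp hN hφ hx.1 h1, meanC_D2_exp hN hφ hx.1 h1]
    have := hk (x, v, w) ⟨⟨hxL, h1⟩, hv, hw, hvw⟩
    have h2 := mul_pos hk0 this
    simp only at h2
    linarith

end Ca98
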