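import Pool.Agent.W_ca8607_h98.NoAccum
import Pool.Agent.W_ca8607_h98.MeanC
import Pool.Agent.W_ca8607_h98.Links

/-!
# Complete minimal surfaces do not accumulate at holes
-/

set_option autoImplicit false

namespace Ca98

open Set Metric Filter Topology

variable {S D K : Set E3}

/-- The Baire argument: if a compact set `K₁` meets `K = ⋃ L i` then some clopen part of `K` meets `K₁` in
a nonempty subset of some `L i`. -/
theorem exists_clopen_piece {K₁ : Set E3} {L : ℕ → Set E3} (hK : IsCompact K) (hK₁ : IsClosed K₁)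
    (hne : (K₁ ∩ K).Nonempty) (hL : (⋃ i, L i) = K) (hLc : ∀ i, IsCompact (L i))
    (hsat : ∀ i, ∀ x ∈ L i, connectedComponentIn K x ⊆ L i) :
    ∃ (i : ℕ) (A B : Set E3), IsCompact A ∧ IsCompact B ∧ A ∪ B = K ∧ Disjoint A B ∧
      K₁ ∩ A ⊆ L i ∧ (K₁ ∩ A).Nonempty := by
  haveI : CompactSpace K := isCompact_iff_compactSpace.1 hK
  let q : K → ConnectedComponents K := ConnectedComponents.mk
  have hq : Continuous q := ConnectedComponents.continuous_coe
  have hLK : ∀ i, L i ⊆ K := fun i => hL ▸ subset_iUnion L i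
  have hsat' : ∀ i, ∀ x y : K, (x : E3) ∈ L i → q x = q y → (y : E3) ∈ L i := by
    intro i x y hx hxy
    have h1 : y ∈ connectedComponent x := ConnectedComponents.coe_eq_coe'.1 hxy.symm
    refine hsat i x hx ?_
    rw [connectedComponentIn_eq_image x.2]
    exact ⟨y, h1, rfl⟩
  -- the image of `K₁`
  set P₁ : Set (ConnectedComponents K) := q '' (Subtype.val ⁻¹' K₁) with hP₁
  have hP₁c : IsCompact P₁ := ((hK₁.preimage continuous_subtype_val).isCompact).image hq
  have hP₁ne : P₁.Nonempty := by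
    obtain ⟨x, hx1, hx2⟩ := hne
    exact ⟨q ⟨x, hx2⟩, ⟨x, hx2⟩, hx1, rfl⟩
  haveI : CompactSpace P₁ := isCompact_iff_compactSpace.1 hP₁c
  haveI : Nonempty P₁ := hP₁ne.to_subtype
  let f : ℕ → Set P₁ := fun i => Subtype.val ⁻¹' (q '' (Subtype.val ⁻¹' L i))
  have hf : ∀ i, IsClosed (f i) := fun i => by
    have h1 : IsCompact (Subtype.val ⁻¹' L i : Set K) :=
      ((hLc i).isClosed.preimage continuous_subtype_val).isCompact
    exact (h1.image hq).isClosed.preimage continuous_subtype_val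
  have hfU : ⋃ i, f i = univ := by
    rw [eq_univ_iff_forall]
    rintro ⟨p, x, hx, rfl⟩
    have hxK : (x : E3) ∈ ⋃ i, L i := by
      rw [hL]
      exact x.2
    obtain ⟨i, hi⟩ := mem_iUnion.1 hxK
    exact mem_iUnion.2 ⟨i, x, hi, rfl⟩
  obtain ⟨i, ⟨p, hp⟩, hint⟩ := nonempty_interior_of_iUnion_of_closed hf hfU
  obtain ⟨O, hO, hOf⟩ := isOpen_induced_iff.1 (isOpen_interior (s := f i))
  have hpO : p ∈ O := by
    have : (⟨p, hp⟩ : P₁) ∈ Subtype.val ⁻¹' O := by
      rw [hOf]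
      exact hint
    exact this
  obtain ⟨W, hW, hpW, hWO⟩ := compact_exists_isClopen_in_isOpen hO hpO
  have hW' : IsClopen (q ⁻¹' W) := hW.preimage hq
  refine ⟨i, Subtype.val '' (q ⁻¹' W), Subtype.val '' (q ⁻¹' W)ᶜ, ?_, ?_, ?_, ?_, ?_, ?_⟩
  · exact hW'.isClosed.isCompact.image continuous_subtype_val
  · exact hW'.compl.isClosed.isCompact.image continuous_subtype_val
  · rw [← image_union, union_compl_self, image_univ, Subtype.range_coe]
  · exact (disjoint_image_iff Subtype.val_injective).2 disjoint_compl_right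
  · rintro _ ⟨hx, x, hxW, rfl⟩
    have h1 : (⟨q x, x, hx, rfl⟩ : P₁) ∈ Subtype.val ⁻¹' O := hWO hxW
    rw [hOf] at h1
    obtain ⟨y, hy, hyx⟩ := interior_subset h1
    exact hsat' i y x hy hyx
  · obtain ⟨x, hx, rfl⟩ := hp
    exact ⟨x, hx, x, hpW, rfl⟩

/-- A clopen part of a strictly mean-convex body is one. -/
theorem MeanConvex.clopen {L A B : Set E3} (h : MeanConvex L) (hB : IsClosed B)
    (hAB : Disjoint A B) (hL : L ⊆ A ∪ B) : MeanConvex (L ∩ A) := by
  obtain ⟨N, φ, hN, hLN, hφ, hmem, htr⟩ := h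
  refine ⟨N \ B, φ, hN.sdiff hB, ?_, hφ.mono diff_subset, ?_, fun x hx => htr x hx.1⟩
  · rintro x ⟨hx, hxA⟩
    exact ⟨hLN hx, Set.disjoint_left.1 hAB hxA⟩
  · rintro x ⟨hxN, hxB⟩
    rw [← hmem x hxN]
    refine ⟨fun h => h.1, fun h => ⟨h, ?_⟩⟩
    rcases hL h with h1 | h1
    · exact h1
    · exact absurd h1 hxB

/-- Complete minimal surfaces do not accumulate at holes. -/
theorem no_accumulation_hole (hS : MinimalSurface S) (hc : IntrinsicallyComplete S)
    (hcl : ClosedIn S D) (hK : Hole D K) : Disjoint (closure S) K := by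
  by_contra hcon
  rw [Set.not_disjoint_iff_nonempty_inter] at hcon
  obtain ⟨N, hN, hKN, hND⟩ := hK.nhds
  obtain ⟨L, hL, hLi⟩ := hK.pieces
  have hLK : ∀ i, L i ⊆ K := fun i => hL ▸ subset_iUnion L i
  obtain ⟨i, A, B, hA, hB, hAB, hdisj, hsub, hne⟩ := exists_clopen_piece hK.compact isClosed_closure
    hcon hL (fun i => (hLi i).1) (fun i => (hLi i).2.1)
  set D₂ : Set E3 := (D ∪ K) \ ((closure S ∩ K) ∪ (L i ∩ A)) with hD₂
  have hcl₂ : ClosedIn S D₂ := by
    constructor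
    · intro x hx
      have hxD := hcl.1 hx
      have hxK : x ∉ K := fun h => Set.disjoint_left.1 hK.disj h hxD
      refine ⟨Or.inl hxD, ?_⟩
      rintro (h | h)
      · exact hxK h.2
      · exact hxK (hLK i h.1)
    · rintro x ⟨hx, hx1, hx2⟩
      rcases hx1 with h | h
      · exact hcl.2 ⟨hx, h⟩
      · exact absurd (Or.inl ⟨hx, h⟩) hx2
  have hLA : IsCompact (L i ∩ A) := (hLi i).1.inter_right hA.isClosed
  have hdisj₂ : Disjoint (L i ∩ A) D₂ := by
    rw [Set.disjoint_left]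
    intro x hx hx2
    exact hx2.2 (Or.inr hx)
  have hN₂ : IsOpen (N \ B) := hN.sdiff hB.isClosed
  have hLN₂ : L i ∩ A ⊆ N \ B := fun x hx =>
    ⟨hKN (hLK i hx.1), Set.disjoint_left.1 hdisj hx.2⟩
  have hND₂ : (N \ B) \ (L i ∩ A) ⊆ D₂ := by
    rintro x ⟨⟨hxN, hxB⟩, hxL⟩
    by_cases hxK : x ∈ K
    · have hxA : x ∈ A := by
        rw [← hAB] at hxK
        rcases hxK with h | h
        · exact h
        · exact absurd h hxB
      have hxLi : x ∉ L i := fun h => hxL ⟨h, hxA⟩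
      refine ⟨Or.inr hxK, ?_⟩
      rintro (h | h)
      · exact hxLi (hsub ⟨h.1, hxA⟩)
      · exact hxLi h.1
    · refine ⟨Or.inl (hND ⟨hxN, hxK⟩), ?_⟩
      rintro (h | h)
      · exact hxK h.2
      · exact hxL h
  have hobs : SObstacle D₂ (L i ∩ A) := by
    rcases (hLi i).2.2 with h | ⟨M, F, hM, hLM, hF, hF0⟩
    · exact sobstacle_of_meanConvex hLA hdisj₂ hN₂ hLN₂ hND₂
        (h.clopen hB.isClosed hdisj (by rw [hAB]; exact hLK i))
    · exact obstacle_curve (hN₂.inter hM) (hF.mono inter_subset_right) hLA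
        (subset_inter hLN₂ (inter_subset_left.trans hLM)) (fun x hx => (hF0 x hx.1).1)
        (fun x hx => (hF0 x hx.1).2) hdisj₂ ((diff_subset_diff_left inter_subset_left).trans hND₂)
  obtain ⟨x, hx, hxA⟩ := hne
  exact Set.disjoint_left.1 (no_accumulation hS hc hcl₂ hobs) hx ⟨hsub ⟨hx, hxA⟩, hxA⟩

/-- The surface stays closed when the holes are added to the domain. -/
theorem closedIn_union_hole {𝒦 : Set (Set E3)} (hS : MinimalSurface S)
    (hc : IntrinsicallyComplete S) (hD : IsOpen D) (hcl : ClosedIn S D)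
    (h𝒦 : ∀ K ∈ 𝒦, Hole D K) : IsOpen (D ∪ ⋃₀ 𝒦) ∧ ClosedIn S (D ∪ ⋃₀ 𝒦) := by
  constructor
  · rw [isOpen_iff_mem_nhds]
    rintro x (hx | ⟨K, hK, hxK⟩)
    · exact Filter.mem_of_superset (hD.mem_nhds hx) subset_union_left
    · obtain ⟨N, hN, hKN, hND⟩ := (h𝒦 K hK).nhds
      refine Filter.mem_of_superset (hN.mem_nhds (hKN hxK)) fun y hy => ?_
      by_cases hyK : y ∈ K
      · exact Or.inr ⟨K, hK, hyK⟩
      · exact Or.inl (hND ⟨hy, hyK⟩)
  · refine ⟨hcl.1.trans subset_union_left, ?_⟩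
    rintro x ⟨hx, hxD | ⟨K, hK, hxK⟩⟩
    · exact hcl.2 ⟨hx, hxD⟩
    · exact absurd hxK (Set.disjoint_left.1 (no_accumulation_hole hS hc hcl (h𝒦 K hK)) hx)

end Ca98
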