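import Pool.Agent.W_ca8607_h98.LipDef

/-!
# Lipschitz functions on a surface, pulled back to a patch
-/

set_option autoImplicit false

namespace Ca98

open Set Metric Filter Topology MeasureTheory
open scoped NNReal

variable {S : Set E3}

/-- Products of Lipschitz functions on a bounded set. -/
lemma lipCut_mul {a b : E2 → ℝ} {t : Set E2} {z : E2} {Ka Kb : ℝ≥0} (ha : LipschitzOnWith Ka a t)
    (hb : LipschitzOnWith Kb b t) (hz : z ∈ t) (ht : t ⊆ ball z 1) :
    ∃ K : ℝ≥0, LipschitzOnWith K (fun w => a w * b w) t := by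
  have hbd : ∀ {f : E2 → ℝ} {K : ℝ≥0}, LipschitzOnWith K f t → ∀ w ∈ t, |f w| ≤ |f z| + K := by
    intro f K hf w hw
    have h1 := hf.dist_le_mul w hw z hz
    rw [Real.dist_eq] at h1
    have h2 : dist w z ≤ 1 := (mem_ball.1 (ht hw)).le
    have h3 : (K : ℝ) * dist w z ≤ K := mul_le_of_le_one_right K.2 h2
    have h4 := abs_sub_abs_le_abs_sub (f w) (f z)
    linarith
  refine ⟨⟨(|a z| + Ka) * Kb + (|b z| + Kb) * Ka, by positivity⟩,
    LipschitzOnWith.of_dist_le_mul fun w hw w' hw' => ?_⟩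
  have h1 := ha.dist_le_mul w hw w' hw'
  have h2 := hb.dist_le_mul w hw w' hw'
  rw [Real.dist_eq] at h1 h2 ⊢
  have h3 : a w * b w - a w' * b w' = a w * (b w - b w') + b w' * (a w - a w') := by ring
  rw [h3]
  calc |a w * (b w - b w') + b w' * (a w - a w')|
      ≤ |a w * (b w - b w')| + |b w' * (a w - a w')| := abs_add_le _ _
    _ = |a w| * |b w - b w'| + |b w'| * |a w - a w'| := by rw [abs_mul, abs_mul]
    _ ≤ (|a z| + Ka) * (Kb * dist w w') + (|b z| + Kb) * (Ka * dist w w') :=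
        add_le_add (mul_le_mul (hbd ha w hw) h2 (abs_nonneg _) (by positivity))
          (mul_le_mul (hbd hb w' hw') h1 (abs_nonneg _) (by positivity))
    _ = ((|a z| + Ka) * Kb + (|b z| + Kb) * Ka) * dist w w' := by ring

lemma lipCut_Fm_contDiff (A : E3 ≃ᵃⁱ[ℝ] E3) {u : E2 → ℝ} (hu : ContDiff ℝ 2 u) :
    ContDiff ℝ 1 (Fm A u) := by
  have h : (fun q : E3 => A.symm q) = fun q =>
      (A.symm.linearIsometryEquiv.toContinuousLinearEquiv : E3 →L[ℝ] E3) q + A.symm 0 :=
    funext fun q => by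
      have := A.symm.map_vadd 0 q
      simpa using this
  have h2 : ContDiff ℝ 1 (fun q : E3 => A.symm q) := by
    rw [h]
    exact (ContinuousLinearMap.contDiff _).add contDiff_const
  exact h2.comp ((contDiff_up hu).of_le (by norm_num))

/-- The pull-back of `η` is locally Lipschitz. -/
lemma lipCut_loc {A : E3 ≃ᵃⁱ[ℝ] E3} {u : E2 → ℝ} {r : ℝ} (h : IsPatch S A u r)
    {η : E3 → ℝ} {L : ℝ} (hη : LocLip S η L) {z : E2} (hz : ‖z‖ < r) :
    ∃ K : ℝ≥0, ∃ t ∈ 𝓝 z, LipschitzOnWith K (fun w => η (Fm A u w)) t := by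
  obtain ⟨δ, hδ, hL⟩ := hη (Fm A u z) (h.Fm_mem hz)
  have hF := lipCut_Fm_contDiff A h.smooth
  obtain ⟨K, t, ht, hK⟩ := hF.contDiffAt.exists_lipschitzOnWith (x := z)
  have h1 : ∀ᶠ w in 𝓝 z, dist (Fm A u w) (Fm A u z) < δ :=
    hF.continuous.continuousAt.eventually (ball_mem_nhds _ hδ)
  have h2 : ∀ᶠ w in 𝓝 z, ‖w‖ < r := (continuous_norm.tendsto z).eventually (gt_mem_nhds hz)
  refine ⟨⟨|L| * K, by positivity⟩, t ∩ {w | dist (Fm A u w) (Fm A u z) < δ ∧ ‖w‖ < r},
    inter_mem ht (h1.and h2), LipschitzOnWith.of_dist_le_mul ?_⟩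
  rintro w ⟨hw, hwδ, hwr⟩ w' ⟨hw', hwδ', hwr'⟩
  have h3 := hL (Fm A u w) (h.Fm_mem hwr) (Fm A u w') (h.Fm_mem hwr') hwδ hwδ'
  have h4 := hK.dist_le_mul w hw w' hw'
  rw [Real.dist_eq]
  calc |η (Fm A u w) - η (Fm A u w')| ≤ L * dist (Fm A u w) (Fm A u w') := h3
    _ ≤ |L| * dist (Fm A u w) (Fm A u w') := mul_le_mul_of_nonneg_right (le_abs_self L) dist_nonneg
    _ ≤ |L| * (K * dist w w') := mul_le_mul_of_nonneg_left h4 (abs_nonneg _)
    _ = (|L| * K) * dist w w' := by ring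

/-- The pull-back of `ρ * η` to the plane is Lipschitz with compact support in the disc. -/
theorem lipschitz_pull {A : E3 ≃ᵃⁱ[ℝ] E3} {u : E2 → ℝ} {r : ℝ} (h : IsPatch S A u r) {ρ : E3 → ℝ}
    (hρ : ContDiff ℝ 2 ρ) (hc : HasCompactSupport ρ) (hs : tsupport ρ ⊆ cyl A r) {η : E3 → ℝ} {L : ℝ}
    (hη : LocLip S η L) :
    (∃ K : ℝ≥0, LipschitzWith K (pull A u r ρ η)) ∧ HasCompactSupport (pull A u r ρ η) ∧
      tsupport (pull A u r ρ η) ⊆ ball 0 r := by
  set T := ch A '' tsupport ρ with hT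
  have hTc : IsCompact T := IsCompact.image hc (continuous_ch A)
  have hTr : T ⊆ ball 0 r := by
    rintro _ ⟨q, hq, rfl⟩
    have := (hs hq).1
    simpa using this
  have hzero : ∀ z, z ∉ T → pull A u r ρ η z = 0 := fun z hz => by
    rw [pull]
    split_ifs with hzr
    · have : ρ (Fm A u z) = 0 := by
        by_contra hne
        exact hz ⟨Fm A u z, subset_tsupport ρ hne, ch_Fm A u z⟩
      rw [this, zero_mul]
    · rfl
  have hsupp : Function.support (pull A u r ρ η) ⊆ T := fun z hz => by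
    by_contra hzT
    exact hz (hzero z hzT)
  have htsupp : tsupport (pull A u r ρ η) ⊆ T := closure_minimal hsupp hTc.isClosed
  have hloc : LocallyLipschitz (pull A u r ρ η) := by
    intro z
    by_cases hz : z ∈ T
    · have hzr : ‖z‖ < r := by simpa using hTr hz
      have hρF : ContDiff ℝ 1 (fun w => ρ (Fm A u w)) :=
        (hρ.of_le (by norm_num)).comp (lipCut_Fm_contDiff A h.smooth)
      obtain ⟨K₁, t₁, ht₁, hK₁⟩ := hρF.contDiffAt.exists_lipschitzOnWith (x := z)
      obtain ⟨K₂, t₂, ht₂, hK₂⟩ := lipCut_loc h hη hzr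
      set t := t₁ ∩ t₂ ∩ (ball z 1 ∩ ball 0 r) with ht
      have htn : t ∈ 𝓝 z := inter_mem (inter_mem ht₁ ht₂)
        (inter_mem (ball_mem_nhds z one_pos) (isOpen_ball.mem_nhds (hTr hz)))
      obtain ⟨K, hK⟩ := lipCut_mul (hK₁.mono fun w hw => hw.1.1 : LipschitzOnWith K₁ _ t)
        (hK₂.mono fun w hw => hw.1.2 : LipschitzOnWith K₂ _ t) (mem_of_mem_nhds htn)
        (fun w hw => hw.2.1)
      refine ⟨K, t, htn, ?_⟩
      intro w hw w' hw'
      have e : ∀ w ∈ t, pull A u r ρ η w = ρ (Fm A u w) * η (Fm A u w) := fun w hw =>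
        if_pos (by simpa using hw.2.2)
      rw [e w hw, e w' hw']
      exact hK hw hw'
    · refine ⟨0, Tᶜ, hTc.isClosed.isOpen_compl.mem_nhds hz, ?_⟩
      intro w hw w' hw'
      rw [hzero w hw, hzero w' hw']
      simp
  refine ⟨?_, HasCompactSupport.of_support_subset_isCompact hTc hsupp, htsupp.trans hTr⟩
  -- from locally Lipschitz to Lipschitz
  obtain ⟨R, hR⟩ := hTc.isBounded.subset_closedBall (0 : E2)
  obtain ⟨K, hK⟩ := (hloc.locallyLipschitzOn (s := closedBall (0 : E2) (R + 1))).exists_lipschitzOnWith_of_compact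
    (isCompact_closedBall _ _)
  obtain ⟨M, hM⟩ := hTc.exists_bound_of_continuousOn hloc.continuous.continuousOn
  have hM' : ∀ z, |pull A u r ρ η z| ≤ max M 0 := fun z => by
    by_cases hz : z ∈ T
    · exact (hM z hz).trans (le_max_left _ _)
    · rw [hzero z hz, abs_zero]
      exact le_max_right _ _
  refine ⟨max K ⟨max M 0, le_max_right _ _⟩, LipschitzWith.of_dist_le_mul ?_⟩
  have hmaxK : (K : ℝ) ≤ ((max K ⟨max M 0, le_max_right _ _⟩ : ℝ≥0) : ℝ) :=
    NNReal.coe_le_coe.2 (le_max_left _ _)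
  have hmaxM : max M 0 ≤ ((max K ⟨max M 0, le_max_right _ _⟩ : ℝ≥0) : ℝ) :=
    NNReal.coe_le_coe.2 (le_max_right K ⟨max M 0, le_max_right _ _⟩)
  -- one point in the support
  have key : ∀ x ∈ T, ∀ y, dist (pull A u r ρ η x) (pull A u r ρ η y) ≤
      ((max K ⟨max M 0, le_max_right _ _⟩ : ℝ≥0) : ℝ) * dist x y := by
    intro x hx y
    have hxR := hR hx
    rw [mem_closedBall] at hxR
    by_cases hy : y ∈ closedBall (0 : E2) (R + 1)
    · have h1 := hK.dist_le_mul x (by rw [mem_closedBall]; linarith) y hy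
      exact h1.trans (mul_le_mul_of_nonneg_right hmaxK dist_nonneg)
    · rw [mem_closedBall, not_le] at hy
      have hyT : y ∉ T := fun h => by
        have := hR h
        rw [mem_closedBall] at this
        linarith
      have hd : 1 ≤ dist x y := by
        have := dist_triangle_left y 0 x
        linarith
      rw [hzero y hyT, Real.dist_eq, sub_zero]
      calc |pull A u r ρ η x| ≤ max M 0 := hM' x
        _ ≤ ((max K ⟨max M 0, le_max_right _ _⟩ : ℝ≥0) : ℝ) * 1 := by rw [mul_one]; exact hmaxM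
        _ ≤ _ := mul_le_mul_of_nonneg_left hd (NNReal.coe_nonneg _)
  intro x y
  by_cases hx : x ∈ T
  · exact key x hx y
  · by_cases hy : y ∈ T
    · rw [dist_comm, dist_comm x y]
      exact key y hy x
    · rw [hzero x hx, hzero y hy, dist_self]
      positivity

/-- Rademacher for the pull-back of `η`. -/
theorem ae_differentiableAt_comp {A : E3 ≃ᵃⁱ[ℝ] E3} {u : E2 → ℝ} {r : ℝ} (h : IsPatch S A u r)
    {η : E3 → ℝ} {L : ℝ} (hη : LocLip S η L) :
    ∀ᵐ z : E2 ∂(volume.restrict (ball (0 : E2) r)), DifferentiableAt ℝ (fun w => η (Fm A u w)) z := by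
  have hcov : ball (0 : E2) r = ⋃ n : ℕ, ball (0 : E2) (r - 1 / ((n : ℝ) + 1)) := by
    ext z
    simp only [mem_ball, dist_zero_right, mem_iUnion]
    constructor
    · intro hz
      obtain ⟨n, hn⟩ := exists_nat_one_div_lt (sub_pos.2 hz)
      exact ⟨n, by linarith⟩
    · rintro ⟨n, hn⟩
      have : (0 : ℝ) < 1 / ((n : ℝ) + 1) := by positivity
      linarith
  rw [hcov, ae_restrict_iUnion_iff]
  intro n
  have hpos : (0 : ℝ) < 1 / ((n : ℝ) + 1) := by positivity
  have hloc : LocallyLipschitzOn (closedBall (0 : E2) (r - 1 / ((n : ℝ) + 1)))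
      (fun w => η (Fm A u w)) := by
    intro z hz
    rw [mem_closedBall, dist_zero_right] at hz
    obtain ⟨K, t, ht, hK⟩ := lipCut_loc h hη (show ‖z‖ < r by linarith)
    exact ⟨K, t, nhdsWithin_le_nhds ht, hK⟩
  obtain ⟨K, hK⟩ := hloc.exists_lipschitzOnWith_of_compact (isCompact_closedBall _ _)
  have h1 := (hK.mono ball_subset_closedBall).ae_differentiableWithinAt (μ := (volume : Measure E2))
    measurableSet_ball
  filter_upwards [h1, ae_restrict_mem measurableSet_ball] with z hz hzb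
  exact hz.differentiableAt (isOpen_ball.mem_nhds hzb)

/-- `LocLip` gives continuity of `η` on `S`. -/
theorem LocLip.continuousOn {η : E3 → ℝ} {L : ℝ} (hη : LocLip S η L) : ContinuousOn η S := by
  intro p hp
  obtain ⟨δ, hδ, hL⟩ := hη p hp
  rw [ContinuousWithinAt, tendsto_iff_dist_tendsto_zero]
  have h1 : ∀ᶠ y in 𝓝[S] p, dist (η y) (η p) ≤ L * dist y p := by
    filter_upwards [nhdsWithin_le_nhds (ball_mem_nhds p hδ), self_mem_nhdsWithin] with y hy hyS
    rw [Real.dist_eq]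
    exact hL y hyS p hp hy (by simpa using hδ)
  refine squeeze_zero' (Eventually.of_forall fun _ => dist_nonneg) h1 ?_
  have h2 : Tendsto (fun y => L * dist y p) (𝓝 p) (𝓝 (L * dist p p)) :=
    (continuous_const.mul (continuous_id.dist continuous_const)).tendsto p
  rw [dist_self, mul_zero] at h2
  exact h2.mono_left nhdsWithin_le_nhds

end Ca98
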