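import Pool.Agent.W_ca8607_h98.AreaDef

/-!
# Lipschitz functions on a surface: definitions
-/

set_option autoImplicit false

namespace Ca98

open Set Metric Filter Topology

/-- `η` is a locally Lipschitz function on the surface (uniform constant `L`). -/
def LocLip (S : Set E3) (η : E3 → ℝ) (L : ℝ) : Prop :=
  ∀ p ∈ S, ∃ δ > 0, ∀ x ∈ S, ∀ y ∈ S, dist x p < δ → dist y p < δ → |η x - η y| ≤ L * dist x y

/-- `G` bounds the slope of `η` at each point of the surface. -/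
def SlopeLe (S : Set E3) (η G : E3 → ℝ) : Prop :=
  ∀ p ∈ S, ∀ ε > 0, ∃ δ > 0, ∀ y ∈ S, dist y p < δ → |η y - η p| ≤ (G p + ε) * dist y p

/-- The vector `(1 / √g) ∑ j, √g g^{ij} ∂ⱼ (Ψ ∘ F)` of the plane: the tangential gradient of `Ψ` in the
coordinates of the patch. -/
noncomputable def gradC (A : E3 ≃ᵃⁱ[ℝ] E3) (u : E2 → ℝ) (Ψ : E3 → ℝ) (z : E2) : E2 :=
  !₂[(∑ j : Fin 2, co u 0 j z * pd (fun w => Ψ (Fm A u w)) j z) / jac u z,
    (∑ j : Fin 2, co u 1 j z * pd (fun w => Ψ (Fm A u w)) j z) / jac u z]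

/-- The pull-back of `ρ * η` to the plane, cut off outside the disc of radius `r`. -/
noncomputable def pull (A : E3 ≃ᵃⁱ[ℝ] E3) (u : E2 → ℝ) (r : ℝ) (ρ η : E3 → ℝ) (z : E2) : ℝ :=
  open Classical in if ‖z‖ < r then ρ (Fm A u z) * η (Fm A u z) else 0

end Ca98
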