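import Pool.Agent.W_ca8607_h98.Holes
import Pool.Agent.W_ca8607_h98.Cover

/-!
# Complete embedded minimal surfaces in domains with removable holes
-/

set_option autoImplicit false

namespace Ca98

open Set Metric Filter Topology

/-- A complete minimal surface which is closed in `D` stays away from the removable holes of `D`, and is
orientable if `D` together with the holes is simply connected. -/
theorem main {D S : Set E3} {𝒦 : Set (Set E3)} (hD : IsOpen D) (h𝒦 : ∀ K ∈ 𝒦, Hole D K)
    (hS : MinimalSurface S) (hcl : ClosedIn S D) (hc : IntrinsicallyComplete S) :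
    (∀ K ∈ 𝒦, Disjoint (closure S) K) ∧
      (SimplyConnectedSpace (D ∪ ⋃₀ 𝒦 : Set E3) → Orientable S) := by
  refine ⟨fun K hK => no_accumulation_hole hS hc hcl (h𝒦 K hK), fun hsc => ?_⟩
  obtain ⟨ho, hcl'⟩ := closedIn_union_hole hS hc hD hcl h𝒦
  exact orientable_of_closedIn ho hsc hS hcl'

/-- A compact subset of a curve with `N \ K ⊆ D` is a removable hole. -/
theorem hole_of_inCurve {D K N : Set E3} (hK : IsCompact K) (h : InCurve K) (hdisj : Disjoint K D)
    (hN : IsOpen N) (hKN : K ⊆ N) (hD : N \ K ⊆ D) : Hole D K :=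
  ⟨hK, hdisj, ⟨N, hN, hKN, hD⟩, fun _ => K, iUnion_const K, fun _ =>
    ⟨hK, fun x _ => connectedComponentIn_subset K x, Or.inr h⟩⟩

/-- A strictly mean-convex body with `N \ K ⊆ D` is a removable hole. -/
theorem hole_of_meanConvex {D K N : Set E3} (hK : IsCompact K) (h : MeanConvex K)
    (hdisj : Disjoint K D) (hN : IsOpen N) (hKN : K ⊆ N) (hD : N \ K ⊆ D) : Hole D K :=
  ⟨hK, hdisj, ⟨N, hN, hKN, hD⟩, fun _ => K, iUnion_const K, fun _ =>
    ⟨hK, fun x _ => connectedComponentIn_subset K x, Or.inl h⟩⟩

/-- Closed balls are strictly mean-convex bodies. -/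
theorem meanConvex_closedBall (a : E3) {r : ℝ} (hr : 0 ≤ r) : MeanConvex (closedBall a r) := by
  have h := obstacle_closedBall (D := ball a (r + 1) \ closedBall a r) (a := a) hr
    (lt_add_one r) disjoint_sdiff_right Subset.rfl
  obtain ⟨N, φ, hN, hKN, -, hφ, hmem, htr⟩ := h.barrier
  exact ⟨N, φ, hN, hKN, hφ, hmem, fun x hx h0 v w hv hw hvw _ _ => htr x hx h0 v w hv hw hvw⟩

/-- The case of the unit ball minus a compact subset of a curve. -/
theorem main_ball {K S : Set E3} (hK : IsCompact K) (hKc : InCurve K) (hKB : K ⊆ ball 0 1)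
    (hS : MinimalSurface S) (hcl : ClosedIn S (ball 0 1 \ K)) (hc : IntrinsicallyComplete S) :
    Orientable S := by
  have hole : Hole (ball 0 1 \ K) K :=
    hole_of_inCurve hK hKc disjoint_sdiff_right isOpen_ball hKB Subset.rfl
  have key := (main (isOpen_ball.sdiff hK.isClosed) (𝒦 := {K}) (by simpa using hole) hS hcl hc).2
  rw [sUnion_singleton, diff_union_of_subset hKB] at key
  refine key ?_
  have hconv : Convex ℝ (ball (0 : E3) 1) := convex_ball 0 1
  have : ContractibleSpace (ball (0 : E3) 1) :=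
    hconv.contractibleSpace ⟨0, mem_ball_self one_pos⟩
  infer_instance

end Ca98
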