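import Pool.Agent.W_ca8607_h98.Flux
import Pool.Agent.W_ca8607_h98.Growth

/-!
# Complete minimal surfaces do not accumulate at obstacles
-/

set_option autoImplicit false

namespace Ca98

open Set Metric Filter Topology MeasureTheory

variable {S D K : Set E3}

/-- Near a limit point outside the surface there are infinitely many points at large mutual intrinsic distance. -/
theorem exists_separated (hS : MinimalSurface S) (hc : IntrinsicallyComplete S) {x : E3}
    (hx : x ∈ closure S) (hxS : x ∉ S) (t : ℝ) {r : ℝ} (hr : 0 < r) :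
    ∃ y : ℕ → E3, (∀ n, y n ∈ S ∧ dist (y n) x < r) ∧ ∀ m n, m < n → ¬ Reach S (y m) (y n) t := by
  refine exists_seq_of_forall_finset_exists (fun y => y ∈ S ∧ dist y x < r)
    (fun a b => ¬ Reach S a b t) fun s hs => ?_
  have hopen : IsOpen (ball x r ∩ ⋂ a ∈ s, (closure {y | Reach S a y t})ᶜ) :=
    isOpen_ball.inter (isOpen_biInter_finset fun a _ => isClosed_closure.isOpen_compl)
  have hmem : x ∈ ball x r ∩ ⋂ a ∈ s, (closure {y | Reach S a y t})ᶜ := by
    refine ⟨mem_ball_self hr, mem_iInter₂.2 fun a ha hxa => ?_⟩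
    exact hxS (hopf_rinow hS hc (hs a ha).1 t hxa)
  obtain ⟨y, ⟨hy1, hy2⟩, hyS⟩ := mem_closure_iff.1 hx _ hopen hmem
  refine ⟨y, ⟨hyS, hy1⟩, fun a ha hre => ?_⟩
  exact (mem_iInter₂.1 hy2 a ha) (subset_closure hre)

/-- Complete minimal surfaces do not accumulate at obstacles. -/
theorem no_accumulation (hS : MinimalSurface S) (hc : IntrinsicallyComplete S) (hcl : ClosedIn S D)
    (hK : SObstacle D K) : Disjoint (closure S) K := by
  rw [Set.disjoint_left]
  intro x hx hxK
  have hxS : x ∉ S := fun h => Set.disjoint_left.1 hK.disj hxK (hcl.1 h)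
  obtain ⟨μ, hμ⟩ := exists_area hS
  obtain ⟨V, hV, hKV, hμV⟩ := flux hS hμ hcl hK
  obtain ⟨ε, hε, hεV⟩ := Metric.isOpen_iff.1 hV x (hKV hxK)
  set r : ℝ := ε / 2 with hr
  have hrpos : 0 < r := half_pos hε
  obtain ⟨y, hy, hsep⟩ := exists_separated hS hc hx hxS (2 * r) hrpos
  have hdisj : Pairwise (fun m n => Disjoint (bl S (y m) r) (bl S (y n) r)) := by
    have key : ∀ m n, m < n → Disjoint (bl S (y m) r) (bl S (y n) r) := by
      intro m n hmn
      rw [Set.disjoint_left]
      rintro q ⟨L, hL, h1⟩ ⟨L', hL', h2⟩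
      exact hsep m n hmn ((h1.trans h2.symm).mono (by linarith))
    intro m n hmn
    rcases lt_or_gt_of_ne hmn with h | h
    · exact key m n h
    · exact (key n m h).symm
  have hmeas : ∀ n, MeasurableSet (bl S (y n) r) := fun n => by
    obtain ⟨U, hU, hbU⟩ := hS.exists_isOpen_bl (y n) r
    rw [hbU]
    exact hS.measurableSet.inter hU.measurableSet
  have hsub : (⋃ n, bl S (y n) r) ⊆ V := by
    refine iUnion_subset fun n q hq => hεV ?_
    have h1 := bl_subset_ball S (y n) r hq
    rw [mem_ball] at h1 ⊢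
    have h2 := (hy n).2
    have h3 := dist_triangle q (y n) x
    linarith
  have h1 : μ (⋃ n, bl S (y n) r) = ⊤ := by
    rw [measure_iUnion hdisj hmeas, eq_top_iff,
      ← ENNReal.tsum_const_eq_top_of_ne_zero (α := ℕ) (c := ENNReal.ofReal (r ^ 2 / 2))
        (by simpa using by positivity)]
    exact ENNReal.tsum_le_tsum fun n => growth hS hc hμ (hy n).1 hrpos
  have h2 := measure_mono (μ := μ) hsub
  rw [h1] at h2
  exact absurd hμV (not_lt.2 h2)

end Ca98
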