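import Pool.Agent.W_ca8607_h98.AreaDef

/-!
# Unit normals of a minimal surface in terms of patches
-/

set_option autoImplicit false

namespace Ca98

open Set Metric Filter Topology
open scoped RealInnerProductSpace

variable {S : Set E3}

lemma normalA_apply (A : E3 ≃ᵃⁱ[ℝ] E3) (q : E3) : A q = A.linearIsometryEquiv q + A 0 := by
  have := A.map_vadd 0 q
  simpa using this

lemma normalA_hasFDerivAt (A : E3 ≃ᵃⁱ[ℝ] E3) (q : E3) :
    HasFDerivAt (fun q => A q) (A.linearIsometryEquiv.toContinuousLinearEquiv : E3 →L[ℝ] E3) q := by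
  have h : (fun q => A q) = fun q => (A.linearIsometryEquiv.toContinuousLinearEquiv : E3 →L[ℝ] E3) q + A 0 :=
    funext fun q => normalA_apply A q
  rw [h]
  exact (ContinuousLinearMap.hasFDerivAt _).add_const _

lemma normalA_symm (A : E3 ≃ᵃⁱ[ℝ] E3) (v : E3) :
    A.linearIsometryEquiv (A.symm.linearIsometryEquiv v) = v :=
  A.linearIsometryEquiv.apply_symm_apply v

lemma normalA_symm' (A : E3 ≃ᵃⁱ[ℝ] E3) (v : E3) :
    A.symm.linearIsometryEquiv (A.linearIsometryEquiv v) = v :=
  A.linearIsometryEquiv.symm_apply_apply v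

/-- The derivative of the parametrisation. -/
lemma normalA_hasFDerivAt_Fm (A : E3 ≃ᵃⁱ[ℝ] E3) {u : E2 → ℝ} {z : E2} (hu : DifferentiableAt ℝ u z) :
    HasFDerivAt (Fm A u) ((A.symm.linearIsometryEquiv.toContinuousLinearEquiv : E3 →L[ℝ] E3).comp
      (upL.comp ((ContinuousLinearMap.id ℝ E2).prod (fderiv ℝ u z)))) z := by
  have h1 : HasFDerivAt (fun w : E2 => (w, u w))
      ((ContinuousLinearMap.id ℝ E2).prod (fderiv ℝ u z)) z :=
    (hasFDerivAt_id z).prodMk hu.hasFDerivAt
  have h2 : HasFDerivAt (fun w : E2 => up w (u w))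
      (upL.comp ((ContinuousLinearMap.id ℝ E2).prod (fderiv ℝ u z))) z :=
    upL.hasFDerivAt.comp z h1
  exact (normalA_hasFDerivAt A.symm (up z (u z))).comp z h2

/-- The tangent cone of the surface in a patch. -/
lemma normalA_cone {A : E3 ≃ᵃⁱ[ℝ] E3} {u : E2 → ℝ} {r : ℝ} (h : IsPatch S A u r) {z : E2}
    (hz : ‖z‖ < r) {v : E3} : v ∈ tangentConeAt ℝ S (Fm A u z) ↔
      ∃ w : E2, v = A.symm.linearIsometryEquiv (up w (fderiv ℝ u z w)) := by
  have hu : DifferentiableAt ℝ u z := h.smooth.differentiable (by norm_num) z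
  have hnhds : cyl A r ∈ 𝓝 (Fm A u z) := (isOpen_cyl A r).mem_nhds (h.Fm_mem_cyl hz)
  have hcone : tangentConeAt ℝ S (Fm A u z) = tangentConeAt ℝ (S ∩ cyl A r) (Fm A u z) :=
    (tangentConeAt_inter_nhds hnhds).symm
  constructor
  · intro hv
    rw [hcone] at hv
    -- the defining function
    have hdn : HasFDerivAt (fun q : E3 => ch A q)
        (dnL.comp (A.linearIsometryEquiv.toContinuousLinearEquiv : E3 →L[ℝ] E3)) (Fm A u z) :=
      dnL.hasFDerivAt.comp (Fm A u z) (normalA_hasFDerivAt A (Fm A u z))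
    have hch : ch A (Fm A u z) = z := ch_Fm A u z
    have hu' : HasFDerivAt u (fderiv ℝ u z) (ch A (Fm A u z)) := by
      rw [hch]
      exact hu.hasFDerivAt
    have h2 : HasFDerivAt (fun q : E3 => A q 2)
        ((EuclideanSpace.proj 2 : E3 →L[ℝ] ℝ).comp
          (A.linearIsometryEquiv.toContinuousLinearEquiv : E3 →L[ℝ] E3)) (Fm A u z) :=
      (EuclideanSpace.proj 2 : E3 →L[ℝ] ℝ).hasFDerivAt.comp (Fm A u z)
        (normalA_hasFDerivAt A (Fm A u z))
    have hg := (h2.sub (hu'.comp (Fm A u z) hdn)).hasFDerivWithinAt (s := S ∩ cyl A r)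
    have hmem := hg.mapsTo_tangent_cone hv
    have himg : ((fun q : E3 => A q 2) - u ∘ fun q : E3 => ch A q) '' (S ∩ cyl A r) ⊆ {0} := by
      rintro _ ⟨q, ⟨hqS, hqc⟩, rfl⟩
      simp only [Pi.sub_apply, Function.comp, mem_singleton_iff, sub_eq_zero]
      exact (h.mem_iff hqc).1 hqS
    have hacc : ¬ AccPt (((fun q : E3 => A q 2) - u ∘ fun q : E3 => ch A q) (Fm A u z))
        (𝓟 ({0} : Set ℝ)) := by
      intro hacc
      have := (hacc.mono (principal_mono.2 (Subset.refl _)))
      rw [accPt_iff_nhds] at this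
      have h0 : ((fun q : E3 => A q 2) - u ∘ fun q : E3 => ch A q) (Fm A u z) = 0 :=
        himg ⟨_, ⟨h.Fm_mem hz, h.Fm_mem_cyl hz⟩, rfl⟩
      obtain ⟨y, hy, hne⟩ := this univ univ_mem
      rw [h0] at hne
      exact hne hy.2
    have hzero := tangentConeAt_subset_zero hacc (tangentConeAt_mono himg hmem)
    have hval : A.linearIsometryEquiv v 2 = fderiv ℝ u z (dn (A.linearIsometryEquiv v)) := by
      have : A.linearIsometryEquiv v 2 - fderiv ℝ u z (dn (A.linearIsometryEquiv v)) = 0 := hzero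
      linarith
    refine ⟨dn (A.linearIsometryEquiv v), ?_⟩
    rw [← hval, up_dn, normalA_symm']
  · rintro ⟨w, rfl⟩
    have h1 := (normalA_hasFDerivAt_Fm A hu).hasFDerivWithinAt (s := ball (0 : E2) r)
    have h2 : w ∈ tangentConeAt ℝ (ball (0 : E2) r) z := by
      rw [tangentConeAt_of_mem_nhds (isOpen_ball.mem_nhds (by simpa using hz))]
      exact mem_univ w
    have h3 := h1.mapsTo_tangent_cone h2
    rw [h.image] at h3
    rw [hcone]
    exact h3

lemma normalA_inner_up (n : E3) (w : E2) (s : ℝ) : ⟪n, up w s⟫ = n 0 * w 0 + n 1 * w 1 + n 2 * s := by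
  simp [PiLp.inner_apply, Fin.sum_univ_three, up]
  ring

lemma normalA_fderiv (u : E2 → ℝ) (z w : E2) : fderiv ℝ u z w = w 0 * pd u 0 z + w 1 * pd u 1 z := by
  have hw : w = w 0 • EuclideanSpace.single 0 (1 : ℝ) + w 1 • EuclideanSpace.single 1 (1 : ℝ) := by
    ext i
    fin_cases i <;> simp
  conv_lhs => rw [hw]
  rw [map_add, map_smul, map_smul, pd, pd, smul_eq_mul, smul_eq_mul]

lemma normalA_norm_Nu (u : E2 → ℝ) (z : E2) : ‖Nu u z‖ = 1 := by
  have h : ‖Nu u z‖ ^ 2 = 1 := by
    rw [EuclideanSpace.norm_sq_eq, Fin.sum_univ_three]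
    simp only [Nu, PiLp.smul_apply, smul_eq_mul, Real.norm_eq_abs, sq_abs]
    have hW := jac_sq u z
    have hpos := jac_pos u z
    simp
    field_simp
    linarith
  have h0 := norm_nonneg (Nu u z)
  nlinarith

/-- The unit normals of the surface in a patch. -/
theorem isNormal_iff {A : E3 ≃ᵃⁱ[ℝ] E3} {u : E2 → ℝ} {r : ℝ} (h : IsPatch S A u r) {z : E2}
    (hz : ‖z‖ < r) {ν : E3} :
    IsNormal S (Fm A u z) ν ↔
      ν = A.symm.linearIsometryEquiv (Nu u z) ∨ ν = - A.symm.linearIsometryEquiv (Nu u z) := by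
  set n : E3 := A.linearIsometryEquiv ν with hn
  have hν : ν = A.symm.linearIsometryEquiv n := (normalA_symm' A ν).symm
  have hinner : ∀ y : E3, ⟪ν, A.symm.linearIsometryEquiv y⟫ = ⟪n, y⟫ := fun y => by
    rw [hν, LinearIsometryEquiv.inner_map_map]
  have hnorm : ‖ν‖ = ‖n‖ := by rw [hν, LinearIsometryEquiv.norm_map]
  have hW := jac_sq u z
  have hWpos := jac_pos u z
  have key : IsNormal S (Fm A u z) ν ↔
      ‖n‖ = 1 ∧ n 0 = - n 2 * pd u 0 z ∧ n 1 = - n 2 * pd u 1 z := by
    rw [IsNormal, hnorm]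
    refine and_congr_right fun _ => ?_
    constructor
    · intro hv
      have h0 := hv _ ((normalA_cone h hz).2 ⟨EuclideanSpace.single 0 1, rfl⟩)
      have h1 := hv _ ((normalA_cone h hz).2 ⟨EuclideanSpace.single 1 1, rfl⟩)
      rw [hinner, normalA_inner_up, normalA_fderiv] at h0 h1
      simp at h0 h1
      exact ⟨by linarith, by linarith⟩
    · rintro ⟨h0, h1⟩ v hv
      obtain ⟨w, rfl⟩ := (normalA_cone h hz).1 hv
      rw [hinner, normalA_inner_up, normalA_fderiv, h0, h1]
      ring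
  rw [key]
  have hinj : ∀ y : E3, (ν = A.symm.linearIsometryEquiv y ↔ n = y) := fun y => by
    rw [hν]
    exact A.symm.linearIsometryEquiv.injective.eq_iff
  rw [← map_neg, hinj, hinj]
  constructor
  · rintro ⟨h1, h2, h3⟩
    have hsq : ‖n‖ ^ 2 = 1 := by rw [h1]; norm_num
    rw [EuclideanSpace.norm_sq_eq, Fin.sum_univ_three] at hsq
    simp only [Real.norm_eq_abs, sq_abs] at hsq
    rw [h2, h3] at hsq
    have h4 : (n 2 * jac u z) ^ 2 = 1 := by
      rw [mul_pow, hW]
      linarith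
    rcases sq_eq_one_iff.1 h4 with h5 | h5
    · left
      have h6 : n 2 = 1 / jac u z := by rw [eq_div_iff hWpos.ne', h5]
      ext i
      fin_cases i
      · simp only [Fin.zero_eta, Nu]
        rw [h2, h6]
        simp
      · simp only [Fin.mk_one, Nu]
        rw [h3, h6]
        simp
      · simp only [Fin.reduceFinMk, Nu]
        rw [h6]
        simp
    · right
      have h6 : n 2 = -(1 / jac u z) := by
        rw [neg_div', eq_div_iff hWpos.ne', h5]
      ext i
      fin_cases i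
      · simp only [Fin.zero_eta, Nu]
        rw [h2, h6]
        simp
      · simp only [Fin.mk_one, Nu]
        rw [h3, h6]
        simp
      · simp only [Fin.reduceFinMk, Nu]
        rw [h6]
        simp
  · rintro (h1 | h1)
    · rw [h1]
      refine ⟨normalA_norm_Nu u z, ?_, ?_⟩
      · simp [Nu]
      · simp [Nu]
    · rw [h1]
      refine ⟨by rw [norm_neg]; exact normalA_norm_Nu u z, ?_, ?_⟩
      · simp [Nu]
      · simp [Nu]

end Ca98
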