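import Pool.Agent.W_ca8607_h98.Base

/-!
# Finite partitions of unity by patches
-/

set_option autoImplicit false

namespace Ca98

open Set Metric Filter Topology
open scoped Manifold ContDiff

variable {S : Set E3}

lemma partU_isCompact_cyl (A : E3 ≃ᵃⁱ[ℝ] E3) (r : ℝ) {T : Set E3} (hT : IsClosed T)
    (hTr : T ⊆ cyl A r) : IsCompact T := by
  refine Metric.isCompact_of_isClosed_isBounded hT ?_
  refine (isBounded_closedBall (x := A.symm 0) (r := 2 * r)).subset fun q hq => ?_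
  obtain ⟨h1, h2⟩ := hTr hq
  rw [mem_closedBall]
  have h3 : dist q (A.symm 0) = ‖A q‖ := by
    rw [← A.dist_map q (A.symm 0), A.apply_symm_apply, dist_zero_right]
  rw [h3]
  have h4 := norm_up_le (dn (A q)) (A q 2)
  rw [up_dn] at h4
  have h5 : ‖dn (A q)‖ < r := h1
  linarith

/-- A finite `C²` partition of unity on a neighbourhood of a compact subset of the surface, subordinate to patches. -/
theorem exists_partition (hS : MinimalSurface S) {C : Set E3} (hC : IsCompact C) (hCS : C ⊆ S) :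
    ∃ (n : ℕ) (A : Fin n → E3 ≃ᵃⁱ[ℝ] E3) (u : Fin n → E2 → ℝ) (r : Fin n → ℝ)
      (ρ : Fin n → E3 → ℝ) (U : Set E3), (∀ i, IsPatch S (A i) (u i) (r i)) ∧
      (∀ i, ContDiff ℝ 2 (ρ i)) ∧ (∀ i x, 0 ≤ ρ i x) ∧ (∀ i, HasCompactSupport (ρ i)) ∧
      (∀ i, tsupport (ρ i) ⊆ cyl (A i) (r i)) ∧ IsOpen U ∧ C ⊆ U ∧ ∀ x ∈ U, ∑ i, ρ i x = 1 := by
  have key : ∀ p ∈ S, ∃ (A : E3 ≃ᵃⁱ[ℝ] E3) (u : E2 → ℝ) (r : ℝ), IsPatch S A u r ∧ p ∈ cyl A r := by
    intro p hp
    obtain ⟨A, u, r, h, -, hc, -⟩ := hS.exists_patch hp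
    exact ⟨A, u, r, h, hc⟩
  choose! A u r hpatch hmem using key
  obtain ⟨t, htC, htU⟩ := hC.elim_nhds_subcover (fun p => cyl (A p) (r p))
    (fun p hp => (isOpen_cyl _ _).mem_nhds (hmem p (hCS hp)))
  have hcov : C ⊆ ⋃ i : t, cyl (A i) (r i) := fun x hx => by
    obtain ⟨p, hp, hxp⟩ := mem_iUnion₂.1 (htU hx)
    exact mem_iUnion.2 ⟨⟨p, hp⟩, hxp⟩
  have hopen : IsOpen (⋃ i : t, cyl (A i) (r i)) := isOpen_iUnion fun i => isOpen_cyl _ _
  obtain ⟨δ, hδ, hδU⟩ := hC.exists_cthickening_subset_open hopen hcov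
  let e : Fin t.card ≃ t := t.equivFin.symm
  have hδU' : cthickening δ C ⊆ ⋃ i : Fin t.card, cyl (A (e i)) (r (e i)) := by
    intro x hx
    obtain ⟨i, hi⟩ := mem_iUnion.1 (hδU hx)
    exact mem_iUnion.2 ⟨e.symm i, by simpa using hi⟩
  obtain ⟨f, hf⟩ := SmoothPartitionOfUnity.exists_isSubordinate 𝓘(ℝ, E3)
    (isClosed_cthickening (E := C) (δ := δ)) (fun i : Fin t.card => cyl (A (e i)) (r (e i)))
    (fun i => isOpen_cyl _ _) hδU'
  refine ⟨t.card, fun i => A (e i), fun i => u (e i), fun i => r (e i), fun i x => f i x,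
    thickening δ C, fun i => hpatch _ (hCS (htC _ (e i).2)), fun i => ?_, fun i x => f.nonneg i x,
    fun i => ?_, fun i => hf i, isOpen_thickening, self_subset_thickening hδ C, fun x hx => ?_⟩
  · have h1 : ContMDiff 𝓘(ℝ, E3) 𝓘(ℝ, ℝ) ∞ (f i) := (f i).contMDiff
    have h2 : ContDiff ℝ ∞ (fun x => f i x) := contMDiff_iff_contDiff.1 h1
    exact h2.of_le (by norm_cast)
  · exact partU_isCompact_cyl _ _ (isClosed_tsupport _) (hf i)
  · have h1 := f.sum_eq_one (thickening_subset_cthickening δ C hx)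
    rwa [finsum_eq_sum_of_fintype] at h1

end Ca98
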