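import Pool.Agent.W_ca8607_h98.Defs

/-!
# Strong obstacles
-/

set_option autoImplicit false

namespace Ca98

open Set Metric Filter Topology
open scoped RealInnerProductSpace

/-- `K` is a strong obstacle for the open set `D`: it is disjoint from `D`, and near `K` it is the
set `φ ≤ 0` of a `C²` function `φ` on an open set `N` with `N \ K ⊆ D`, such that the trace of `D²φ`
on every plane is positive at all points with `φ = 0`. -/
structure SObstacle (D K : Set E3) : Prop where
  compact : IsCompact K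
  disj : Disjoint K D
  barrier : ∃ (N : Set E3) (φ : E3 → ℝ), IsOpen N ∧ K ⊆ N ∧ N \ K ⊆ D ∧ ContDiffOn ℝ 2 φ N ∧
    (∀ x ∈ N, x ∈ K ↔ φ x ≤ 0) ∧
    ∀ x ∈ N, φ x = 0 → ∀ v w : E3, ‖v‖ = 1 → ‖w‖ = 1 → ⟪v, w⟫ = 0 →
      0 < D2 φ x v v + D2 φ x w w

end Ca98
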