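import Pool.Agent.W_ca8607_h98.LipDef

/-!
# The intrinsic distance as a test function
-/

set_option autoImplicit false

namespace Ca98

open Set Metric Filter Topology

variable {S : Set E3}

/-- The test function. -/
noncomputable def testEta (S : Set E3) (p : E3) (t' t : ℝ) (x : E3) : ℝ :=
  open Classical in if x ∈ bl S p t then max 0 (t' - rad S p x) else 0

/-- Its slope. -/
noncomputable def testG (S : Set E3) (p : E3) (t' t : ℝ) (x : E3) : ℝ :=
  open Classical in if x ∈ bl S p t ∧ rad S p x ≤ t' then 1 else 0

lemma testEta_sub_le {p : E3} {t' t : ℝ} {x y : E3} {M : ℝ} (h : Reach S x y M) (hM : M < t - t') :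
    |testEta S p t' t x - testEta S p t' t y| ≤ M := by
  have hM0 : 0 ≤ M := h.nonneg
  by_cases hx : x ∈ bl S p t
  · by_cases hy : y ∈ bl S p t
    · rw [testEta, testEta, if_pos hx, if_pos hy]
      obtain ⟨L, -, hL⟩ := hx
      have h1 := hL.abs_rad_sub_le h
      refine (abs_max_sub_max_le_max (0 : ℝ) (t' - rad S p x) 0 (t' - rad S p y)).trans ?_
      have h2 : t' - rad S p x - (t' - rad S p y) = -(rad S p x - rad S p y) := by ring
      rw [h2, abs_neg, sub_zero, abs_zero]
      exact max_le hM0 h1
    · rw [testEta, testEta, if_pos hx, if_neg hy, sub_zero]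
      have h1 : t' ≤ rad S p x := by
        by_contra hlt
        rw [not_le] at hlt
        obtain ⟨L, -, hL⟩ := hx
        have h2 := (hL.of_rad_lt hlt).trans h
        exact hy ⟨_, by linarith, h2⟩
      rw [max_eq_left (by linarith), abs_zero]
      exact hM0
  · by_cases hy : y ∈ bl S p t
    · rw [testEta, testEta, if_neg hx, if_pos hy, zero_sub, abs_neg]
      have h1 : t' ≤ rad S p y := by
        by_contra hlt
        rw [not_le] at hlt
        obtain ⟨L, -, hL⟩ := hy
        have h2 := (hL.of_rad_lt hlt).trans h.symm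
        exact hx ⟨_, by linarith, h2⟩
      rw [max_eq_left (by linarith), abs_zero]
      exact hM0
    · rw [testEta, testEta, if_neg hx, if_neg hy, sub_zero, abs_zero]
      exact hM0

/-- The test function `(t' - rad)⁺` on the intrinsic ball of radius `t > t'`, zero elsewhere, with its slope. -/
theorem testFun (hS : MinimalSurface S) (p : E3) {t' t : ℝ} (ht : t' < t) :
    ∃ η G : E3 → ℝ, (∀ x ∈ bl S p t, η x = max 0 (t' - rad S p x)) ∧ (∀ x ∉ bl S p t, η x = 0) ∧
      LocLip S η 2 ∧ SlopeLe S η G ∧ (∀ x ∈ bl S p t, rad S p x ≤ t' → G x = 1) ∧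
      (∀ x, x ∉ bl S p t ∨ t' < rad S p x → G x = 0) := by
  refine ⟨testEta S p t' t, testG S p t' t, fun x hx => if_pos hx, fun x hx => if_neg hx, ?_, ?_,
    fun x hx hr => if_pos ⟨hx, hr⟩, ?_⟩
  · intro q hq
    obtain ⟨δ, hδ, hr⟩ := hS.reach_two hq
    refine ⟨min δ ((t - t') / 4), lt_min hδ (by linarith), fun x hx y hy hxq hyq => ?_⟩
    have h1 := hr x hx y hy (hxq.trans_le (min_le_left _ _)) (hyq.trans_le (min_le_left _ _))
    refine testEta_sub_le h1 ?_
    have h2 := dist_triangle_right x y q
    have h3 := hxq.trans_le (min_le_right _ _)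
    have h4 := hyq.trans_le (min_le_right _ _)
    linarith
  · intro q hq ε hε
    obtain ⟨δ, hδ, hr⟩ := hS.reach_near hq hε
    have hsmall : ∀ y ∈ S, dist y q < min δ (min 1 ((t - t') / (1 + ε))) →
        Reach S q y ((1 + ε) * dist y q) ∧ (1 + ε) * dist y q < t - t' := by
      intro y hy hyq
      refine ⟨hr y hy (hyq.trans_le (min_le_left _ _)), ?_⟩
      have h1 := hyq.trans_le ((min_le_right _ _).trans (min_le_right _ _))
      rw [lt_div_iff₀ (by linarith)] at h1
      linarith
    by_cases hG : q ∈ bl S p t ∧ rad S p q ≤ t'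
    · refine ⟨min δ (min 1 ((t - t') / (1 + ε))), lt_min hδ (lt_min one_pos (div_pos (by linarith)
        (by linarith))), fun y hy hyq => ?_⟩
      obtain ⟨h1, h2⟩ := hsmall y hy hyq
      rw [testG, if_pos hG, abs_sub_comm]
      exact testEta_sub_le h1 h2
    · -- the function vanishes near `q`
      have hz : ∃ δ' > 0, ∀ y ∈ S, dist y q < δ' → testEta S p t' t y = 0 := by
        by_cases hqb : q ∈ bl S p t
        · have hlt : t' < rad S p q := by
            by_contra hle
            exact hG ⟨hqb, not_lt.1 hle⟩
          refine ⟨min δ ((rad S p q - t') / (1 + ε)), lt_min hδ (div_pos (by linarith)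
            (by linarith)), fun y hy hyq => ?_⟩
          have h1 := hr y hy (hyq.trans_le (min_le_left _ _))
          have h2 := hyq.trans_le (min_le_right _ _)
          rw [lt_div_iff₀ (by linarith)] at h2
          by_cases hyb : y ∈ bl S p t
          · rw [testEta, if_pos hyb]
            obtain ⟨L, -, hL⟩ := hqb
            have h3 := (abs_le.1 (hL.abs_rad_sub_le h1)).2
            exact max_eq_left (by linarith)
          · rw [testEta, if_neg hyb]
        · refine ⟨min δ (min 1 ((t - t') / (1 + ε))), lt_min hδ (lt_min one_pos (div_pos (by linarith)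
            (by linarith))), fun y hy hyq => ?_⟩
          obtain ⟨h1, h2⟩ := hsmall y hy hyq
          by_cases hyb : y ∈ bl S p t
          · rw [testEta, if_pos hyb]
            refine max_eq_left ?_
            by_contra hlt
            rw [not_le] at hlt
            obtain ⟨L, -, hL⟩ := hyb
            have h3 := (hL.of_rad_lt (L := t') (by linarith)).trans h1.symm
            exact hqb ⟨_, by linarith, h3⟩
          · rw [testEta, if_neg hyb]
      obtain ⟨δ', hδ', hz⟩ := hz
      refine ⟨δ', hδ', fun y hy hyq => ?_⟩
      rw [hz y hy hyq, hz q hq (by simpa using hδ'), sub_zero, abs_zero, testG, if_neg hG]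
      have : 0 ≤ dist y q := dist_nonneg
      positivity
  · rintro x (hx | hx)
    · exact if_neg fun h => hx h.1
    · exact if_neg fun h => absurd h.2 (not_le.2 hx)

end Ca98
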