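import Pool.Agent.W_ca8607_h98.WeakLip
import Pool.Agent.W_ca8607_h98.TestFun
import Pool.Agent.W_ca8607_h98.PartU
import Pool.Agent.W_ca8607_h98.Area
import Pool.Agent.W_ca8607_h98.Links

/-!
# The weak formula on intrinsic balls
-/

set_option autoImplicit false

namespace Ca98

open Set Metric Filter Topology MeasureTheory
open scoped RealInnerProductSpace

variable {S : Set E3} {μ : Measure E3}

lemma weakBall_measurableSet (hS : MinimalSurface S) (p : E3) (t : ℝ) : MeasurableSet (bl S p t) := by
  obtain ⟨U, hU, hbU⟩ := hS.exists_isOpen_bl p t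
  rw [hbU]
  exact hS.measurableSet.inter hU.measurableSet

lemma weakBall_measurable (hS : MinimalSurface S) (p : E3) (t : ℝ) :
    Measurable ((bl S p t).indicator (fun x => rad S p x)) := by
  refine measurable_of_Iio fun s => ?_
  rcases le_or_gt s 0 with hs | hs
  · have : (bl S p t).indicator (fun x => rad S p x) ⁻¹' Iio s = ∅ := by
      refine eq_empty_of_forall_notMem fun x hx => ?_
      have h0 : 0 ≤ (bl S p t).indicator (fun x => rad S p x) x :=
        indicator_nonneg (fun x _ => rad_nonneg S p x) x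
      exact absurd (lt_of_lt_of_le hx hs) (not_lt.2 h0)
    rw [this]
    exact MeasurableSet.empty
  · have : (bl S p t).indicator (fun x => rad S p x) ⁻¹' Iio s =
        (bl S p t)ᶜ ∪ (bl S p t ∩ bl S p s) := by
      ext x
      by_cases hx : x ∈ bl S p t
      · have h1 : x ∈ bl S p s ↔ rad S p x < s := by
          rw [mem_bl_iff]
          exact ⟨fun h => h.2, fun h => ⟨(mem_bl_iff.1 hx).1, h⟩⟩
        simp [hx, h1]
      · simp [hx, hs]
    rw [this]
    exact (weakBall_measurableSet hS p t).compl.union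
      ((weakBall_measurableSet hS p t).inter (weakBall_measurableSet hS p s))

lemma weakBall_compact (S : Set E3) (p : E3) (t : ℝ) : IsCompact (closure (bl S p t)) :=
  Metric.isCompact_of_isClosed_isBounded isClosed_closure
    ((isBounded_ball.subset (bl_subset_ball S p t)).closure)

/-- The radius is measurable and bounded on intrinsic balls, which have finite area. -/
theorem integrableOn_rad (hS : MinimalSurface S) (hμ : IsArea S μ) (p : E3) {t : ℝ}
    (hcl : closure (bl S p t) ⊆ S) :
    MeasurableSet (bl S p t) ∧ μ (bl S p t) < ⊤ ∧ IntegrableOn (fun x => rad S p x) (bl S p t) μ := by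
  have hfin : μ (bl S p t) < ⊤ :=
    (measure_mono subset_closure).trans_lt (hμ.lt_top hS (weakBall_compact S p t) hcl)
  have hm := weakBall_measurableSet hS p t
  refine ⟨hm, hfin, ?_⟩
  have h1 : AEStronglyMeasurable (fun x => rad S p x) (μ.restrict (bl S p t)) := by
    refine (weakBall_measurable hS p t).aestronglyMeasurable.congr ?_
    filter_upwards [ae_restrict_mem hm] with x hx
    exact indicator_of_mem hx _
  refine IntegrableOn.of_bound hfin h1 t ?_
  filter_upwards [ae_restrict_mem hm] with x hx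
  rw [Real.norm_eq_abs, abs_of_nonneg (rad_nonneg S p x)]
  exact (mem_bl_iff.1 hx).2.le

lemma weakBall_aux (hS : MinimalSurface S) (hμ : IsArea S μ) {p : E3} {t t' : ℝ} (ht : t' < t)
    (hcl : closure (bl S p t) ⊆ S) :
    4 * ∫ x in bl S p t, max 0 (t' - rad S p x) ∂μ ≤ 2 * ∫ x in bl S p t, rad S p x ∂μ := by
  obtain ⟨η, G, hη1, hη0, hηL, hηG, hG1, hG0⟩ := testFun hS p ht
  obtain ⟨hbm, hbfin, hbint⟩ := integrableOn_rad hS hμ p hcl
  set E : Set E3 := bl S p t ∩ {x | (bl S p t).indicator (fun x => rad S p x) x ≤ t'} with hE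
  have hEm : MeasurableSet E :=
    hbm.inter (measurableSet_le (weakBall_measurable hS p t) measurable_const)
  have hGE : G = E.indicator (fun _ => 1) := by
    funext x
    by_cases hx : x ∈ E
    · rw [indicator_of_mem hx]
      have h1 := hx.2
      simp only [mem_ofPred_eq, indicator_of_mem hx.1] at h1
      exact hG1 x hx.1 h1
    · rw [indicator_of_notMem hx]
      refine hG0 x ?_
      by_contra hcon
      rw [not_or, not_not, not_lt] at hcon
      exact hx ⟨hcon.1, by simpa [indicator_of_mem hcon.1] using hcon.2⟩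
  have hGm : Measurable G := by
    rw [hGE]
    exact measurable_const.indicator hEm
  have hG0' : ∀ x, 0 ≤ G x := fun x => by
    rw [hGE]
    exact indicator_nonneg (fun _ _ => zero_le_one) x
  have hG1' : ∀ x, G x ≤ 1 := fun x => by
    rw [hGE]
    by_cases hx : x ∈ E
    · rw [indicator_of_mem hx]
    · rw [indicator_of_notMem hx]
      exact zero_le_one
  -- the test function
  set Ψ : E3 → ℝ := fun x => ‖x - p‖ ^ 2 - 0 ^ 2 with hΨ
  have hΨC : ContDiff ℝ 2 Ψ := ((contDiff_id.sub contDiff_const).norm_sq ℝ).sub contDiff_const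
  have hTL : ∀ x ∈ S, TL S Ψ x = 4 := fun x hx => by
    obtain ⟨v, w, hv, hw, -, hTL⟩ := TL_eq hS hx
    rw [hTL Ψ, hΨ, links_D2_normSq, links_D2_normSq, real_inner_self_eq_norm_sq,
      real_inner_self_eq_norm_sq, hv, hw]
    norm_num
  have hΨd : ∀ x, ‖fderiv ℝ Ψ x‖ = 2 * ‖x - p‖ := fun x => by
    rw [hΨ, (links_hasFDerivAt_normSq p x 0).fderiv, norm_smul, innerSL_apply_norm]
    norm_num
  obtain ⟨n, A, u, r, ρ, U, hp, hρ, hρ0, hρc, hρs, hU, hCU, hsum⟩ :=
    exists_partition hS (weakBall_compact S p t) hcl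
  have key := fun i => weak_patch_lip hS hμ (hp i) (hρ i) (hρ0 i) (hρc i) (hρs i) hηL hηG hGm hG0' hG1' hΨC
  have hae : ∀ᵐ x ∂μ, x ∈ S := by
    rw [ae_iff]
    exact hμ.null
  have hbU : ∀ x ∈ bl S p t, x ∈ U := fun x hx => hCU (subset_closure hx)
  -- first sum
  have s1 : ∑ i, ∫ x, ρ i x * η x * TL S Ψ x ∂μ = 4 * ∫ x, η x ∂μ := by
    rw [← integral_finsetSum _ fun i _ => (key i).1, ← integral_const_mul]
    refine integral_congr_ae ?_
    filter_upwards [hae] with x hx
    rw [hTL x hx]
    by_cases hxb : x ∈ bl S p t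
    · have : ∑ i, ρ i x * η x * 4 = (∑ i, ρ i x) * (η x * 4) := by
        rw [Finset.sum_mul]
        exact Finset.sum_congr rfl fun i _ => by ring
      rw [this, hsum x (hbU x hxb)]
      ring
    · simp [hη0 x hxb]
  have s2 : ∑ i, ∫ x, η x * gS S (ρ i) Ψ x ∂μ = 0 := by
    rw [← integral_finsetSum _ fun i _ => (key i).2.1]
    refine integral_eq_zero_of_ae ?_
    filter_upwards [hae] with x hx
    simp only [Pi.zero_apply]
    by_cases hxb : x ∈ bl S p t
    · have hd : ∑ i, fderiv ℝ (ρ i) x = 0 := by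
        have hev : (fun y => ∑ i, ρ i y) =ᶠ[𝓝 x] fun _ => (1 : ℝ) := by
          filter_upwards [hU.mem_nhds (hbU x hxb)] with y hy
          exact hsum y hy
        have h3 : fderiv ℝ (fun y => ∑ i, ρ i y) x = fderiv ℝ (fun _ => (1 : ℝ)) x := hev.fderiv_eq
        rw [fderiv_fun_sum (fun i _ => (hρ i).differentiable (by norm_num) x)] at h3
        rw [h3]
        simp
      have hd' : ∀ v, ∑ i, fderiv ℝ (ρ i) x v = 0 := fun v => by
        have := congrArg (fun (L : E3 →L[ℝ] ℝ) => L v) hd
        simpa using this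
      rw [← Finset.mul_sum]
      simp only [gS]
      rw [Finset.sum_sub_distrib, Finset.sum_comm, ← Finset.sum_mul, hd', zero_mul, sub_zero]
      refine mul_eq_zero_of_right _ (Finset.sum_eq_zero fun k _ => ?_)
      rw [← Finset.sum_mul, hd', zero_mul]
    · simp [hη0 x hxb]
  have s3 : ∑ i, ∫ x, ρ i x * G x * ‖fderiv ℝ Ψ x‖ ∂μ ≤ 2 * ∫ x in bl S p t, rad S p x ∂μ := by
    rw [← integral_finsetSum _ fun i _ => (key i).2.2.1, ← integral_const_mul,
      ← integral_indicator hbm]
    refine integral_mono (integrable_finsetSum _ fun i _ => (key i).2.2.1)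
      ((integrable_indicator_iff hbm).2 (hbint.const_mul 2)) fun x => ?_
    by_cases hxb : x ∈ bl S p t
    · rw [indicator_of_mem hxb]
      have : ∑ i, ρ i x * G x * ‖fderiv ℝ Ψ x‖ = (∑ i, ρ i x) * (G x * ‖fderiv ℝ Ψ x‖) := by
        rw [Finset.sum_mul]
        exact Finset.sum_congr rfl fun i _ => by ring
      rw [this, hsum x (hbU x hxb), one_mul, hΨd]
      obtain ⟨L, -, hL⟩ := hxb
      have h1 := hL.dist_le_rad
      rw [dist_comm, dist_eq_norm] at h1
      have h2 := hG1' x
      have h3 := norm_nonneg (x - p)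
      nlinarith [hG0' x]
    · rw [indicator_of_notMem hxb]
      simp [hG0 x (Or.inl hxb)]
  have hη : ∫ x, η x ∂μ = ∫ x in bl S p t, max 0 (t' - rad S p x) ∂μ := by
    rw [← integral_indicator hbm]
    refine integral_congr_ae (Eventually.of_forall fun x => ?_)
    by_cases hxb : x ∈ bl S p t
    · simp only [indicator_of_mem hxb]
      exact hη1 x hxb
    · simp only [indicator_of_notMem hxb]
      exact hη0 x hxb
  have htot : |∑ i, (∫ x, ρ i x * η x * TL S Ψ x ∂μ + ∫ x, η x * gS S (ρ i) Ψ x ∂μ)| ≤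
      ∑ i, ∫ x, ρ i x * G x * ‖fderiv ℝ Ψ x‖ ∂μ :=
    (Finset.abs_sum_le_sum_abs _ _).trans (Finset.sum_le_sum fun i _ => (key i).2.2.2)
  rw [Finset.sum_add_distrib, s1, s2, add_zero, hη] at htot
  exact (le_abs_self _).trans (htot.trans s3)

/-- The weak formula for the square of the distance to `p` and the weight `(t - rad)⁺`. -/
theorem weak_ball (hS : MinimalSurface S) (hμ : IsArea S μ) {p : E3} (hp : p ∈ S) {t : ℝ}
    (hcl : closure (bl S p t) ⊆ S) :
    4 * ∫ x in bl S p t, (t - rad S p x) ∂μ ≤ 2 * ∫ x in bl S p t, rad S p x ∂μ := by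
  obtain ⟨hbm, hbfin, hbint⟩ := integrableOn_rad hS hμ p hcl
  have hconst : ∀ k : ℝ, IntegrableOn (fun _ => k) (bl S p t) μ := fun k =>
    integrableOn_const hbfin.ne
  set m : ℝ := μ.real (bl S p t) with hm
  have hm0 : 0 ≤ m := measureReal_nonneg
  refine le_of_forall_pos_le_add fun ε hε => ?_
  set k : ℝ := ε / (4 * (m + 1)) with hk
  have hkpos : 0 < k := by positivity
  have h1 := weakBall_aux hS hμ (t' := t - k) (by linarith) hcl
  have hint2 : IntegrableOn (fun x => max 0 (t - k - rad S p x)) (bl S p t) μ := by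
    have h2 : IntegrableOn (fun x => t - k - rad S p x) (bl S p t) μ := (hconst (t - k)).sub hbint
    have h3 : IntegrableOn (fun x => max (t - k - rad S p x) 0) (bl S p t) μ := h2.pos_part
    refine h3.congr_fun (fun x _ => ?_) hbm
    exact max_comm _ _
  have h2 : ∫ x in bl S p t, (t - rad S p x) ∂μ ≤
      (∫ x in bl S p t, max 0 (t - k - rad S p x) ∂μ) + k * m := by
    have h3 : (∫ x in bl S p t, max 0 (t - k - rad S p x) ∂μ) + k * m =
        ∫ x in bl S p t, (max 0 (t - k - rad S p x) + k) ∂μ := by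
      rw [integral_add hint2 (hconst k), setIntegral_const, smul_eq_mul, mul_comm]
    rw [h3]
    refine setIntegral_mono_on ((hconst t).sub hbint) (hint2.add (hconst k)) hbm fun x _ => ?_
    have := le_max_right 0 (t - k - rad S p x)
    linarith
  have h4 : 4 * (k * m) ≤ ε := by
    rw [hk]
    have : 4 * (ε / (4 * (m + 1)) * m) = ε * (m / (m + 1)) := by
      field_simp
    rw [this]
    have h5 : m / (m + 1) ≤ 1 := by
      rw [div_le_one (by linarith)]
      linarith
    nlinarith
  linarith

end Ca98
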