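import Pool.Agent.W_ca8607_h98.WeakSm
import Pool.Agent.W_ca8607_h98.GradC
import Pool.Agent.W_ca8607_h98.LipCut

/-!
# The weak formula in a patch, Lipschitz weights
-/

set_option autoImplicit false

namespace Ca98

open Set Metric Filter Topology MeasureTheory

variable {S : Set E3} {μ : Measure E3}

lemma weakLip_integrable {T : Set E2} {r : ℝ} (hT : IsCompact T) (hTr : T ⊆ ball 0 r) {g a b : E2 → ℝ}
    (hg : Measurable g) (hg1 : ∀ z, |g z| ≤ 1)
    (ha : ContinuousOn a (ball 0 r)) (hb : Continuous b) (hb0 : ∀ z, z ∉ T → b z = 0) :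
    IntegrableOn (fun z => g z * (a z * b z)) (ball 0 r) := by
  have h1 : IntegrableOn (fun z => a z * b z) T :=
    ((ha.mono hTr).mul hb.continuousOn).integrableOn_compact hT
  have h2 : IntegrableOn (fun z => a z * b z) (ball 0 r) :=
    h1.of_forall_sdiff_eq_zero measurableSet_ball fun z hz => by rw [hb0 z hz.2, mul_zero]
  exact Integrable.bdd_mul (c := 1) h2 hg.aestronglyMeasurable (Eventually.of_forall fun z => hg1 z)

/-- The weak formula with the weight `ρ * η`, `ρ` of class `C²` with compact support in the cylinder of a patch, `η` locally Lipschitz. -/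
theorem weak_patch_lip (hS : MinimalSurface S) (hμ : IsArea S μ) {A : E3 ≃ᵃⁱ[ℝ] E3} {u : E2 → ℝ} {r : ℝ}
    (h : IsPatch S A u r) {ρ : E3 → ℝ} (hρ : ContDiff ℝ 2 ρ) (hρ0 : ∀ x, 0 ≤ ρ x)
    (hc : HasCompactSupport ρ) (hs : tsupport ρ ⊆ cyl A r) {η G : E3 → ℝ} {L : ℝ}
    (hη : LocLip S η L) (hG : SlopeLe S η G) (hGm : Measurable G) (hG0 : ∀ x, 0 ≤ G x)
    (hG1 : ∀ x, G x ≤ 1) {Ψ : E3 → ℝ} (hΨ : ContDiff ℝ 2 Ψ) :
    Integrable (fun x => ρ x * η x * TL S Ψ x) μ ∧ Integrable (fun x => η x * gS S ρ Ψ x) μ ∧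
      Integrable (fun x => ρ x * G x * ‖fderiv ℝ Ψ x‖) μ ∧
      |∫ x, ρ x * η x * TL S Ψ x ∂μ + ∫ x, η x * gS S ρ Ψ x ∂μ| ≤
        ∫ x, ρ x * G x * ‖fderiv ℝ Ψ x‖ ∂μ := by
  obtain ⟨hKc, hKr⟩ := weakSm_compact hc hs
  set T := ch A '' tsupport ρ with hT
  obtain ⟨⟨K, hK⟩, hec, hes⟩ := lipschitz_pull h hρ hc hs hη
  set e := pull A u r ρ η with he
  have hein : ∀ z ∈ ball (0 : E2) r, e z = ρ (Fm A u z) * η (Fm A u z) := fun z hz =>
    if_pos (by simpa using hz)
  have hFc : Continuous (Fm A u) := continuous_Fm A h.smooth.continuous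
  have hmem : ∀ z ∈ ball (0 : E2) r, ‖z‖ < r := fun z hz => by simpa using hz
  have hηc : ContinuousOn (fun z => η (Fm A u z)) (ball (0 : E2) r) :=
    hη.continuousOn.comp hFc.continuousOn fun z hz => h.Fm_mem (hmem z hz)
  set Ψ' : E3 → ℝ := fun q => Ψ (A.symm q) with hΨ'
  have hΨ'C : ContDiff ℝ 2 Ψ' := normal_contDiff_comp A hΨ
  have key := weak_local h.smooth isOpen_ball (Ω := ball (0 : E2) r)
    (fun z hz => h.minimal z (hmem z hz)) hK hec hes hΨ'C
  have hρF : ContDiff ℝ 2 (fun z => ρ (Fm A u z)) := weakSm_contDiff A h.smooth hρ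
  have hΨF : ContDiff ℝ 2 (fun z => Ψ (Fm A u z)) := weakSm_contDiff A h.smooth hΨ
  have hdiff : ∀ x, DifferentiableAt ℝ ρ x := fun x => hρ.differentiable (by norm_num) x
  have hdiffΨ : ∀ x, DifferentiableAt ℝ Ψ x := fun x => hΨ.differentiable (by norm_num) x
  have hco : ∀ i j, ContDiff ℝ 1 (co u i j) := fun i j => by
    have h1 := contDiff_jac h.smooth
    have h2 := contDiff_pd h.smooth i
    have h3 := contDiff_pd h.smooth j
    unfold co
    refine ContDiff.div ?_ h1 fun z => (jac_pos u z).ne'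
    split_ifs
    · exact (h1.pow 2).sub (h2.mul h3)
    · exact contDiff_const.sub (h2.mul h3)
  obtain ⟨V, hV⟩ : ∃ V : Fin 2 → E2 → ℝ, ∀ i z, V i z =
      ∑ j : Fin 2, co u i j z * pd (fun w => Ψ (Fm A u w)) j z := ⟨_, fun i z => rfl⟩
  have hVC : ∀ i, ContDiff ℝ 1 (V i) := fun i => by
    have : V i = fun z => ∑ j : Fin 2, co u i j z * pd (fun w => Ψ (Fm A u w)) j z := funext (hV i)
    rw [this]
    exact ContDiff.sum fun j _ => (hco i j).mul (contDiff_pd hΨF j)
  have hcoord := fun i => weakLocal_coord (hVC i) hK hec i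
  set G1 : E2 → ℝ := fun z => ∑ i : Fin 2, lineDeriv ℝ e z (EuclideanSpace.single i 1) * V i z with hG1d
  have hG1i : Integrable G1 := integrable_finsetSum _ fun i _ => (hcoord i).2.1
  have key' : ∫ z, e z * (lapG u Ψ' z * jac u z) = - ∫ z, G1 z := by
    rw [key]
    simp only [hG1d, hV]
    rfl
  set G2 : E2 → ℝ := fun z => ∑ i : Fin 2, pd (fun w => ρ (Fm A u w)) i z * V i z with hG2d
  have hG2c : Continuous G2 := continuous_finsetSum _ fun i _ =>
    (continuous_pd (hρF.of_le (by norm_num)) i).mul (hVC i).continuous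
  have hρT : ∀ z, z ∉ T → ρ (Fm A u z) = 0 := fun z hz => by
    by_contra hne
    exact hz (weakSm_mem hne)
  have hG20 : ∀ z, z ∉ T → G2 z = 0 := fun z hz => by
    have hev : (fun w => ρ (Fm A u w)) =ᶠ[𝓝 z] fun _ => (0 : ℝ) := by
      filter_upwards [hKc.isClosed.isOpen_compl.mem_nhds hz] with w hw
      exact hρT w hw
    rw [hG2d]
    refine Finset.sum_eq_zero fun i _ => ?_
    rw [pd, hev.fderiv_eq]
    simp
  -- vanishing off the cylinder
  have h01 : ∀ x ∈ S, x ∉ cyl A r → ρ x * η x * TL S Ψ x = 0 := fun x _ hx => by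
    rw [image_eq_zero_of_notMem_tsupport (fun h => hx (hs h)), zero_mul, zero_mul]
  have h02 : ∀ x ∈ S, x ∉ cyl A r → η x * gS S ρ Ψ x = 0 := fun x _ hx => by
    rw [gS, fderiv_of_notMem_tsupport ℝ (fun h => hx (hs h))]
    simp
  have h03 : ∀ x ∈ S, x ∉ cyl A r → ρ x * G x * ‖fderiv ℝ Ψ x‖ = 0 := fun x _ hx => by
    rw [image_eq_zero_of_notMem_tsupport (fun h => hx (hs h)), zero_mul, zero_mul]
  -- the integrands on the disc
  have e1 : ∀ z ∈ ball (0 : E2) r, ρ (Fm A u z) * η (Fm A u z) * TL S Ψ (Fm A u z) * jac u z =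
      e z * (lapG u Ψ' z * jac u z) := fun z hz => by
    rw [TL_patch h (hmem z hz) hΨ, hein z hz]
    ring
  have e2 : ∀ z ∈ ball (0 : E2) r, η (Fm A u z) * gS S ρ Ψ (Fm A u z) * jac u z =
      η (Fm A u z) * G2 z := fun z hz => by
    have := grad_patch h (hmem z hz) (hdiff (Fm A u z)) (hdiffΨ (Fm A u z))
    rw [mul_assoc, mul_comm (gS S ρ Ψ _), ← this, hG2d]
    simp only [hV]
  -- integrability
  have i1 : Integrable (fun z => e z * (lapG u Ψ' z * jac u z)) := by
    refine Continuous.integrable_of_hasCompactSupport ?_ hec.mul_right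
    exact hK.continuous.mul ((continuous_lapG h.smooth hΨ'C).mul
      (continuous_jac (h.smooth.of_le (by norm_num))))
  have i2 : IntegrableOn (fun z => η (Fm A u z) * G2 z) (ball (0 : E2) r) := by
    have := weakLip_integrable hKc hKr (g := fun _ => 1) measurable_const (by simp) hηc hG2c hG20
    simpa using this
  have hΨn : Continuous (fun z => ‖fderiv ℝ Ψ (Fm A u z)‖ * jac u z) :=
    (((hΨ.continuous_fderiv (by norm_num)).comp hFc).norm).mul
      (continuous_jac (h.smooth.of_le (by norm_num)))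
  have i3 : IntegrableOn (fun z => ρ (Fm A u z) * G (Fm A u z) * ‖fderiv ℝ Ψ (Fm A u z)‖ * jac u z)
      (ball (0 : E2) r) := by
    have := weakLip_integrable hKc hKr (g := fun z => G (Fm A u z)) (hGm.comp hFc.measurable)
      (fun z => by rw [abs_of_nonneg (hG0 _)]; exact hG1 _) hΨn.continuousOn hρF.continuous hρT
    refine this.congr_fun (fun z _ => ?_) measurableSet_ball
    simp only
    ring
  have hE0 : ∀ z, z ∉ ball (0 : E2) r → e z * (lapG u Ψ' z * jac u z) = 0 := fun z hz => by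
    rw [image_eq_zero_of_notMem_tsupport (fun hz' => hz (hes hz')), zero_mul]
  have hG10 : ∀ z, z ∉ ball (0 : E2) r → G1 z = 0 := fun z hz => by
    rw [hG1d]
    refine Finset.sum_eq_zero fun i _ => ?_
    rw [weakLocal_lineDeriv_zero (fun hz' => hz (hes hz')), zero_mul]
  -- the almost everywhere inequality
  have hae : ∀ᵐ z ∂(volume.restrict (ball (0 : E2) r)), ‖G1 z - η (Fm A u z) * G2 z‖ ≤
      ρ (Fm A u z) * G (Fm A u z) * ‖fderiv ℝ Ψ (Fm A u z)‖ * jac u z := by
    filter_upwards [ae_differentiableAt_comp h hη, ae_restrict_mem measurableSet_ball] with z hz hzb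
    have hnear : e =ᶠ[𝓝 z] fun w => ρ (Fm A u w) * η (Fm A u w) := by
      filter_upwards [isOpen_ball.mem_nhds hzb] with w hw
      exact hein w hw
    have hρd : DifferentiableAt ℝ (fun w => ρ (Fm A u w)) z := hρF.differentiable (by norm_num) z
    have hprod : ∀ v, lineDeriv ℝ e z v = ρ (Fm A u z) * fderiv ℝ (fun w => η (Fm A u w)) z v +
        η (Fm A u z) * fderiv ℝ (fun w => ρ (Fm A u w)) z v := fun v => by
      rw [Filter.EventuallyEq.lineDeriv_eq hnear, (hρd.fun_mul hz).lineDeriv_eq_fderiv,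
        fderiv_fun_mul hρd hz]
      simp
    have hX : fderiv ℝ (fun w => η (Fm A u w)) z (gradC A u Ψ z) * jac u z =
        ∑ i : Fin 2, fderiv ℝ (fun w => η (Fm A u w)) z (EuclideanSpace.single i 1) * V i z := by
      have hgr : gradC A u Ψ z = (V 0 z / jac u z) • EuclideanSpace.single 0 (1 : ℝ) +
          (V 1 z / jac u z) • EuclideanSpace.single 1 (1 : ℝ) := by
        ext i
        fin_cases i <;> simp [gradC, hV]
      have hW := (jac_pos u z).ne'
      rw [hgr, map_add, map_smul, map_smul, Fin.sum_univ_two, smul_eq_mul, smul_eq_mul]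
      field_simp
    have hG1z : G1 z - η (Fm A u z) * G2 z = ρ (Fm A u z) *
        (fderiv ℝ (fun w => η (Fm A u w)) z (gradC A u Ψ z) * jac u z) := by
      rw [hX, hG1d, hG2d]
      simp only [hprod, pd, Fin.sum_univ_two]
      ring
    rw [hG1z, Real.norm_eq_abs, abs_mul, abs_mul, abs_of_nonneg (hρ0 _), abs_of_pos (jac_pos u z)]
    have h5 := abs_fderiv_gradC_le h (hmem z hzb) (hdiffΨ (Fm A u z)) hG (hG0 _) hz
    calc ρ (Fm A u z) * (|fderiv ℝ (fun w => η (Fm A u w)) z (gradC A u Ψ z)| * jac u z)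
        ≤ ρ (Fm A u z) * ((G (Fm A u z) * ‖fderiv ℝ Ψ (Fm A u z)‖) * jac u z) :=
          mul_le_mul_of_nonneg_left (mul_le_mul_of_nonneg_right h5 (jac_pos u z).le) (hρ0 _)
      _ = _ := by ring
  refine ⟨integrable_patch hμ h h01 ?_, integrable_patch hμ h h02 ?_, integrable_patch hμ h h03 i3, ?_⟩
  · exact i1.integrableOn.congr_fun (fun z hz => (e1 z hz).symm) measurableSet_ball
  · exact i2.congr_fun (fun z hz => (e2 z hz).symm) measurableSet_ball
  · rw [integral_patch hμ h h01, integral_patch hμ h h02, integral_patch hμ h h03,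
      setIntegral_congr_fun measurableSet_ball e1, setIntegral_congr_fun measurableSet_ball e2,
      setIntegral_eq_integral_of_forall_compl_eq_zero hE0, key',
      ← setIntegral_eq_integral_of_forall_compl_eq_zero hG10]
    have h6 : (-∫ z in ball (0 : E2) r, G1 z) + (∫ z in ball (0 : E2) r, η (Fm A u z) * G2 z) =
        -(∫ z in ball (0 : E2) r, (G1 z - η (Fm A u z) * G2 z)) := by
      rw [integral_sub hG1i.integrableOn i2]
      ring
    refine (le_of_eq (congrArg _ ?_)).trans ((abs_neg _).le.trans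
      (norm_integral_le_of_norm_le i3 hae))
    exact h6

end Ca98
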