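import Pool.Agent.W_ca8607_h98.DivForm

/-!
# The weak formula for the Laplacian on a minimal graph
-/

set_option autoImplicit false

namespace Ca98

open Set Metric Filter Topology MeasureTheory
open scoped NNReal

lemma weakLocal_lineDeriv_zero {e : E2 → ℝ} {z : E2} (hz : z ∉ tsupport e) (v : E2) :
    lineDeriv ℝ e z v = 0 := by
  have h : e =ᶠ[𝓝 z] fun _ => (0 : ℝ) := notMem_tsupport_iff_eventuallyEq.1 hz
  rw [Filter.EventuallyEq.lineDeriv_eq h]
  simp [lineDeriv]

/-- One coordinate of the integration by parts. -/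
lemma weakLocal_coord {V : E2 → ℝ} (hV : ContDiff ℝ 1 V) {e : E2 → ℝ} {L : ℝ≥0}
    (he : LipschitzWith L e) (hc : HasCompactSupport e) (i : Fin 2) :
    Integrable (fun z => e z * pd V i z) ∧
      Integrable (fun z => lineDeriv ℝ e z (EuclideanSpace.single i 1) * V z) ∧
      ∫ z, e z * pd V i z = - ∫ z, lineDeriv ℝ e z (EuclideanSpace.single i 1) * V z := by
  obtain ⟨R, hR⟩ := hc.isBounded.subset_closedBall (0 : E2)
  set R' : ℝ := max R 1 with hR'
  have hR'pos : 0 < R' := one_pos.trans_le (le_max_right _ _)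
  let χ : ContDiffBump (0 : E2) := ⟨R', R' + 1, hR'pos, by linarith⟩
  have hχ1 : ∀ z ∈ closedBall (0 : E2) R', χ z = 1 := fun z hz => χ.one_of_mem_closedBall hz
  have hsub : tsupport e ⊆ closedBall 0 R' := hR.trans (closedBall_subset_closedBall (le_max_left _ _))
  set g : E2 → ℝ := fun z => χ z * V z with hg
  have hgC : ContDiff ℝ 1 g := (χ.contDiff (n := 1)).mul hV
  have hgc : HasCompactSupport g := χ.hasCompactSupport.mul_right
  obtain ⟨D, hD⟩ := hgC.lipschitzWith_of_hasCompactSupport hgc (by norm_num)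
  have key := LipschitzWith.integral_lineDeriv_mul_eq (μ := (volume : Measure E2)) he hD hgc
    (EuclideanSpace.single i (1 : ℝ))
  have hgd : ∀ z, lineDeriv ℝ g z (-EuclideanSpace.single i (1 : ℝ)) = -pd g i z := fun z => by
    rw [lineDeriv_neg, (hgC.differentiable (by norm_num) z).lineDeriv_eq_fderiv, pd]
  -- `g = V` near the points of the support of `e`
  have hgV : ∀ z ∈ tsupport e, g z = V z := fun z hz => by
    rw [hg]
    simp only
    rw [hχ1 z (hsub hz), one_mul]
  have hint1 : Integrable (fun z => e z * pd V i z) :=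
    (he.continuous.mul (continuous_pd hV i)).integrable_of_hasCompactSupport hc.mul_right
  have hintg : Integrable (fun z => lineDeriv ℝ e z (EuclideanSpace.single i 1) * g z) := by
    refine (hgC.continuous.integrable_of_hasCompactSupport hgc).bdd_mul
      (c := L * ‖(EuclideanSpace.single i (1 : ℝ) : E2)‖)
      (measurable_lineDeriv he.continuous).aestronglyMeasurable ?_
    exact Eventually.of_forall fun z => norm_lineDeriv_le_of_lipschitz ℝ he
  have heq : (fun z => lineDeriv ℝ e z (EuclideanSpace.single i 1) * g z) =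
      fun z => lineDeriv ℝ e z (EuclideanSpace.single i 1) * V z := by
    funext z
    by_cases hz : z ∈ tsupport e
    · rw [hgV z hz]
    · rw [weakLocal_lineDeriv_zero hz, zero_mul, zero_mul]
  have hpd : (fun z => e z * pd V i z) = fun z => e z * pd g i z := by
    funext z
    by_cases hz : e z = 0
    · rw [hz, zero_mul, zero_mul]
    · -- an open neighbourhood in the support
      have hopen : IsOpen {w | e w ≠ 0} := isOpen_ne_fun he.continuous continuous_const
      have hnear : g =ᶠ[𝓝 z] V := by
        filter_upwards [hopen.mem_nhds hz] with w hw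
        exact hgV w (subset_tsupport e hw)
      rw [pd, pd, hnear.fderiv_eq]
  rw [heq] at hintg
  refine ⟨hint1, hintg, ?_⟩
  rw [heq] at key
  rw [key, hpd]
  simp only [hgd, neg_mul]
  rw [integral_neg, neg_neg]
  refine integral_congr_ae (Eventually.of_forall fun z => ?_)
  simp only
  ring

/-- Integration by parts against a Lipschitz function with compact support. -/
theorem weak_local {u : E2 → ℝ} (hu : ContDiff ℝ 2 u) {Ω : Set E2} (hΩ : IsOpen Ω)
    (hm : ∀ z ∈ Ω, MSE u z) {e : E2 → ℝ} {L : ℝ≥0} (he : LipschitzWith L e) (hc : HasCompactSupport e)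
    (hs : tsupport e ⊆ Ω) {Ψ : E3 → ℝ} (hΨ : ContDiff ℝ 2 Ψ) :
    ∫ z, e z * (lapG u Ψ z * jac u z) =
      - ∫ z, ∑ i : Fin 2, lineDeriv ℝ e z (EuclideanSpace.single i 1) *
          (∑ j : Fin 2, co u i j z * pd (fun w => Ψ (up w (u w))) j z) := by
  have hco : ∀ i j, ContDiff ℝ 1 (co u i j) := fun i j => by
    have h1 := contDiff_jac hu
    have h2 := contDiff_pd hu i
    have h3 := contDiff_pd hu j
    unfold co
    refine ContDiff.div ?_ h1 fun z => (jac_pos u z).ne'
    split_ifs
    · exact (h1.pow 2).sub (h2.mul h3)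
    · exact contDiff_const.sub (h2.mul h3)
  have hψ : ContDiff ℝ 2 (fun w => Ψ (up w (u w))) := hΨ.comp (contDiff_up hu)
  have hV : ∀ i, ContDiff ℝ 1 (fun z => ∑ j : Fin 2, co u i j z * pd (fun w => Ψ (up w (u w))) j z) :=
    fun i => ContDiff.sum fun j _ => (hco i j).mul (contDiff_pd hψ j)
  have key := fun i => weakLocal_coord (hV i) he hc i
  have h1 : (fun z => e z * (lapG u Ψ z * jac u z)) = fun z => ∑ i : Fin 2, e z *
      pd (fun z => ∑ j : Fin 2, co u i j z * pd (fun w => Ψ (up w (u w))) j z) i z := by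
    funext z
    by_cases hz : e z = 0
    · simp [hz]
    · rw [← div_form hu (hm z (hs (subset_tsupport e hz))) hΨ, Finset.mul_sum]
  rw [h1, integral_finsetSum _ fun i _ => (key i).1, integral_finsetSum _ fun i _ => (key i).2.1,
    ← Finset.sum_neg_distrib]
  exact Finset.sum_congr rfl fun i _ => (key i).2.2

end Ca98
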