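import Pool.Agent.W_ca8607_h98.WeakLocal
import Pool.Agent.W_ca8607_h98.Normal
import Pool.Agent.W_ca8607_h98.IntPatch
import Pool.Agent.W_ca8607_h98.PartU

/-!
# The weak formula on a minimal surface, smooth weights
-/

set_option autoImplicit false

namespace Ca98

open Set Metric Filter Topology MeasureTheory

variable {S : Set E3} {μ : Measure E3}

lemma weakSm_compact {A : E3 ≃ᵃⁱ[ℝ] E3} {r : ℝ} {ρ : E3 → ℝ} (hc : HasCompactSupport ρ)
    (hs : tsupport ρ ⊆ cyl A r) :
    IsCompact (ch A '' tsupport ρ) ∧ ch A '' tsupport ρ ⊆ ball 0 r := by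
  refine ⟨IsCompact.image hc (continuous_ch A), ?_⟩
  rintro _ ⟨q, hq, rfl⟩
  have := (hs hq).1
  simpa using this

lemma weakSm_mem {A : E3 ≃ᵃⁱ[ℝ] E3} {u : E2 → ℝ} {ρ : E3 → ℝ} {z : E2} (hz : ρ (Fm A u z) ≠ 0) :
    z ∈ ch A '' tsupport ρ :=
  ⟨Fm A u z, subset_tsupport ρ hz, ch_Fm A u z⟩

lemma weakSm_contDiff (A : E3 ≃ᵃⁱ[ℝ] E3) {u : E2 → ℝ} (hu : ContDiff ℝ 2 u) {ρ : E3 → ℝ}
    (hρ : ContDiff ℝ 2 ρ) : ContDiff ℝ 2 (fun z => ρ (Fm A u z)) :=
  (normal_contDiff_comp A hρ).comp (contDiff_up hu)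

/-- The weak formula in a patch. -/
theorem weak_patch_smooth (hμ : IsArea S μ) {A : E3 ≃ᵃⁱ[ℝ] E3} {u : E2 → ℝ} {r : ℝ}
    (h : IsPatch S A u r) {ρ : E3 → ℝ} (hρ : ContDiff ℝ 2 ρ) (hc : HasCompactSupport ρ)
    (hs : tsupport ρ ⊆ cyl A r) {Ψ : E3 → ℝ} (hΨ : ContDiff ℝ 2 Ψ) :
    Integrable (fun x => ρ x * TL S Ψ x) μ ∧ Integrable (gS S ρ Ψ) μ ∧
      ∫ x, ρ x * TL S Ψ x ∂μ = - ∫ x, gS S ρ Ψ x ∂μ := by
  obtain ⟨hKc, hKr⟩ := weakSm_compact hc hs
  set K := ch A '' tsupport ρ with hK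
  set e : E2 → ℝ := fun z => ρ (Fm A u z) with he
  have heC : ContDiff ℝ 2 e := weakSm_contDiff A h.smooth hρ
  have hsupp : tsupport e ⊆ K :=
    closure_minimal (fun z hz => weakSm_mem hz) hKc.isClosed
  have hec : HasCompactSupport e := HasCompactSupport.of_support_subset_isCompact hKc
    (fun z hz => weakSm_mem hz)
  obtain ⟨L, hL⟩ := heC.lipschitzWith_of_hasCompactSupport hec (by norm_num)
  set Ψ' : E3 → ℝ := fun q => Ψ (A.symm q) with hΨ'
  have hΨ'C : ContDiff ℝ 2 Ψ' := normal_contDiff_comp A hΨ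
  have key := weak_local h.smooth isOpen_ball (Ω := ball (0 : E2) r)
    (fun z hz => h.minimal z (by simpa using hz)) hL hec (hsupp.trans hKr) hΨ'C
  have hdiff : ∀ x, DifferentiableAt ℝ ρ x := fun x => hρ.differentiable (by norm_num) x
  have hdiffΨ : ∀ x, DifferentiableAt ℝ Ψ x := fun x => hΨ.differentiable (by norm_num) x
  have hline : ∀ z i, lineDeriv ℝ e z (EuclideanSpace.single i 1) = pd e i z := fun z i =>
    (heC.differentiable (by norm_num) z).lineDeriv_eq_fderiv
  -- vanishing off the cylinder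
  have h01 : ∀ x ∈ S, x ∉ cyl A r → ρ x * TL S Ψ x = 0 := fun x _ hx => by
    rw [image_eq_zero_of_notMem_tsupport (fun h => hx (hs h)), zero_mul]
  have h02 : ∀ x ∈ S, x ∉ cyl A r → gS S ρ Ψ x = 0 := fun x _ hx => by
    rw [gS, fderiv_of_notMem_tsupport ℝ (fun h => hx (hs h))]
    simp
  -- the two integrands on the disc
  have e1 : ∀ z ∈ ball (0 : E2) r, ρ (Fm A u z) * TL S Ψ (Fm A u z) * jac u z =
      e z * (lapG u Ψ' z * jac u z) := fun z hz => by
    rw [TL_patch h (by simpa using hz) hΨ]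
    ring
  set G : E2 → ℝ := fun z => ∑ i : Fin 2, lineDeriv ℝ e z (EuclideanSpace.single i 1) *
          (∑ j : Fin 2, co u i j z * pd (fun w => Ψ' (up w (u w))) j z) with hG
  have e2 : ∀ z ∈ ball (0 : E2) r, gS S ρ Ψ (Fm A u z) * jac u z = G z := fun z hz => by
    have := grad_patch h (by simpa using hz) (hdiff (Fm A u z)) (hdiffΨ (Fm A u z))
    rw [mul_comm, ← this, hG]
    simp only [hline]
    rfl
  have hG0 : ∀ z, z ∉ ball (0 : E2) r → G z = 0 := fun z hz => by
    rw [hG]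
    refine Finset.sum_eq_zero fun i _ => ?_
    rw [weakLocal_lineDeriv_zero (fun hz' => hz (hKr (hsupp hz'))), zero_mul]
  have hE0 : ∀ z, z ∉ ball (0 : E2) r → e z * (lapG u Ψ' z * jac u z) = 0 := fun z hz => by
    rw [image_eq_zero_of_notMem_tsupport (fun hz' => hz (hKr (hsupp hz'))), zero_mul]
  -- integrability
  have i1 : Integrable (fun z => e z * (lapG u Ψ' z * jac u z)) := by
    refine Continuous.integrable_of_hasCompactSupport ?_ hec.mul_right
    exact heC.continuous.mul ((continuous_lapG h.smooth hΨ'C).mul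
      (continuous_jac (h.smooth.of_le (by norm_num))))
  have hco : ∀ i j, Continuous (co u i j) := fun i j => by
    have h1 := continuous_jac (h.smooth.of_le (by norm_num : (1 : WithTop ℕ∞) ≤ 2))
    have h2 := continuous_pd (h.smooth.of_le (by norm_num : (1 : WithTop ℕ∞) ≤ 2)) i
    have h3 := continuous_pd (h.smooth.of_le (by norm_num : (1 : WithTop ℕ∞) ≤ 2)) j
    unfold co
    refine Continuous.div ?_ h1 fun z => (jac_pos u z).ne'
    split_ifs
    · exact (h1.pow 2).sub (h2.mul h3)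
    · exact continuous_const.sub (h2.mul h3)
  have i2 : Integrable G := by
    have hψ : ContDiff ℝ 2 (fun w => Ψ' (up w (u w))) := hΨ'C.comp (contDiff_up h.smooth)
    refine Continuous.integrable_of_hasCompactSupport ?_ ?_
    · rw [hG]
      simp only [hline]
      refine continuous_finsetSum _ fun i _ => ?_
      refine (continuous_pd (heC.of_le (by norm_num)) i).mul (continuous_finsetSum _ fun j _ => ?_)
      exact (hco i j).mul (continuous_pd (hψ.of_le (by norm_num)) j)
    · refine HasCompactSupport.intro hKc fun z hz => ?_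
      rw [hG]
      refine Finset.sum_eq_zero fun i _ => ?_
      rw [weakLocal_lineDeriv_zero (fun hz' => hz (hsupp hz')), zero_mul]
  refine ⟨integrable_patch hμ h h01 ?_, integrable_patch hμ h h02 ?_, ?_⟩
  · exact i1.integrableOn.congr_fun (fun z hz => (e1 z hz).symm) measurableSet_ball
  · exact i2.integrableOn.congr_fun (fun z hz => (e2 z hz).symm) measurableSet_ball
  · rw [integral_patch hμ h h01, integral_patch hμ h h02, setIntegral_congr_fun measurableSet_ball e1,
      setIntegral_congr_fun measurableSet_ball e2, setIntegral_eq_integral_of_forall_compl_eq_zero hE0,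
      setIntegral_eq_integral_of_forall_compl_eq_zero hG0]
    exact key

/-- The weak formula for functions whose support meets the closure of the surface in points of the surface only. -/
theorem weak_smooth (hS : MinimalSurface S) (hμ : IsArea S μ) {Ψ : E3 → ℝ} (hΨ : ContDiff ℝ 2 Ψ)
    (hc : HasCompactSupport Ψ) (hs : closure S ∩ tsupport Ψ ⊆ S) :
    ∫ x, TL S Ψ x ∂μ = 0 := by
  have hC : IsCompact (closure S ∩ tsupport Ψ) := IsCompact.inter_left hc isClosed_closure
  obtain ⟨n, A, u, r, ρ, U, hp, hρ, -, hρc, hρs, hU, hCU, hsum⟩ := exists_partition hS hC hs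
  have key := fun i => weak_patch_smooth hμ (hp i) (hρ i) (hρc i) (hρs i) hΨ
  have hae : ∀ᵐ x ∂μ, x ∈ S := by
    rw [ae_iff]
    exact hμ.null
  have h1 : ∀ x ∈ S, TL S Ψ x = ∑ i, ρ i x * TL S Ψ x := fun x hx => by
    by_cases hxs : x ∈ tsupport Ψ
    · rw [← Finset.sum_mul, hsum x (hCU ⟨subset_closure hx, hxs⟩), one_mul]
    · have h0 : fderiv ℝ (fderiv ℝ Ψ) x = 0 :=
        fderiv_of_notMem_tsupport ℝ fun h => hxs (tsupport_fderiv_subset ℝ h)
      have hTL : TL S Ψ x = 0 := by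
        simp [TL, D2, h0]
      simp [hTL]
  have h2 : ∀ x ∈ S, ∑ i, gS S (ρ i) Ψ x = 0 := fun x hx => by
    by_cases hxs : x ∈ tsupport Ψ
    · have hxU : x ∈ U := hCU ⟨subset_closure hx, hxs⟩
      have hd : ∑ i, fderiv ℝ (ρ i) x = 0 := by
        have hev : (fun y => ∑ i, ρ i y) =ᶠ[𝓝 x] fun _ => (1 : ℝ) := by
          filter_upwards [hU.mem_nhds hxU] with y hy
          exact hsum y hy
        have h3 : fderiv ℝ (fun y => ∑ i, ρ i y) x = fderiv ℝ (fun _ => (1 : ℝ)) x := hev.fderiv_eq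
        rw [fderiv_fun_sum (fun i _ => (hρ i).differentiable (by norm_num) x)] at h3
        rw [h3]
        simp
      have hd' : ∀ v, ∑ i, fderiv ℝ (ρ i) x v = 0 := fun v => by
        have := congrArg (fun (L : E3 →L[ℝ] ℝ) => L v) hd
        simpa using this
      simp only [gS]
      rw [Finset.sum_sub_distrib, Finset.sum_comm, ← Finset.sum_mul, hd', zero_mul, sub_zero]
      refine Finset.sum_eq_zero fun k _ => ?_
      rw [← Finset.sum_mul, hd', zero_mul]
    · refine Finset.sum_eq_zero fun i _ => ?_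
      have h0 : fderiv ℝ Ψ x = 0 := fderiv_of_notMem_tsupport ℝ hxs
      simp [gS, h0]
  rw [integral_congr_ae (hae.mono h1), integral_finsetSum _ fun i _ => (key i).1,
    Finset.sum_congr rfl fun i _ => (key i).2.2, Finset.sum_neg_distrib,
    ← integral_finsetSum _ fun i _ => (key i).2.1, integral_congr_ae (hae.mono h2)]
  simp

end Ca98
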